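import Mathlib

/-!
# An isomorphism of profinite completions from compatible homomorphisms
-/

set_option autoImplicit false

namespace Pool.Agent.J4.H1.VN

open ProfiniteGrp.ProfiniteCompletion

variable {G H : Type} [Group G] [Group H]

/-- the component of an element of the profinite completion -/
def coord (N : FiniteIndexNormalSubgroup G) (x : completion (GrpCat.of G)) : G ⧸ N.toSubgroup :=
  x.1 N

theorem coord_mul (N : FiniteIndexNormalSubgroup G) (x y : completion (GrpCat.of G)) :
    coord N (x * y) = coord N x * coord N y := rfl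

theorem coord_ext {x y : completion (GrpCat.of G)} (h : ∀ N, coord N x = coord N y) : x = y :=
  Subtype.ext (funext h)

theorem coord_compat {N N' : FiniteIndexNormalSubgroup G} (h : N ≤ N')
    (x : completion (GrpCat.of G)) :
    QuotientGroup.map N.toSubgroup N'.toSubgroup (MonoidHom.id G) h (coord N x) = coord N' x :=
  x.2 (CategoryTheory.homOfLE h)

/-- an element of the completion from its components -/
def mkC (f : ∀ N : FiniteIndexNormalSubgroup G, G ⧸ N.toSubgroup)
    (hf : ∀ (N N' : FiniteIndexNormalSubgroup G) (h : N ≤ N'),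
      QuotientGroup.map N.toSubgroup N'.toSubgroup (MonoidHom.id G) h (f N) = f N') :
    completion (GrpCat.of G) :=
  ⟨f, fun N N' π => hf N N' (CategoryTheory.leOfHom π)⟩

theorem coord_mkC (f : ∀ N : FiniteIndexNormalSubgroup G, G ⧸ N.toSubgroup)
    (hf : ∀ (N N' : FiniteIndexNormalSubgroup G) (h : N ≤ N'),
      QuotientGroup.map N.toSubgroup N'.toSubgroup (MonoidHom.id G) h (f N) = f N')
    (N : FiniteIndexNormalSubgroup G) : coord N (mkC f hf) = f N := rfl

instance disc (N : FiniteIndexNormalSubgroup G) :
    DiscreteTopology ((diagram (GrpCat.of G)).obj N) := ⟨rfl⟩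

theorem continuous_mk {X : Type} [TopologicalSpace X] {F : X → completion (GrpCat.of G)}
    (h : ∀ N, Continuous fun x => (F x).1 N) : Continuous F :=
  continuous_induced_rng.2 (continuous_pi h)

/-- **Profinite completions.** -/
theorem completion_equiv (φ : ∀ N : FiniteIndexNormalSubgroup G, H →* G ⧸ N.toSubgroup)
    (hφ : ∀ N, Function.Surjective (φ N))
    (hc : ∀ (N N' : FiniteIndexNormalSubgroup G) (h : N ≤ N') (s : H),
      QuotientGroup.map N.toSubgroup N'.toSubgroup (MonoidHom.id G) h (φ N s) = φ N' s)
    (hK : ∀ K : FiniteIndexNormalSubgroup H, ∃ N, (φ N).ker = K.toSubgroup) :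
    Nonempty (completion (GrpCat.of G) ≃ₜ* completion (GrpCat.of H)) := by
  classical
  have hfin : ∀ N : FiniteIndexNormalSubgroup G, (φ N).ker.FiniteIndex := by
    intro N
    have h1 : Finite (G ⧸ N.toSubgroup) := inferInstance
    have h2 : Finite (H ⧸ (φ N).ker) :=
      Finite.of_injective _ (QuotientGroup.kerLift_injective (φ N))
    exact Subgroup.finiteIndex_of_finite_quotient
  let κ : FiniteIndexNormalSubgroup G → FiniteIndexNormalSubgroup H := fun N =>
    { toSubgroup := (φ N).ker
      isNormal' := inferInstance
      isFiniteIndex' := hfin N }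
  have hκ : ∀ (N N' : FiniteIndexNormalSubgroup G), N ≤ N' → κ N ≤ κ N' := by
    intro N N' h s hs
    have h1 : φ N s = 1 := hs
    show φ N' s = 1
    rw [← hc N N' h, h1, map_one]
  have hlift : ∀ (N N' : FiniteIndexNormalSubgroup G) (h : N ≤ N') (q : H ⧸ (κ N).toSubgroup),
      QuotientGroup.map N.toSubgroup N'.toSubgroup (MonoidHom.id G) h
        (QuotientGroup.kerLift (φ N) q) = QuotientGroup.kerLift (φ N')
          (QuotientGroup.map (κ N).toSubgroup (κ N').toSubgroup (MonoidHom.id H) (hκ N N' h) q) := by
    intro N N' h q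
    induction q using QuotientGroup.induction_on with
    | H s => exact hc N N' h s
  let Ψ : completion (GrpCat.of H) →* completion (GrpCat.of G) :=
    { toFun := fun x => mkC (fun N => QuotientGroup.kerLift (φ N) (coord (κ N) x))
        (fun N N' h => by rw [hlift, coord_compat])
      map_one' := by
        apply coord_ext
        intro N
        exact map_one (QuotientGroup.kerLift (φ N))
      map_mul' := fun x y => by
        apply coord_ext
        intro N
        exact map_mul (QuotientGroup.kerLift (φ N)) (coord (κ N) x) (coord (κ N) y) }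
  have hΨ : ∀ x N, coord N (Ψ x) = QuotientGroup.kerLift (φ N) (coord (κ N) x) := fun x N => rfl
  have hcont : Continuous Ψ := by
    refine continuous_mk fun N => ?_
    have h1 : Continuous fun x : completion (GrpCat.of H) => x.1 (κ N) :=
      (continuous_apply (κ N)).comp continuous_subtype_val
    let g : (diagram (GrpCat.of H)).obj (κ N) → (diagram (GrpCat.of G)).obj N :=
      fun q => QuotientGroup.kerLift (φ N) q
    have h2 : Continuous g := continuous_of_discreteTopology
    exact h2.comp h1
  have hinj : Function.Injective Ψ := by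
    intro x y hxy
    apply coord_ext
    intro K
    obtain ⟨N, hN⟩ := hK K
    have h1 : κ N = K := FiniteIndexNormalSubgroup.toSubgroup_injective hN
    subst h1
    apply QuotientGroup.kerLift_injective (φ N)
    have h2 := congrArg (coord N) hxy
    exact h2
  have hsurj : Function.Surjective Ψ := by
    intro y
    choose n hn using hK
    have h1 : ∀ N, ∃ s : H, φ N s = coord N y := fun N => hφ N (coord N y)
    -- if `φ N s = y_N` and `φ N' s' = y_N'` then `s = s'` modulo `ker φ N ⊔ ker φ N'`
    have key : ∀ (N N' : FiniteIndexNormalSubgroup G), ∃ s : H, φ N s = coord N y ∧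
        φ N' s = coord N' y := by
      intro N N'
      obtain ⟨s, hs⟩ := h1 (N ⊓ N')
      refine ⟨s, ?_, ?_⟩
      · rw [← hc (N ⊓ N') N inf_le_left, hs, coord_compat]
      · rw [← hc (N ⊓ N') N' inf_le_right, hs, coord_compat]
    choose t ht using h1
    have hker : ∀ (N : FiniteIndexNormalSubgroup G) (a b : H), φ N a = φ N b →
        a⁻¹ * b ∈ (φ N).ker := by
      intro N a b hab
      rw [MonoidHom.mem_ker, map_mul, map_inv, hab, inv_mul_cancel]
    have hcomp : ∀ (K K' : FiniteIndexNormalSubgroup H) (h : K ≤ K'),
        (t (n K))⁻¹ * t (n K') ∈ K'.toSubgroup := by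
      intro K K' h
      obtain ⟨s, hs, hs'⟩ := key (n K) (n K')
      have h2 : (t (n K))⁻¹ * s ∈ K'.toSubgroup := by
        apply h
        have := hker (n K) (t (n K)) s (by rw [hs, ht])
        rw [hn K] at this
        exact this
      have h3 : s⁻¹ * t (n K') ∈ K'.toSubgroup := by
        have := hker (n K') s (t (n K')) (by rw [hs', ht])
        rwa [hn K'] at this
      have h4 := K'.toSubgroup.mul_mem h2 h3
      rwa [mul_assoc, mul_inv_cancel_left] at h4
    refine ⟨mkC (fun K => ((t (n K) : H) : H ⧸ K.toSubgroup)) (fun K K' h => ?_), ?_⟩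
    · show ((t (n K) : H) : H ⧸ K'.toSubgroup) = ((t (n K') : H) : H ⧸ K'.toSubgroup)
      rw [QuotientGroup.eq]
      exact hcomp K K' h
    · apply coord_ext
      intro N
      rw [hΨ, coord_mkC]
      show φ N (t (n (κ N))) = coord N y
      obtain ⟨s, hs, hs'⟩ := key N (n (κ N))
      have h5 := hker (n (κ N)) (t (n (κ N))) s (by rw [hs', ht])
      rw [hn (κ N)] at h5
      have h6 : φ N ((t (n (κ N)))⁻¹ * s) = 1 := h5
      rw [map_mul, map_inv, inv_mul_eq_one] at h6
      rw [h6, hs]
  let e : completion (GrpCat.of H) ≃* completion (GrpCat.of G) :=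
    MulEquiv.ofBijective Ψ ⟨hinj, hsurj⟩
  have he : Continuous e := hcont
  let E : completion (GrpCat.of H) ≃ₜ* completion (GrpCat.of G) :=
    { e with
      continuous_toFun := he
      continuous_invFun := (Continuous.homeoOfEquivCompactToT2 (f := e.toEquiv) he).continuous_invFun }
  exact ⟨E.symm⟩

end Pool.Agent.J4.H1.VN
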