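import Pool.Agent.K4H1.VN.St2
import Pool.Agent.Y276.Rig.Stm

/-!
# Preserved subgroups: the definitions of the statement
-/

set_option autoImplicit false

namespace Pool.Agent.J4.H1.VN

open Pool.Agent.K4H1.VN Matrix

/-- an isomorphism `θ(x) = U x U⁻¹` of `L(Γ)` onto `L(Λ)`, given by a unitary operator `U` -/
structure VNIso (Γ Λ : Type) [Group Γ] [Group Λ] where
  U : L2 Γ ≃ₗᵢ[ℂ] L2 Λ
  isIso : IsSpatialIso U

section Abs

variable {Γ Λ : Type} [Group Γ] [Group Λ]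

/-- the operator `θ(T) = U T U⁻¹` -/
noncomputable def VNIso.map (θ : VNIso Γ Λ) (T : L2 Γ → L2 Γ) : L2 Λ → L2 Λ :=
  fun f => θ.U (T (θ.U.symm f))

/-- the Fourier coefficients of `T` are `0` outside of `H` -/
def SuppOn (T : L2 Γ → L2 Γ) (H : Set Γ) : Prop := ∀ x, x ∉ H → T (delta 1) x = 0

/-- `θ(L(H))` is the group von Neumann algebra of a subgroup of `Λ` -/
def Preserved (θ : VNIso Γ Λ) (H : Set Γ) : Prop :=
  ∃ K : Subgroup Λ, ∀ T : L2 Γ →L[ℂ] L2 Γ, InVN T → (SuppOn T H ↔ SuppOn (θ.map T) K)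

/-- `H` belongs to the complete lattice of subgroups (arbitrary intersections and joins) which is
generated by the family `F` -/
def InLattice (F : Set (Subgroup Γ)) (H : Set Γ) : Prop :=
  ∀ P : Set (Subgroup Γ), F ⊆ P → (∀ S ⊆ P, sSup S ∈ P) → (∀ S ⊆ P, sInf S ∈ P) →
    ∃ H' ∈ P, (H' : Set Γ) = H

/-- `B` and `C` commute, `B ∩ C = 1`, `A ∩ ⟨B, C⟩ = 1`, and some `a` in `A` normalises `⟨B, C⟩`, acts
trivially on `⟨B, C⟩ / C` and commutes with no element of `B` other than `1` -/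
def CommTriple (A B C : Subgroup Γ) : Prop :=
  (∀ b ∈ B, ∀ c ∈ C, b * c = c * b) ∧ B ⊓ C = ⊥ ∧ A ⊓ (B ⊔ C) = ⊥ ∧
    ∃ a ∈ A, (∀ c ∈ C, a * c * a⁻¹ ∈ B ⊔ C) ∧ (∀ b ∈ B, a * b * a⁻¹ * b⁻¹ ∈ C) ∧
      ∀ b ∈ B, a * b = b * a → b = 1

/-- `θ(u_g)` is a multiple of a group element -/
def GroupLike (θ : VNIso Γ Λ) (g : Γ) : Prop :=
  ∃ (c : Circle) (k : Λ), ∀ f, θ.map (lam g) f = (c : ℂ) • lam k f

/-- `θ(u_g) = χ(g) u_{π(g)}` for an isomorphism of groups `π` and a character `χ` -/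
def IsGroupIso (θ : VNIso Γ Λ) : Prop :=
  ∃ (π : Γ ≃* Λ) (χ : Γ →* Circle), ∀ g f, θ.map (lam g) f = (χ g : ℂ) • lam (π g) f

end Abs

section Mat

variable {R : Type} [CommRing R] {I : Type} [Fintype I] [DecidableEq I]

/-- the root subgroup: the elements `1 + r E_kl` of `Γ` -/
def rootSet (Γ : Subgroup (SpecialLinearGroup I R)) (k l : I) : Set Γ :=
  {g | ∃ r : R, mat g = transvection k l r}

/-- the stabiliser of the coordinate vector `e_j` -/
def vecStab (Γ : Subgroup (SpecialLinearGroup I R)) (j : I) : Set Γ :=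
  {g | mat g *ᵥ Pi.single j 1 = Pi.single j 1}

/-- the stabiliser of the coordinate function `e_i^*` -/
def covStab (Γ : Subgroup (SpecialLinearGroup I R)) (i : I) : Set Γ :=
  {g | Pi.single i 1 ᵥ* mat g = Pi.single i 1}

/-- the stabiliser of the coordinate line `R e_j` -/
def lineStab (Γ : Subgroup (SpecialLinearGroup I R)) (j : I) : Set Γ :=
  {g | ∃ a b : R, mat g *ᵥ Pi.single j 1 = a • Pi.single j 1 ∧
    mat g⁻¹ *ᵥ Pi.single j 1 = b • Pi.single j 1}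

/-- the stabiliser of the line `R e_i^*` -/
def colineStab (Γ : Subgroup (SpecialLinearGroup I R)) (i : I) : Set Γ :=
  {g | ∃ a b : R, Pi.single i 1 ᵥ* mat g = a • Pi.single i 1 ∧
    Pi.single i 1 ᵥ* mat g⁻¹ = b • Pi.single i 1}

/-- an element of `Γ` with at most one nonzero entry off the diagonal has diagonal entries `1` -/
def NearlyDiagonalUnipotent (Γ : Subgroup (SpecialLinearGroup I R)) : Prop :=
  ∀ (g : Γ) (k l : I), (∀ i j, i ≠ j → (i, j) ≠ (k, l) → mat g i j = 0) → ∀ i, mat g i i = 1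

end Mat

end Pool.Agent.J4.H1.VN
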