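import Pool.Agent.J4.H1.VN.Tri
import Pool.Agent.J4.H1.VN.SDefs
import Pool.Agent.K4H1.VN.RelMx

/-!
# Preserved subgroups: definitions and the matrix groups
-/

set_option autoImplicit false
set_option linter.unusedSectionVars false

namespace Pool.Agent.J4.H1.VN

open Pool.Agent.K4H1.VN Pool.Agent.Y276.Rig Matrix

section Abs

variable {Γ Λ : Type} [Group Γ] [Group Λ]

theorem pres_of_lattice {U : L2 Γ ≃ₗᵢ[ℂ] L2 Λ} (hU : IsStdIso U) {F : Set (Subgroup Γ)}
    (hF : ∀ H ∈ F, Pres U H) {H : Subgroup Γ} (hH : InLattice F (H : Set Γ)) : Pres U H := by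
  obtain ⟨H', h1, h2⟩ := hH {H | Pres U H} hF (fun S hS => pres_sSup hU S hS)
    (fun S hS => pres_sInf S hS)
  rwa [← SetLike.coe_injective h2]

theorem mem_sup_comm {B C : Subgroup Γ} (hcom : ∀ b ∈ B, ∀ c ∈ C, b * c = c * b) (x : Γ) :
    x ∈ B ⊔ C ↔ ∃ b ∈ B, ∃ c ∈ C, x = b * c := by
  constructor
  · intro hx
    let M : Subgroup Γ :=
      { carrier := {x | ∃ b ∈ B, ∃ c ∈ C, x = b * c}
        one_mem' := ⟨1, B.one_mem, 1, C.one_mem, (mul_one 1).symm⟩
        mul_mem' := by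
          rintro _ _ ⟨b, hb, c, hc, rfl⟩ ⟨b', hb', c', hc', rfl⟩
          refine ⟨b * b', B.mul_mem hb hb', c * c', C.mul_mem hc hc', ?_⟩
          rw [mul_assoc, mul_assoc, ← mul_assoc c, ← hcom b' hb' c hc, mul_assoc]
        inv_mem' := by
          rintro _ ⟨b, hb, c, hc, rfl⟩
          refine ⟨b⁻¹, B.inv_mem hb, c⁻¹, C.inv_mem hc, ?_⟩
          rw [_root_.mul_inv_rev, hcom _ (B.inv_mem hb) _ (C.inv_mem hc)] }
    have h1 : B ⊔ C ≤ M := sup_le (fun b hb => ⟨b, hb, 1, C.one_mem, (mul_one b).symm⟩)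
      (fun c hc => ⟨1, B.one_mem, c, hc, (one_mul c).symm⟩)
    exact h1 hx
  · rintro ⟨b, hb, c, hc, rfl⟩
    exact mul_mem (Subgroup.mem_sup_left hb) (Subgroup.mem_sup_right hc)

theorem gl_of_commTriple {U : L2 Γ ≃ₗᵢ[ℂ] L2 Λ} (hU : IsStdIso U) {A B C : Subgroup Γ}
    (hA : Pres U A) (hB : Pres U B) (hC : Pres U C) (h : CommTriple A B C) {b : Γ}
    (hb : b ∈ B) : ∃ c k, Glk U b c k := by
  obtain ⟨hcom, hBC, hABC, a, haA, haC, hab, hcb⟩ := h
  obtain ⟨KN, hN⟩ := hB.sup hU hC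
  obtain ⟨KA, hA⟩ := hA
  obtain ⟨KB, hB⟩ := hB
  obtain ⟨KC, hC⟩ := hC
  have hBC' : ∀ x ∈ B, x ∈ C → x = 1 := fun x h1 h2 => by
    have : x ∈ B ⊓ C := ⟨h1, h2⟩
    rw [hBC] at this
    exact Subgroup.mem_bot.1 this
  have hABC' : ∀ x ∈ A, x ∈ B ⊔ C → x = 1 := fun x h1 h2 => by
    have : x ∈ A ⊓ (B ⊔ C) := ⟨h1, h2⟩
    rw [hABC] at this
    exact Subgroup.mem_bot.1 this
  refine gl_of_triple hU hA hB hC hN (mem_sup_comm hcom) hcom hBC' hABC' haA ?_ hab hcb hb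
  intro n hn
  obtain ⟨b, hb, c, hc, rfl⟩ := (mem_sup_comm hcom n).1 hn
  have h1 : a * (b * c) * a⁻¹ = (a * b * a⁻¹ * b⁻¹) * b * (a * c * a⁻¹) := by group
  rw [h1]
  exact mul_mem (mul_mem (Subgroup.mem_sup_right (hab b hb)) (Subgroup.mem_sup_left hb)) (haC c hc)

theorem exists_std_iso (hicc : IsIcc Γ) (θ : VNIso Γ Λ) :
    ∃ U₀ : L2 Γ ≃ₗᵢ[ℂ] L2 Λ, IsStdIso U₀ ∧
      ∀ T : L2 Γ →L[ℂ] L2 Γ, InVN T → ∀ f, U₀ (T (U₀.symm f)) = θ.map T f :=
  exists_std_conj hicc θ.isIso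

theorem groupLike_of {θ : VNIso Γ Λ} {U₀ : L2 Γ ≃ₗᵢ[ℂ] L2 Λ} (hU₀ : IsStdIso U₀)
    (h : ∀ T : L2 Γ →L[ℂ] L2 Γ, InVN T → ∀ f, U₀ (T (U₀.symm f)) = θ.map T f) {g : Γ}
    (hg : ∃ c k, Glk U₀ g c k) : GroupLike θ g := by
  obtain ⟨c, k, hk⟩ := hg
  refine ⟨c, k, fun f => ?_⟩
  have h1 := h (tl (lam g)) (inVN_lam g) f
  have h2 : U₀ (lam g (U₀.symm f)) = θ.map (lam g) f := h1
  rw [← h2, hk.left hU₀, U₀.apply_symm_apply]

theorem isGroupIso_of {θ : VNIso Γ Λ} {U₀ : L2 Γ ≃ₗᵢ[ℂ] L2 Λ} (hU₀ : IsStdIso U₀)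
    (h : ∀ T : L2 Γ →L[ℂ] L2 Γ, InVN T → ∀ f, U₀ (T (U₀.symm f)) = θ.map T f)
    (hg : ∀ g, ∃ c k, Glk U₀ g c k) : IsGroupIso θ := by
  obtain ⟨π, χ, hπ⟩ := exists_equiv hU₀ hg
  refine ⟨π, χ, fun g f => ?_⟩
  have h1 := h (tl (lam g)) (inVN_lam g) f
  have h2 : U₀ (lam g (U₀.symm f)) = θ.map (lam g) f := h1
  rw [← h2, hπ, U₀.apply_symm_apply]

theorem preserved_std {θ : VNIso Γ Λ} {U₀ : L2 Γ ≃ₗᵢ[ℂ] L2 Λ} (hU₀ : IsStdIso U₀)
    (h : ∀ T : L2 Γ →L[ℂ] L2 Γ, InVN T → ∀ f, U₀ (T (U₀.symm f)) = θ.map T f)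
    {H : Subgroup Γ} (hH : Preserved θ (H : Set Γ)) : Pres U₀ H := by
  obtain ⟨K, hK⟩ := hH
  have h1 : MapsSub U₀ (H : Set Γ) K := by
    intro T hT
    rw [h T hT]
    exact hK T hT
  exact ⟨K, h1.compat hU₀⟩

end Abs

section Mat

variable {R : Type} [CommRing R] {I : Type} [Fintype I] [DecidableEq I]
  {Γ : Subgroup (SpecialLinearGroup I R)}

/-- the root subgroup: the elements `1 + r E_kl` of `Γ` -/
def rootSub (Γ : Subgroup (SpecialLinearGroup I R)) (k l : I) (h : k ≠ l) : Subgroup Γ where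
  carrier := {g | ∃ r : R, mat g = transvection k l r}
  one_mem' := ⟨0, by rw [mat_one, transvection_zero]⟩
  mul_mem' := by
    rintro a b ⟨r, hr⟩ ⟨s, hs⟩
    exact ⟨r + s, by rw [mat_mul, hr, hs, transvection_mul_transvection_same _ _ h]⟩
  inv_mem' := by
    rintro a ⟨r, hr⟩
    refine ⟨-r, mat_inv_eq ?_⟩
    rw [hr, transvection_mul_transvection_same _ _ h, add_neg_cancel, transvection_zero]

theorem mem_rootSub {k l : I} {h : k ≠ l} {g : Γ} :
    g ∈ rootSub Γ k l h ↔ ∃ r : R, mat g = 1 + r • E k l := by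
  constructor
  · rintro ⟨r, hr⟩
    exact ⟨r, by rw [hr, transvection_eq]⟩
  · rintro ⟨r, hr⟩
    exact ⟨r, by rw [hr, transvection_eq]⟩

theorem smul_E_apply (r : R) (k l i j : I) :
    (r • E k l : Matrix I I R) i j = if k = i ∧ l = j then r else 0 := by
  rw [Matrix.smul_apply, smul_eq_mul, E, Matrix.single_apply, mul_ite, mul_one, mul_zero]

theorem mat_inv_E {g : Γ} {r : R} {k l : I} (h : k ≠ l) (hg : mat g = 1 + r • E k l) :
    mat g⁻¹ = 1 + (-r) • E k l := by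
  apply mat_inv_eq
  rw [← transvection_eq] at hg
  rw [hg, ← transvection_eq, transvection_mul_transvection_same _ _ h, add_neg_cancel,
    transvection_zero]

theorem smul_E_inj {r : R} {k l : I} (h : (r • E k l : Matrix I I R) = 0) : r = 0 := by
  have h1 := congrFun (congrFun h k) l
  rw [smul_E_apply, if_pos ⟨rfl, rfl⟩] at h1
  exact h1

theorem entry_eq {M : Matrix I I R} {r s : R} {k l p q : I} (h : M = 1 + r • E k l)
    (h' : M = 1 + s • E p q) (hne : (k, l) ≠ (p, q)) : M = 1 := by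
  have h1 : r • (E k l : Matrix I I R) = s • E p q := by
    rw [h] at h'
    exact add_left_cancel h'
  have h2 := congrFun (congrFun h1 k) l
  rw [smul_E_apply, smul_E_apply, if_pos ⟨rfl, rfl⟩, if_neg] at h2
  · rw [h, h2, zero_smul, add_zero]
  · rintro ⟨h3, h4⟩
    exact hne (by rw [h3, h4])

/-- `g` and `h` commute if the elementary matrices do -/
theorem commTriple_root [IsDomain R] [CharZero R] (hΓ : Rich Γ) {i k j : I} (hik : i ≠ k)
    (hkj : k ≠ j) (hij : i ≠ j) :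
    CommTriple (rootSub Γ k j hkj) (rootSub Γ i k hik) (rootSub Γ i j hij) := by
  have hcom : ∀ b ∈ rootSub Γ i k hik, ∀ c ∈ rootSub Γ i j hij, b * c = c * b := by
    intro b hb c hc
    obtain ⟨r, hr⟩ := mem_rootSub.1 hb
    obtain ⟨s, hs⟩ := mem_rootSub.1 hc
    apply mat_inj
    rw [mat_mul, mat_mul, hr, hs]
    simp only [mul_add, add_mul, mul_one, one_mul, smul_mul_smul_comm, E_mul_E,
      if_neg hik.symm, if_neg hij.symm, smul_zero, add_zero]
    abel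
  obtain ⟨N, hN, a, ha⟩ := hΓ k j hkj 1
  rw [transvection_eq, mul_one] at ha
  have hN0 : (N : R) ≠ 0 := by
    rw [Nat.cast_ne_zero]
    omega
  have hainv : mat a⁻¹ = 1 + (-(N : R)) • E k j := mat_inv_E hkj ha
  have hab : ∀ b ∈ rootSub Γ i k hik, ∀ r : R, mat b = 1 + r • E i k →
      mat (a * b * a⁻¹ * b⁻¹) = 1 + (-(r * N)) • E i j := by
    intro b hb r hr
    have hbinv : mat b⁻¹ = 1 + (-r) • E i k := mat_inv_E hik hr
    have e1 : (E k j : Matrix I I R) * E i k = 0 := by rw [E_mul_E, if_neg hij.symm]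
    have e2 : (E i k : Matrix I I R) * E k j = E i j := by rw [E_mul_E, if_pos rfl]
    have e3 : (E k j : Matrix I I R) * E k j = 0 := E_sq hkj
    have e4 : (E i k : Matrix I I R) * E i k = 0 := E_sq hik
    have e5 : (E i j : Matrix I I R) * E i k = 0 := by rw [E_mul_E, if_neg hij.symm]
    have h1 : mat (a * b * a⁻¹) = 1 + r • E i k + (-(r * N)) • E i j := by
      rw [mat_mul, mat_mul, ha, hr, hainv]
      have h2 : (1 + (N : R) • E k j) * (1 + r • E i k) =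
          (1 + (N : R) • E k j + r • E i k : Matrix I I R) := by
        rw [mul_add, mul_one, add_mul, one_mul, smul_mul_smul_comm, e1, smul_zero, add_zero]
      rw [h2, mul_add, mul_one, add_mul, add_mul, one_mul, smul_mul_smul_comm, smul_mul_smul_comm,
        e2, e3, smul_zero, add_zero, neg_smul, mul_neg, neg_smul]
      abel
    rw [mat_mul, h1, hbinv, mul_add, mul_one, add_mul, add_mul, one_mul, smul_mul_smul_comm,
      smul_mul_smul_comm, e4, e5, smul_zero, smul_zero, add_zero, add_zero, neg_smul r]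
    abel
  refine ⟨hcom, ?_, ?_, a, mem_rootSub.2 ⟨N, ha⟩, ?_, ?_, ?_⟩
  · rw [eq_bot_iff]
    rintro x ⟨h1, h2⟩
    obtain ⟨r, hr⟩ := mem_rootSub.1 h1
    obtain ⟨s, hs⟩ := mem_rootSub.1 h2
    rw [Subgroup.mem_bot]
    apply mat_inj
    rw [mat_one]
    exact entry_eq hr hs fun h => hkj (Prod.ext_iff.1 h).2
  · rw [eq_bot_iff]
    rintro x ⟨h1, h2⟩
    obtain ⟨b, hb, c, hc, rfl⟩ := (mem_sup_comm hcom x).1 h2
    obtain ⟨r, hr⟩ := mem_rootSub.1 h1
    obtain ⟨s, hs⟩ := mem_rootSub.1 hb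
    obtain ⟨t, ht⟩ := mem_rootSub.1 hc
    rw [Subgroup.mem_bot]
    apply mat_inj
    rw [mat_one]
    have h3 : mat (b * c) = 1 + s • E i k + t • E i j := by
      rw [mat_mul, hs, ht]
      simp only [mul_add, add_mul, mul_one, one_mul, smul_mul_smul_comm, E_mul_E,
        if_neg hik.symm, smul_zero, add_zero]
    have h4 : r = 0 := by
      rw [h3, add_assoc] at hr
      have h5' : s • E i k + t • E i j = (r • E k j : Matrix I I R) := add_left_cancel hr
      have h5 := congrFun (congrFun h5' k) j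
      rw [Matrix.add_apply, smul_E_apply, smul_E_apply, smul_E_apply, if_neg (fun h => hik h.1),
        if_neg (fun h => hik h.1), if_pos ⟨rfl, rfl⟩, add_zero] at h5
      exact h5.symm
    rw [hr, h4, zero_smul, add_zero]
  · intro c hc
    have h1 : a * c * a⁻¹ = c := by
      obtain ⟨s, hs⟩ := mem_rootSub.1 hc
      rw [mul_inv_eq_iff_eq_mul]
      apply mat_inj
      rw [mat_mul, mat_mul, ha, hs]
      simp only [mul_add, add_mul, mul_one, one_mul, smul_mul_smul_comm, E_mul_E,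
        if_neg hkj.symm, if_neg hij.symm, smul_zero, add_zero]
      abel
    rw [h1]
    exact Subgroup.mem_sup_right hc
  · intro b hb
    obtain ⟨r, hr⟩ := mem_rootSub.1 hb
    exact mem_rootSub.2 ⟨_, hab b hb r hr⟩
  · intro b hb h
    obtain ⟨r, hr⟩ := mem_rootSub.1 hb
    have h1 := hab b hb r hr
    rw [h, mul_inv_cancel_right, mul_inv_cancel, mat_one] at h1
    have h2 : (-(r * N)) • (E i j : Matrix I I R) = 0 := by
      have := h1.symm
      rwa [add_eq_left] at this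
    have h3 := smul_E_inj h2
    rw [neg_eq_zero, mul_eq_zero] at h3
    have h4 := h3.resolve_right hN0
    apply mat_inj
    rw [hr, h4, zero_smul, add_zero, mat_one]

/-- **The root subgroups.** -/
theorem gl_of_roots [IsDomain R] [CharZero R] (hI : 3 ≤ Fintype.card I) (hΓ : Rich Γ)
    (hS : NoScalar Γ) {Λ : Type} [Group Λ] {U : L2 Γ ≃ₗᵢ[ℂ] L2 Λ} (hU : IsStdIso U)
    (h : ∀ (k l : I) (hkl : k ≠ l), Pres U (rootSub Γ k l hkl)) (g : Γ) :
    ∃ c k, Glk U g c k := by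
  refine gl_of_all (hU := hU) hI hΓ hS (fun k l hkl => ?_) g
  obtain ⟨j, hjk, hjl⟩ := exists_third hI k l
  obtain ⟨N, hN, b, hb⟩ := hΓ k l hkl 1
  rw [transvection_eq, mul_one] at hb
  have hN0 : (N : R) ≠ 0 := by
    rw [Nat.cast_ne_zero]
    omega
  exact ⟨b, gl_of_commTriple hU (h l j hjl.symm) (h k l hkl) (h k j hjk.symm)
    (commTriple_root hΓ hkl hjl.symm hjk.symm) (mem_rootSub.2 ⟨_, hb⟩), N, hN0, hb⟩

/-- icc -/
theorem isIcc_of_rich [IsDomain R] [CharZero R] (hI : 3 ≤ Fintype.card I) (hΓ : Rich Γ)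
    (hS : NoScalar Γ) : IsIcc Γ := by
  have h1 : HasElems (MonoidHom.id Γ) := Or.inr ⟨hS, fun k l hkl => by
    obtain ⟨N, hN, b, hb⟩ := hΓ k l hkl 1
    rw [mul_one] at hb
    exact Relation.TransGen.single ⟨hkl, b, N, by rw [Nat.cast_ne_zero]; omega, hb⟩⟩
  exact (show RelIcc (MonoidHom.id Γ) from relIcc_of_elems hI h1).isIcc

/-- the stabiliser of the coordinate vector `e_j` -/
def vecSub (Γ : Subgroup (SpecialLinearGroup I R)) (j : I) : Subgroup Γ where
  carrier := vecStab Γ j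
  one_mem' := by
    show mat (1 : Γ) *ᵥ Pi.single j 1 = Pi.single j 1
    rw [mat_one, one_mulVec]
  mul_mem' := by
    intro a b (ha : mat a *ᵥ Pi.single j 1 = Pi.single j 1)
      (hb : mat b *ᵥ Pi.single j 1 = Pi.single j 1)
    show mat (a * b) *ᵥ Pi.single j 1 = Pi.single j 1
    rw [mat_mul, ← mulVec_mulVec, hb, ha]
  inv_mem' := by
    intro a (ha : mat a *ᵥ Pi.single j 1 = Pi.single j 1)
    show mat a⁻¹ *ᵥ Pi.single j 1 = Pi.single j 1
    conv_lhs => rw [← ha]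
    rw [mulVec_mulVec, mat_inv_mul, one_mulVec]

/-- the stabiliser of the coordinate function `e_i^*` -/
def covSub (Γ : Subgroup (SpecialLinearGroup I R)) (i : I) : Subgroup Γ where
  carrier := covStab Γ i
  one_mem' := by
    show Pi.single i 1 ᵥ* mat (1 : Γ) = Pi.single i 1
    rw [mat_one, vecMul_one]
  mul_mem' := by
    intro a b (ha : Pi.single i 1 ᵥ* mat a = Pi.single i 1)
      (hb : Pi.single i 1 ᵥ* mat b = Pi.single i 1)
    show Pi.single i 1 ᵥ* mat (a * b) = Pi.single i 1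
    rw [mat_mul, ← vecMul_vecMul, ha, hb]
  inv_mem' := by
    intro a (ha : Pi.single i 1 ᵥ* mat a = Pi.single i 1)
    show Pi.single i 1 ᵥ* mat a⁻¹ = Pi.single i 1
    conv_lhs => rw [← ha]
    rw [vecMul_vecMul, mat_mul_inv, vecMul_one]

/-- the stabiliser of the coordinate line `R e_j` -/
def lineSub (Γ : Subgroup (SpecialLinearGroup I R)) (j : I) : Subgroup Γ where
  carrier := lineStab Γ j
  one_mem' := ⟨1, 1, by rw [mat_one, one_mulVec, one_smul],
    by rw [inv_one, mat_one, one_mulVec, one_smul]⟩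
  mul_mem' := by
    rintro g h ⟨a, b, h1, h2⟩ ⟨a', b', h1', h2'⟩
    refine ⟨a' * a, b * b', ?_, ?_⟩
    · rw [mat_mul, ← mulVec_mulVec, h1', mulVec_smul, h1, smul_smul]
    · rw [_root_.mul_inv_rev, mat_mul, ← mulVec_mulVec, h2, mulVec_smul, h2', smul_smul]
  inv_mem' := by
    rintro g ⟨a, b, h1, h2⟩
    exact ⟨b, a, h2, by rwa [inv_inv]⟩

/-- the stabiliser of the line `R e_i^*` -/
def colineSub (Γ : Subgroup (SpecialLinearGroup I R)) (i : I) : Subgroup Γ where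
  carrier := colineStab Γ i
  one_mem' := ⟨1, 1, by rw [mat_one, vecMul_one, one_smul],
    by rw [inv_one, mat_one, vecMul_one, one_smul]⟩
  mul_mem' := by
    rintro g h ⟨a, b, h1, h2⟩ ⟨a', b', h1', h2'⟩
    refine ⟨a * a', b' * b, ?_, ?_⟩
    · rw [mat_mul, ← vecMul_vecMul, h1, smul_vecMul, h1', smul_smul]
    · rw [_root_.mul_inv_rev, mat_mul, ← vecMul_vecMul, h2', smul_vecMul, h2, smul_smul]
  inv_mem' := by
    rintro g ⟨a, b, h1, h2⟩
    exact ⟨b, a, h2, by rwa [inv_inv]⟩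

theorem mv_apply (M : Matrix I I R) (j i : I) : (M *ᵥ Pi.single j 1) i = M i j := by
  rw [Matrix.mulVec_single_one]
  rfl

theorem vm_apply (M : Matrix I I R) (i j : I) : (Pi.single i 1 ᵥ* M) j = M i j := by
  rw [Matrix.single_one_vecMul]
  rfl

theorem root_of_entries {k l : I} (hkl : k ≠ l) {g : Γ}
    (h1 : ∀ i j, i ≠ j → (i, j) ≠ (k, l) → mat g i j = 0) (h2 : ∀ i, mat g i i = 1) :
    g ∈ rootSub Γ k l hkl := by
  refine mem_rootSub.2 ⟨mat g k l, ?_⟩
  ext i j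
  rw [Matrix.add_apply, smul_E_apply, Matrix.one_apply]
  by_cases hij : i = j
  · subst hij
    rw [if_pos rfl, h2, if_neg, add_zero]
    rintro ⟨h3, h4⟩
    exact hkl (h3.trans h4.symm)
  · rw [if_neg hij, zero_add]
    by_cases h3 : k = i ∧ l = j
    · rw [if_pos h3, h3.1, h3.2]
    · rw [if_neg h3, h1 i j hij]
      intro h4
      exact h3 ⟨(Prod.ext_iff.1 h4).1.symm, (Prod.ext_iff.1 h4).2.symm⟩

theorem root_eq_vec {k l : I} (hkl : k ≠ l) :
    rootSub Γ k l hkl = sInf ({H | ∃ j, j ≠ l ∧ H = vecSub Γ j} ∪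
      {H | ∃ i, i ≠ k ∧ H = covSub Γ i}) := by
  ext g
  rw [Subgroup.mem_sInf]
  constructor
  · intro hg
    obtain ⟨r, hr⟩ := mem_rootSub.1 hg
    rintro H (⟨j, hj, rfl⟩ | ⟨i, hi, rfl⟩)
    · show mat g *ᵥ Pi.single j 1 = Pi.single j 1
      ext i
      rw [mv_apply, hr, Matrix.add_apply, smul_E_apply, if_neg fun h => hj h.2.symm,
        add_zero, Matrix.one_apply, Pi.single_apply]
    · show Pi.single i 1 ᵥ* mat g = Pi.single i 1
      ext j
      rw [vm_apply, hr, Matrix.add_apply, smul_E_apply, if_neg fun h => hi h.1.symm,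
        add_zero, Matrix.one_apply, Pi.single_apply]
      simp only [eq_comm]
  · intro h
    have h1 : ∀ i j, j ≠ l → mat g i j = if i = j then 1 else 0 := by
      intro i j hj
      have h2 : mat g *ᵥ Pi.single j 1 = Pi.single j 1 := h _ (Or.inl ⟨j, hj, rfl⟩)
      rw [← mv_apply (mat g) j i, h2, Pi.single_apply]
    have h2 : ∀ i j, i ≠ k → mat g i j = if i = j then 1 else 0 := by
      intro i j hi
      have h2 : Pi.single i 1 ᵥ* mat g = Pi.single i 1 := h _ (Or.inr ⟨i, hi, rfl⟩)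
      rw [← vm_apply (mat g) i j, h2, Pi.single_apply]
      simp only [eq_comm]
    refine root_of_entries hkl (fun i j hij hne => ?_) fun i => ?_
    · by_cases hj : j = l
      · have hi : i ≠ k := fun hi => hne (by rw [hi, hj])
        rw [h2 i j hi, if_neg hij]
      · rw [h1 i j hj, if_neg hij]
    · by_cases hi : i = k
      · rw [h1 i i (by rw [hi]; exact hkl), if_pos rfl]
      · rw [h2 i i hi, if_pos rfl]

theorem root_eq_line (hD : NearlyDiagonalUnipotent Γ) {k l : I} (hkl : k ≠ l) :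
    rootSub Γ k l hkl = sInf ({H | ∃ j, j ≠ l ∧ H = lineSub Γ j} ∪
      {H | ∃ i, i ≠ k ∧ H = colineSub Γ i}) := by
  ext g
  rw [Subgroup.mem_sInf]
  constructor
  · intro hg
    have h1 : g ∈ sInf ({H | ∃ j, j ≠ l ∧ H = vecSub Γ j} ∪
      {H | ∃ i, i ≠ k ∧ H = covSub Γ i}) := by rwa [← root_eq_vec hkl]
    rw [Subgroup.mem_sInf] at h1
    rintro H (⟨j, hj, rfl⟩ | ⟨i, hi, rfl⟩)
    · have h2 := h1 (vecSub Γ j) (Or.inl ⟨j, hj, rfl⟩)
      have h3 : mat g *ᵥ Pi.single j 1 = Pi.single j 1 := h2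
      have h4 : mat g⁻¹ *ᵥ Pi.single j 1 = Pi.single j 1 := (vecSub Γ j).inv_mem h2
      exact ⟨1, 1, by rw [h3, one_smul], by rw [h4, one_smul]⟩
    · have h2 := h1 (covSub Γ i) (Or.inr ⟨i, hi, rfl⟩)
      have h3 : Pi.single i 1 ᵥ* mat g = Pi.single i 1 := h2
      have h4 : Pi.single i 1 ᵥ* mat g⁻¹ = Pi.single i 1 := (covSub Γ i).inv_mem h2
      exact ⟨1, 1, by rw [h3, one_smul], by rw [h4, one_smul]⟩
  · intro h
    have h0 : ∀ i j, i ≠ j → (i, j) ≠ (k, l) → mat g i j = 0 := by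
      intro i j hij hne
      by_cases hj : j = l
      · have hi : i ≠ k := fun hi => hne (by rw [hi, hj])
        obtain ⟨a, b, h1, -⟩ : g ∈ colineSub Γ i := h _ (Or.inr ⟨i, hi, rfl⟩)
        rw [← vm_apply (mat g) i j, h1, Pi.smul_apply, Pi.single_apply, if_neg hij.symm, smul_zero]
      · obtain ⟨a, b, h1, -⟩ : g ∈ lineSub Γ j := h _ (Or.inl ⟨j, hj, rfl⟩)
        rw [← mv_apply (mat g) j i, h1, Pi.smul_apply, Pi.single_apply, if_neg hij, smul_zero]
    exact root_of_entries hkl h0 (hD g k l h0)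

end Mat

end Pool.Agent.J4.H1.VN
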