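import Pool.Agent.J4.H1.VN.Nrm
import Pool.Agent.J4.H1.VN.Root

/-!
# Families of preserved subgroups with trivial intersection
-/

set_option autoImplicit false
set_option linter.unusedSectionVars false

namespace Pool.Agent.J4.H1.VN

open Pool.Agent.K4H1.VN Pool.Agent.Y276.Rig Matrix

section Abs

variable {Γ Λ : Type} [Group Γ] [Group Λ]

theorem mapsAlg_std {θ : VNIso Γ Λ} {U₀ : L2 Γ ≃ₗᵢ[ℂ] L2 Λ} (hU₀ : IsStdIso U₀)
    (h : ∀ T : L2 Γ →L[ℂ] L2 Γ, InVN T → ∀ f, U₀ (T (U₀.symm f)) = θ.map T f)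
    {H : Subgroup Γ} {K : Subgroup Λ} (hH : MapsAlg θ (H : Set Γ) K) :
    Compat U₀ (H : Set Γ) K := by
  have h1 : MapsSub U₀ (H : Set Γ) K := by
    intro T hT
    rw [h T hT]
    exact hH T hT
  exact h1.compat hU₀

/-- the conjugate subgroup -/
def conjSub (g : Γ) (H : Subgroup Γ) : Subgroup Γ where
  carrier := conjSet g H
  one_mem' := by
    show g⁻¹ * 1 * g ∈ H
    rw [mul_one, inv_mul_cancel]
    exact H.one_mem
  mul_mem' := by
    intro a b (ha : g⁻¹ * a * g ∈ H) (hb : g⁻¹ * b * g ∈ H)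
    show g⁻¹ * (a * b) * g ∈ H
    have h1 : g⁻¹ * (a * b) * g = g⁻¹ * a * g * (g⁻¹ * b * g) := by group
    rw [h1]
    exact H.mul_mem ha hb
  inv_mem' := by
    intro a (ha : g⁻¹ * a * g ∈ H)
    show g⁻¹ * a⁻¹ * g ∈ H
    have h1 : g⁻¹ * a⁻¹ * g = (g⁻¹ * a * g)⁻¹ := by group
    rw [h1]
    exact H.inv_mem ha

theorem mem_conjSub {g x : Γ} {H : Subgroup Γ} : x ∈ conjSub g H ↔ g⁻¹ * x * g ∈ H := Iff.rfl

theorem RelativelyIcc.conj {H : Subgroup Γ} (h : RelativelyIcc (H : Set Γ)) (g : Γ) :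
    RelativelyIcc (conjSub g H : Set Γ) := by
  intro x hx hfin
  have hx' : g⁻¹ * x * g ≠ 1 := by
    intro h1
    apply hx
    have h2 : x = g * (g⁻¹ * x * g) * g⁻¹ := by group
    rw [h2, h1]
    group
  refine h _ hx' ((hfin.image fun y => g⁻¹ * y * g).subset ?_)
  rintro y ⟨k, hk, rfl⟩
  refine ⟨g * k * g⁻¹ * x * (g * k * g⁻¹)⁻¹, ⟨g * k * g⁻¹, ?_, rfl⟩, ?_⟩
  · show g⁻¹ * (g * k * g⁻¹) * g ∈ H
    have h1 : g⁻¹ * (g * k * g⁻¹) * g = k := by group
    rwa [h1]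
  · show g⁻¹ * (g * k * g⁻¹ * x * (g * k * g⁻¹)⁻¹) * g = k * (g⁻¹ * x * g) * k⁻¹
    group

/-- subgroups of finite index -/
theorem relicc_of_finiteIndex (hicc : IsIcc Γ) {H : Subgroup Γ} (hH : H.FiniteIndex) :
    RelativelyIcc (H : Set Γ) := by
  intro x hx hfin
  refine hicc x hx ?_
  have h1 : Finite (Γ ⧸ H) := by
    have := hH
    exact Subgroup.finite_quotient_of_finiteIndex
  refine (Set.finite_iUnion (f := fun c : Γ ⧸ H => (fun y => c.out * y * (c.out)⁻¹) ''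
    {y : Γ | ∃ h ∈ (H : Set Γ), y = h * x * h⁻¹}) fun c => hfin.image _).subset ?_
  rintro y ⟨g, rfl⟩
  rw [Set.mem_iUnion]
  have h2 : ((QuotientGroup.mk g : Γ ⧸ H).out)⁻¹ * g ∈ H := by
    rw [← QuotientGroup.eq, QuotientGroup.out_eq']
  refine ⟨(g : Γ ⧸ H), ((g : Γ ⧸ H).out)⁻¹ * g * x * (((g : Γ ⧸ H).out)⁻¹ * g)⁻¹,
    ⟨_, h2, rfl⟩, ?_⟩
  show (g : Γ ⧸ H).out * (((g : Γ ⧸ H).out)⁻¹ * g * x * (((g : Γ ⧸ H).out)⁻¹ * g)⁻¹) *
    ((g : Γ ⧸ H).out)⁻¹ = g * x * g⁻¹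
  group

/-- **One coset**, for isomorphisms. -/
theorem one_coset_iso {θ : VNIso Γ Λ} {H H' : Subgroup Γ} {K K' : Subgroup Λ}
    (hH : MapsAlg θ (H : Set Γ) K) (hH' : MapsAlg θ (H' : Set Γ) K')
    (hicc : RelativelyIcc (H : Set Γ)) {g : Γ} (hg : ∀ n ∈ H, g * n * g⁻¹ ∈ H') :
    ∃ b : Λ, (∀ t ∈ K, b * t * b⁻¹ ∈ K') ∧ SuppOn (θ.map (lam g)) {y | y * b⁻¹ ∈ K'} := by
  obtain ⟨U₀, hU₀, h₀⟩ := exists_std_iso hicc.isIcc θ
  obtain ⟨b, hb, hb'⟩ := one_coset hU₀ (mapsAlg_std hU₀ h₀ hH) (mapsAlg_std hU₀ h₀ hH') hicc hg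
  refine ⟨b, hb, fun y hy => ?_⟩
  have h1 : U₀ (lam g (U₀.symm (delta 1))) = θ.map (lam g) (delta 1) :=
    h₀ (tl (lam g)) (inVN_lam g) (delta 1)
  rw [← h1, hU₀.symm_one, lam_delta, mul_one]
  by_contra hne
  exact hy (hb' y hne)

/-- **The pointwise form.** -/
theorem groupLike_of_family {θ : VNIso Γ Λ} {g : Γ} {F : Set (Subgroup Γ)}
    (hF : ∀ H' ∈ F, Preserved θ (H' : Set Γ) ∧ ∃ H : Subgroup Γ, Preserved θ (H : Set Γ) ∧
      RelativelyIcc (H : Set Γ) ∧ ∀ h ∈ H, g * h * g⁻¹ ∈ H')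
    (h1 : ∀ x : Γ, (∀ H' ∈ F, x ∈ H') → x = 1) : GroupLike θ g := by
  have hicc : IsIcc Γ := by
    intro x hx
    by_contra hcon
    apply hx
    refine h1 x fun H' hH' => ?_
    obtain ⟨-, H, -, h2, -⟩ := hF H' hH'
    exact absurd (h2.isIcc x hx) hcon
  obtain ⟨U₀, hU₀, h₀⟩ := exists_std_iso hicc θ
  refine groupLike_of hU₀ h₀ (gl_of_family hU₀ (fun H' hH' => ?_) h1)
  obtain ⟨h2, H, h3, h4, h5⟩ := hF H' hH'
  exact ⟨preserved_std hU₀ h₀ h2, H, preserved_std hU₀ h₀ h3, h4, h5⟩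

/-- **Neighbourhood bases.** -/
theorem iso_of_basis {θ : VNIso Γ Λ} {F : Set (Subgroup Γ)}
    (hF : ∀ H ∈ F, Preserved θ (H : Set Γ) ∧ RelativelyIcc (H : Set Γ))
    (h1 : ∀ x : Γ, (∀ H ∈ F, x ∈ H) → x = 1)
    (hb : ∀ g : Γ, ∀ H' ∈ F, ∃ H ∈ F, ∀ h ∈ H, g * h * g⁻¹ ∈ H') : IsGroupIso θ := by
  have hicc : IsIcc Γ := by
    intro x hx
    by_contra hcon
    apply hx
    exact h1 x fun H hH => absurd ((hF H hH).2.isIcc x hx) hcon
  obtain ⟨U₀, hU₀, h₀⟩ := exists_std_iso hicc θ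
  refine isGroupIso_of hU₀ h₀ fun g => gl_of_family hU₀ (F := F) (fun H' hH' => ?_) h1
  obtain ⟨H, hH, h5⟩ := hb g H' hH'
  exact ⟨preserved_std hU₀ h₀ (hF H' hH').1, H, preserved_std hU₀ h₀ (hF H hH).1, (hF H hH).2, h5⟩

/-- **Finite index.** -/
theorem iso_of_finiteIndex (hicc : IsIcc Γ) {θ : VNIso Γ Λ} {F : Set (Subgroup Γ)}
    (hF : ∀ H ∈ F, Preserved θ (H : Set Γ) ∧ H.FiniteIndex)
    (h1 : ∀ x : Γ, (∀ H ∈ F, x ∈ H) → x = 1)
    (hb : ∀ g : Γ, ∀ H' ∈ F, ∃ H ∈ F, ∀ h ∈ H, g * h * g⁻¹ ∈ H') : IsGroupIso θ :=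
  iso_of_basis (fun H hH => ⟨(hF H hH).1, relicc_of_finiteIndex hicc (hF H hH).2⟩) h1 hb

/-- **One conjugacy class.** -/
theorem iso_of_conj {θ : VNIso Γ Λ} {H : Subgroup Γ} (hH : RelativelyIcc (H : Set Γ))
    (hF : ∀ g, Preserved θ (conjSet g (H : Set Γ)))
    (h1 : ∀ x : Γ, (∀ g, x ∈ conjSet g (H : Set Γ)) → x = 1) : IsGroupIso θ := by
  refine iso_of_basis (F := Set.range fun g => conjSub g H) ?_ ?_ ?_
  · rintro _ ⟨g, rfl⟩
    exact ⟨hF g, hH.conj g⟩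
  · exact fun x hx => h1 x fun g => hx _ ⟨g, rfl⟩
  · rintro g _ ⟨g', rfl⟩
    refine ⟨_, ⟨g⁻¹ * g', rfl⟩, fun h hh => ?_⟩
    show g'⁻¹ * (g * h * g⁻¹) * g' ∈ H
    have h2 : (g⁻¹ * g')⁻¹ * h * (g⁻¹ * g') ∈ H := hh
    have h3 : (g⁻¹ * g')⁻¹ * h * (g⁻¹ * g') = g'⁻¹ * (g * h * g⁻¹) * g' := by group
    rwa [h3] at h2

end Abs

section Mat

variable {R : Type} [CommRing R] {I : Type} [Fintype I] [DecidableEq I]
  {Γ : Subgroup (SpecialLinearGroup I R)}

/-- the congruence subgroup -/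
def congSub (Γ : Subgroup (SpecialLinearGroup I R)) (𝔞 : Ideal R) : Subgroup Γ where
  carrier := congSet Γ 𝔞
  one_mem' := by
    intro i j
    rw [mat_one, sub_self]
    exact 𝔞.zero_mem
  mul_mem' := by
    intro a b ha hb i j
    have h1 : mat (a * b) - 1 = (mat a - 1) * mat b + (mat b - 1) := by
      rw [mat_mul, sub_mul, one_mul]
      abel
    have h2 := congrFun (congrFun h1 i) j
    rw [Matrix.sub_apply, Matrix.add_apply, Matrix.mul_apply] at h2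
    rw [h2]
    refine 𝔞.add_mem (𝔞.sum_mem fun k _ => ?_) (hb i j)
    exact 𝔞.mul_mem_right _ (ha i k)
  inv_mem' := by
    intro a ha i j
    have h1 : mat a⁻¹ - 1 = -((mat a - 1) * mat a⁻¹) := by
      rw [sub_mul, mat_mul_inv, one_mul]
      abel
    have h2 := congrFun (congrFun h1 i) j
    rw [Matrix.sub_apply, Matrix.neg_apply, Matrix.mul_apply] at h2
    rw [h2]
    exact 𝔞.neg_mem (𝔞.sum_mem fun k _ => 𝔞.mul_mem_right _ (ha i k))

theorem congSub_conj {𝔞 : Ideal R} (g : Γ) {h : Γ} (hh : h ∈ congSub Γ 𝔞) :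
    g * h * g⁻¹ ∈ congSub Γ 𝔞 := by
  intro i j
  have h1 : mat (g * h * g⁻¹) - 1 = mat g * (mat h - 1) * mat g⁻¹ := by
    rw [mat_mul, mat_mul, mul_sub, sub_mul, mul_one, mat_mul_inv]
  have h2 := congrFun (congrFun h1 i) j
  rw [Matrix.sub_apply, Matrix.mul_apply] at h2
  rw [h2]
  refine 𝔞.sum_mem fun k _ => 𝔞.mul_mem_right _ ?_
  rw [Matrix.mul_apply]
  exact 𝔞.sum_mem fun l _ => 𝔞.mul_mem_left _ (hh l k)

theorem center_cols (hI : 3 ≤ Fintype.card I) (hS : NoScalar Γ) (o : I) {x : Γ}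
    (h : ∀ k l, k ≠ l → l ≠ o → Commute (E k l) (mat x)) : x = 1 := by
  obtain ⟨l₀, hl₀, -⟩ := exists_third hI o o
  have hdiag : ∀ k, mat x k k = mat x l₀ l₀ := by
    intro k
    by_cases hk : k = l₀
    · rw [hk]
    · exact diag_eq_of_commute_single (h k l₀ hk hl₀)
  refine hS x (mat x l₀ l₀) ?_
  ext a b
  rw [Matrix.smul_apply, Matrix.one_apply, smul_eq_mul]
  by_cases hab : a = b
  · subst hab
    rw [if_pos rfl, mul_one, hdiag a]
  · rw [if_neg hab, mul_zero]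
    obtain ⟨l, hlb, hlo⟩ := exists_third hI b o
    exact col_eq_zero_of_commute_single (h b l hlb.symm hlo) hab

theorem relicc_of_E [IsDomain R] [CharZero R] {H : Subgroup Γ} {P : I → I → Prop}
    (hH : ∀ k l, k ≠ l → P k l → ∃ b ∈ H, ∃ m : R, m ≠ 0 ∧ mat b = 1 + m • E k l)
    (hc : ∀ x : Γ, (∀ k l, k ≠ l → P k l → Commute (E k l) (mat x)) → x = 1) :
    RelativelyIcc (H : Set Γ) := by
  intro x hx hfin
  have hfin' : {y | ∃ k : H, y = H.subtype k * x * (H.subtype k)⁻¹}.Finite := by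
    refine hfin.subset ?_
    rintro y ⟨k, rfl⟩
    exact ⟨k, k.2, rfl⟩
  have hv := commute_of_finite hfin'
  apply hx
  refine hc x fun k l hkl hP => ?_
  obtain ⟨b, hbH, m, hm, hb⟩ := hH k l hkl hP
  exact vc_commute hv (b := b) ⟨⟨b, hbH⟩, rfl⟩ hm (E_sq hkl) hb

theorem relicc_cong [IsDomain R] [CharZero R] (hI : 3 ≤ Fintype.card I) (hΓ : Rich Γ)
    (hS : NoScalar Γ) {𝔞 : Ideal R} (h𝔞 : 𝔞 ≠ ⊥) : RelativelyIcc (congSub Γ 𝔞 : Set Γ) := by
  obtain ⟨a, ha, ha0⟩ := Submodule.exists_mem_ne_zero_of_ne_bot h𝔞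
  obtain ⟨o⟩ : Nonempty I := Fintype.card_pos_iff.1 (by omega)
  refine relicc_of_E (P := fun _ _ => True) (fun k l hkl _ => ?_)
    (fun x hx => center_rows hI hS o fun k l hkl _ => hx k l hkl trivial)
  obtain ⟨N, hN, b, hb⟩ := hΓ k l hkl a
  rw [transvection_eq] at hb
  have hN0 : (N : R) ≠ 0 := by
    rw [Nat.cast_ne_zero]
    omega
  refine ⟨b, fun i j => ?_, N * a, mul_ne_zero hN0 ha0, hb⟩
  rw [hb, Matrix.add_apply, add_sub_cancel_left, smul_E_apply]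
  split_ifs
  · exact 𝔞.mul_mem_left _ ha
  · exact 𝔞.zero_mem

/-- **Congruence subgroups.** -/
theorem iso_of_cong [IsDomain R] [CharZero R] (hI : 3 ≤ Fintype.card I) (hΓ : Rich Γ)
    (hS : NoScalar Γ) {Λ : Type} [Group Λ] {θ : VNIso Γ Λ} {A : Set (Ideal R)}
    (hA : ∀ 𝔞 ∈ A, 𝔞 ≠ ⊥ ∧ Preserved θ (congSet Γ 𝔞)) (h0 : sInf A = ⊥) : IsGroupIso θ := by
  refine iso_of_basis (F := congSub Γ '' A) ?_ ?_ ?_
  · rintro _ ⟨𝔞, h, rfl⟩
    exact ⟨(hA 𝔞 h).2, relicc_cong hI hΓ hS (hA 𝔞 h).1⟩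
  · intro x hx
    apply mat_inj
    rw [mat_one]
    ext i j
    rw [← sub_eq_zero, ← Ideal.mem_bot, ← h0, Submodule.mem_sInf]
    intro 𝔞 h
    exact hx _ ⟨𝔞, h, rfl⟩ i j
  · rintro g _ ⟨𝔞, h, rfl⟩
    exact ⟨_, ⟨𝔞, h, rfl⟩, fun n hn => congSub_conj g hn⟩

theorem relicc_vec [IsDomain R] [CharZero R] (hI : 3 ≤ Fintype.card I) (hΓ : Rich Γ)
    (hS : NoScalar Γ) (j : I) : RelativelyIcc (vecSub Γ j : Set Γ) := by
  refine relicc_of_E (P := fun _ l => l ≠ j) (fun k l hkl hl => ?_)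
    (fun x hx => center_cols hI hS j fun k l hkl hl => hx k l hkl hl)
  obtain ⟨N, hN, b, hb⟩ := hΓ k l hkl 1
  rw [transvection_eq, mul_one] at hb
  have hN0 : (N : R) ≠ 0 := by
    rw [Nat.cast_ne_zero]
    omega
  refine ⟨b, ?_, N, hN0, hb⟩
  show mat b *ᵥ Pi.single j 1 = Pi.single j 1
  ext i
  rw [mv_apply, hb, Matrix.add_apply, smul_E_apply, if_neg fun h => hl h.2, add_zero,
    Matrix.one_apply, Pi.single_apply]

theorem relicc_cov [IsDomain R] [CharZero R] (hI : 3 ≤ Fintype.card I) (hΓ : Rich Γ)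
    (hS : NoScalar Γ) (j : I) : RelativelyIcc (covSub Γ j : Set Γ) := by
  refine relicc_of_E (P := fun k _ => k ≠ j) (fun k l hkl hl => ?_)
    (fun x hx => center_rows hI hS j fun k l hkl hl => hx k l hkl hl)
  obtain ⟨N, hN, b, hb⟩ := hΓ k l hkl 1
  rw [transvection_eq, mul_one] at hb
  have hN0 : (N : R) ≠ 0 := by
    rw [Nat.cast_ne_zero]
    omega
  refine ⟨b, ?_, N, hN0, hb⟩
  show Pi.single j 1 ᵥ* mat b = Pi.single j 1
  ext i
  rw [vm_apply, hb, Matrix.add_apply, smul_E_apply, if_neg fun h => hl h.1, add_zero,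
    Matrix.one_apply, Pi.single_apply]
  simp only [eq_comm]

/-- a matrix which preserves the lines of `e_j`, `e_j + n_k e_k`, `e_j + n_k e_k + n_l e_l` is
scalar -/
theorem scalar_of_lines [IsDomain R] (hI : 3 ≤ Fintype.card I) {M : Matrix I I R} {j : I}
    {n : I → R} (hn : ∀ k, k ≠ j → n k ≠ 0)
    (h0 : ∃ a : R, M *ᵥ Pi.single j 1 = a • Pi.single j 1)
    (h1 : ∀ k, k ≠ j → ∃ a : R, M *ᵥ (Pi.single j 1 + n k • Pi.single k 1) =
      a • (Pi.single j 1 + n k • Pi.single k 1))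
    (h2 : ∀ k l, k ≠ j → l ≠ j → k ≠ l → ∃ a : R,
      M *ᵥ (Pi.single j 1 + n k • Pi.single k 1 + n l • Pi.single l 1) =
        a • (Pi.single j 1 + n k • Pi.single k 1 + n l • Pi.single l 1)) :
    ∃ a : R, M = a • (1 : Matrix I I R) := by
  obtain ⟨a, ha⟩ := h0
  choose! c hc using h1
  have e0 : ∀ i, M i j = a * (Pi.single j 1 : I → R) i := by
    intro i
    have := congrFun ha i
    rw [mv_apply, Pi.smul_apply, smul_eq_mul] at this
    exact this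
  have e1 : ∀ k, k ≠ j → ∀ i, M i j + n k * M i k =
      c k * ((Pi.single j 1 : I → R) i + n k * (Pi.single k 1 : I → R) i) := by
    intro k hk i
    have := congrFun (hc k hk) i
    rw [mulVec_add, mulVec_smul, Pi.add_apply, Pi.smul_apply, Pi.smul_apply, Pi.add_apply,
      Pi.smul_apply, mv_apply, mv_apply, smul_eq_mul, smul_eq_mul, smul_eq_mul] at this
    exact this
  have e2 : ∀ k l, k ≠ j → l ≠ j → k ≠ l → c k = a ∧ M j k = 0 := by
    intro k l hk hl hkl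
    obtain ⟨d, hd⟩ := h2 k l hk hl hkl
    have e3 : ∀ i, M i j + n k * M i k + n l * M i l =
        d * ((Pi.single j 1 : I → R) i + n k * (Pi.single k 1 : I → R) i +
          n l * (Pi.single l 1 : I → R) i) := by
      intro i
      have := congrFun hd i
      rw [mulVec_add, mulVec_add, mulVec_smul, mulVec_smul, Pi.add_apply, Pi.add_apply,
        Pi.smul_apply, Pi.smul_apply, Pi.smul_apply, Pi.add_apply, Pi.add_apply,
        Pi.smul_apply, Pi.smul_apply, mv_apply, mv_apply, mv_apply, smul_eq_mul, smul_eq_mul,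
        smul_eq_mul, smul_eq_mul, smul_eq_mul] at this
      exact this
    have hnk := hn k hk
    have hnl := hn l hl
    -- the entries in the rows `k`, `l`, `j`
    have a1 := e0 k
    have a2 := e0 l
    have a3 := e0 j
    have b1 := e1 k hk k
    have b2 := e1 k hk l
    have b3 := e1 k hk j
    have b4 := e1 l hl k
    have b5 := e1 l hl l
    have b6 := e1 l hl j
    have d1 := e3 k
    have d2 := e3 l
    have d3 := e3 j
    simp only [Pi.single_apply, if_neg hk, if_neg hl, if_neg hkl, if_neg hkl.symm,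
      if_neg hk.symm, if_neg hl.symm, if_true, mul_zero, mul_one, zero_add, add_zero] at *
    have f1 : c k = d := by
      have : n k * c k = n k * d := by linear_combination (-1) * b1 + d1 - b4 + a1
      exact mul_left_cancel₀ hnk this
    have f2 : c l = d := by
      have : n l * c l = n l * d := by linear_combination (-1) * b5 + d2 - b2 + a2
      exact mul_left_cancel₀ hnl this
    have f3 : d = a := by linear_combination d3 - b3 - b6 - f1 - f2 + a3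
    refine ⟨f1.trans f3, ?_⟩
    have f4 : n k * M j k = 0 := by linear_combination b3 - a3 + f1 + f3
    exact (mul_eq_zero.1 f4).resolve_left hnk
  refine ⟨a, ?_⟩
  ext i k
  rw [Matrix.smul_apply, smul_eq_mul, Matrix.one_apply]
  by_cases hk : k = j
  · rw [hk, e0 i, Pi.single_apply]
  · obtain ⟨l, hlj, hlk⟩ := exists_third hI j k
    obtain ⟨h3, h4⟩ := e2 k l hk hlj hlk.symm
    by_cases hij : i = j
    · rw [hij, h4, if_neg (Ne.symm hk), mul_zero]
    · have h5 := e1 k hk i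
      rw [e0 i, Pi.single_apply, if_neg hij, mul_zero, zero_add, zero_add, Pi.single_apply,
        h3, mul_left_comm] at h5
      exact mul_left_cancel₀ (hn k hk) h5

/-- the images of `e_j` -/
theorem col_images [IsDomain R] [CharZero R] (hΓ : Rich Γ) (j : I) : ∃ n : I → R,
    (∀ k, k ≠ j → n k ≠ 0) ∧
    (∀ k, k ≠ j → ∃ g : Γ, mat g *ᵥ Pi.single j 1 = Pi.single j 1 + n k • Pi.single k 1) ∧
    (∀ k l, k ≠ j → l ≠ j → k ≠ l → ∃ g : Γ, mat g *ᵥ Pi.single j 1 =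
      Pi.single j 1 + n k • Pi.single k 1 + n l • Pi.single l 1) := by
  have h1 : ∀ k, ∃ m : R, k ≠ j → m ≠ 0 ∧ ∃ g : Γ, mat g = 1 + m • E k j := by
    intro k
    by_cases hk : k = j
    · exact ⟨0, fun h => absurd hk h⟩
    · obtain ⟨N, hN, b, hb⟩ := hΓ k j hk 1
      rw [transvection_eq, mul_one] at hb
      exact ⟨N, fun _ => ⟨by rw [Nat.cast_ne_zero]; omega, b, hb⟩⟩
  choose n hn using h1
  have hE : ∀ k, (E k j : Matrix I I R) *ᵥ Pi.single j 1 = Pi.single k 1 := by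
    intro k
    ext i
    rw [mv_apply]
    have := smul_E_apply (1 : R) k j i j
    rw [one_smul] at this
    rw [this, Pi.single_apply]
    simp only [and_true, eq_comm]
  have hE' : ∀ k l, l ≠ j → (E k j : Matrix I I R) *ᵥ Pi.single l 1 = 0 := by
    intro k l hl
    ext i
    rw [mv_apply]
    have := smul_E_apply (1 : R) k j i l
    rw [one_smul] at this
    rw [this, if_neg fun h => hl h.2.symm]
    rfl
  refine ⟨n, fun k hk => (hn k hk).1, fun k hk => ?_, fun k l hk hl hkl => ?_⟩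
  · obtain ⟨-, g, hg⟩ := hn k hk
    exact ⟨g, by rw [hg, add_mulVec, one_mulVec, smul_mulVec, hE]⟩
  · obtain ⟨-, g, hg⟩ := hn k hk
    obtain ⟨-, g', hg'⟩ := hn l hl
    refine ⟨g * g', ?_⟩
    rw [mat_mul, ← mulVec_mulVec, hg', add_mulVec, one_mulVec, smul_mulVec, hE, mulVec_add,
      mulVec_smul, hg, add_mulVec, one_mulVec, smul_mulVec, hE, add_mulVec, one_mulVec,
      smul_mulVec, hE' k l hl, smul_zero, add_zero]

/-- the images of `e_j^*` -/
theorem row_images [IsDomain R] [CharZero R] (hΓ : Rich Γ) (j : I) : ∃ n : I → R,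
    (∀ k, k ≠ j → n k ≠ 0) ∧
    (∀ k, k ≠ j → ∃ g : Γ, Pi.single j 1 ᵥ* mat g = Pi.single j 1 + n k • Pi.single k 1) ∧
    (∀ k l, k ≠ j → l ≠ j → k ≠ l → ∃ g : Γ, Pi.single j 1 ᵥ* mat g =
      Pi.single j 1 + n k • Pi.single k 1 + n l • Pi.single l 1) := by
  have h1 : ∀ k, ∃ m : R, k ≠ j → m ≠ 0 ∧ ∃ g : Γ, mat g = 1 + m • E j k := by
    intro k
    by_cases hk : k = j
    · exact ⟨0, fun h => absurd hk h⟩
    · obtain ⟨N, hN, b, hb⟩ := hΓ j k (Ne.symm hk) 1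
      rw [transvection_eq, mul_one] at hb
      exact ⟨N, fun _ => ⟨by rw [Nat.cast_ne_zero]; omega, b, hb⟩⟩
  choose n hn using h1
  have hE : ∀ k, Pi.single j 1 ᵥ* (E j k : Matrix I I R) = Pi.single k 1 := by
    intro k
    ext i
    rw [vm_apply]
    have := smul_E_apply (1 : R) j k j i
    rw [one_smul] at this
    rw [this, Pi.single_apply]
    simp only [true_and, eq_comm]
  have hE' : ∀ k l, l ≠ j → Pi.single l 1 ᵥ* (E j k : Matrix I I R) = 0 := by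
    intro k l hl
    ext i
    rw [vm_apply]
    have := smul_E_apply (1 : R) j k l i
    rw [one_smul] at this
    rw [this, if_neg fun h => hl h.1.symm]
    rfl
  refine ⟨n, fun k hk => (hn k hk).1, fun k hk => ?_, fun k l hk hl hkl => ?_⟩
  · obtain ⟨-, g, hg⟩ := hn k hk
    exact ⟨g, by rw [hg, vecMul_add, vecMul_one, vecMul_smul, hE]⟩
  · obtain ⟨-, g, hg⟩ := hn k hk
    obtain ⟨-, g', hg'⟩ := hn l hl
    refine ⟨g' * g, ?_⟩
    rw [mat_mul, ← vecMul_vecMul, hg', vecMul_add, vecMul_one, vecMul_smul, hE, add_vecMul,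
      smul_vecMul, hg, vecMul_add, vecMul_one, vecMul_smul, hE, vecMul_add, vecMul_one,
      vecMul_smul, hE' k l hl, smul_zero, add_zero]

theorem core_line [IsDomain R] [CharZero R] (hI : 3 ≤ Fintype.card I) (hΓ : Rich Γ)
    (hS : NoScalar Γ) (j : I) (x : Γ) (hx : ∀ g, x ∈ conjSet g (lineStab Γ j)) : x = 1 := by
  have key : ∀ g : Γ, ∃ a : R, mat x *ᵥ (mat g *ᵥ Pi.single j 1) =
      a • (mat g *ᵥ Pi.single j 1) := by
    intro g
    obtain ⟨a, -, h, -⟩ := hx g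
    refine ⟨a, ?_⟩
    have h1 : x * g = g * (g⁻¹ * x * g) := by group
    rw [mulVec_mulVec, ← mat_mul, h1, mat_mul, ← mulVec_mulVec, h, mulVec_smul]
  obtain ⟨n, hn, hk, hkl⟩ := col_images hΓ j
  obtain ⟨a, ha⟩ := scalar_of_lines hI hn
    (by
      obtain ⟨a, ha⟩ := key 1
      rw [mat_one, one_mulVec] at ha
      exact ⟨a, ha⟩)
    (fun k h => by
      obtain ⟨g, hg⟩ := hk k h
      have := key g
      rwa [hg] at this)
    (fun k l h h' h'' => by
      obtain ⟨g, hg⟩ := hkl k l h h' h''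
      have := key g
      rwa [hg] at this)
  exact hS x a ha

theorem core_coline [IsDomain R] [CharZero R] (hI : 3 ≤ Fintype.card I) (hΓ : Rich Γ)
    (hS : NoScalar Γ) (j : I) (x : Γ) (hx : ∀ g, x ∈ conjSet g (colineStab Γ j)) : x = 1 := by
  have key : ∀ g : Γ, ∃ a : R, (mat x)ᵀ *ᵥ (Pi.single j 1 ᵥ* mat g) =
      a • (Pi.single j 1 ᵥ* mat g) := by
    intro g
    obtain ⟨a, -, h, -⟩ := hx g⁻¹
    refine ⟨a, ?_⟩
    rw [inv_inv] at h
    have h1 : g * x = g * x * g⁻¹ * g := by group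
    rw [mulVec_transpose, vecMul_vecMul, ← mat_mul, h1, mat_mul, ← vecMul_vecMul, h, smul_vecMul]
  obtain ⟨n, hn, hk, hkl⟩ := row_images hΓ j
  obtain ⟨a, ha⟩ := scalar_of_lines hI hn
    (by
      obtain ⟨a, ha⟩ := key 1
      rw [mat_one, vecMul_one] at ha
      exact ⟨a, ha⟩)
    (fun k h => by
      obtain ⟨g, hg⟩ := hk k h
      have := key g
      rwa [hg] at this)
    (fun k l h h' h'' => by
      obtain ⟨g, hg⟩ := hkl k l h h' h''
      have := key g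
      rwa [hg] at this)
  refine hS x a ?_
  rw [← transpose_transpose (mat x), ha, transpose_smul, transpose_one]

theorem vec_le_line (j : I) : vecStab Γ j ⊆ lineStab Γ j := by
  intro g hg
  have h1 : g⁻¹ ∈ vecSub Γ j := (vecSub Γ j).inv_mem hg
  exact ⟨1, 1, by rw [one_smul]; exact hg, by rw [one_smul]; exact h1⟩

theorem cov_le_coline (j : I) : covStab Γ j ⊆ colineStab Γ j := by
  intro g hg
  have h1 : g⁻¹ ∈ covSub Γ j := (covSub Γ j).inv_mem hg
  exact ⟨1, 1, by rw [one_smul]; exact hg, by rw [one_smul]; exact h1⟩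

/-- **One orbit of stabilisers.** -/
theorem iso_of_stab [IsDomain R] [CharZero R] (hI : 3 ≤ Fintype.card I) (hΓ : Rich Γ)
    (hS : NoScalar Γ) {Λ : Type} [Group Λ] {θ : VNIso Γ Λ} {j : I} {S : Set Γ}
    (hj : S = vecStab Γ j ∨ S = covStab Γ j ∨ S = lineStab Γ j ∨ S = colineStab Γ j)
    (h : ∀ g : Γ, Preserved θ (conjSet g S)) : IsGroupIso θ := by
  rcases hj with rfl | rfl | rfl | rfl
  · exact iso_of_conj (H := vecSub Γ j) (relicc_vec hI hΓ hS j) h fun x hx =>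
      core_line hI hΓ hS j x fun g => vec_le_line j (hx g)
  · exact iso_of_conj (H := covSub Γ j) (relicc_cov hI hΓ hS j) h fun x hx =>
      core_coline hI hΓ hS j x fun g => cov_le_coline j (hx g)
  · exact iso_of_conj (H := lineSub Γ j) ((relicc_vec hI hΓ hS j).mono (vec_le_line j)) h
      (core_line hI hΓ hS j)
  · exact iso_of_conj (H := colineSub Γ j) ((relicc_cov hI hΓ hS j).mono (cov_le_coline j)) h
      (core_coline hI hΓ hS j)

end Mat

end Pool.Agent.J4.H1.VN
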