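import Pool.Agent.J4.H1.VN.SDefs2
import Pool.Agent.K4H1.VN.Stm

/-!
# Uniform height: the definitions of the statement
-/

set_option autoImplicit false

namespace Pool.Agent.J4.H1.VN

open Pool.Agent.K4H1.VN

section Hom

variable {Δ Λ : Type} [Group Δ] [Group Λ]

/-- every element of `Δ` is the product of at most `m` elements of `S` -/
def IsBoundedlyGenerated (S : Set Δ) (m : ℕ) : Prop :=
  ∀ g : Δ, ∃ l : List Δ, l.length ≤ m ∧ (∀ x ∈ l, x ∈ S) ∧ l.prod = g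

/-- each of the unitaries `v g`, `g` in `S`, has a Fourier coefficient of absolute value more than
`1 - (1 - c) / m²` -/
def LargeOn (S : Set Δ) (m : ℕ) (c : ℝ) (v : Δ →* Uni Λ) : Prop :=
  ∀ g ∈ S, ∃ h : Λ, 1 - (1 - c) / (m : ℝ) ^ 2 < ‖v g (delta 1) h‖

/-- There are a homomorphism `π`, a character `χ` and a unit vector `η`, `|η(1)| ≥ c`, with
`v(g) η = χ(g) η u_{π(g)}` for all `g`. If the image of `π` is relatively icc, then `η` is a unitary `w` of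
`L(Λ)` and `w⁻¹ v(g) w = χ(g) u_{π(g)}` for all `g`. -/
def IsIntertwined (c : ℝ) (v : Δ →* Uni Λ) : Prop :=
  ∃ (π : Δ →* Λ) (χ : Δ →* Circle) (η : L2 Λ), ‖η‖ = 1 ∧ c ≤ ‖η 1‖ ∧ Intertwines v π χ η ∧
    (RelativelyIcc (Set.range π) → ∃ w : Uni Λ, w (delta 1) = η ∧ IsGroupLikeVia v π χ w)

end Hom

section Iso

variable {Γ Λ Δ : Type} [Group Γ] [Group Λ] [Group Δ]

/-- each of the unitaries `θ(u_{j(g)})`, `g` in `S`, has a Fourier coefficient of absolute value more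
than `1 - (1 - c) / m²` -/
def LargeOnImage (S : Set Δ) (m : ℕ) (c : ℝ) (θ : VNIso Γ Λ) (j : Δ →* Γ) : Prop :=
  ∀ g ∈ S, ∃ h : Λ, 1 - (1 - c) / (m : ℝ) ^ 2 < ‖θ.map (lam (j g)) (delta 1) h‖

/-- `w⁻¹ θ(u_{j(d)}) w = χ(d) u_{π(d)}` for all `d` in `Δ`, for a homomorphism `π : Δ → Λ`, a
character `χ` of `Δ` and a unitary `w` in `L(Λ)` -/
def IsGroupLikeOnImage (θ : VNIso Γ Λ) (j : Δ →* Γ) : Prop :=
  ∃ (π : Δ →* Λ) (χ : Δ →* Circle) (w : Uni Λ), InVN w ∧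
    ∀ d f, θ.map (lam (j d)) (w f) = (χ d : ℂ) • w (lam (π d) f)

/-- `w⁻¹ θ(u_g) w = χ(g) u_{π(g)}` for all `g` in `Γ`, for an isomorphism of groups `π : Γ → Λ`, a
character `χ` of `Γ` and a unitary `w` in `L(Λ)` -/
def IsGroupIsoUpToConj (θ : VNIso Γ Λ) : Prop :=
  ∃ (π : Γ ≃* Λ) (χ : Γ →* Circle) (w : Uni Λ), InVN w ∧
    ∀ g f, θ.map (lam g) (w f) = (χ g : ℂ) • w (lam (π g) f)

end Iso

end Pool.Agent.J4.H1.VN
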