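import Pool.Agent.J4.H1.VN.Ray
import Pool.Agent.J4.H1.VN.SDefs3
import Pool.Agent.K4H1.VN.RelAbs

/-!
# Homomorphisms into the unitary group of `L(Λ)` with large Fourier coefficients
-/

set_option autoImplicit false
set_option linter.unusedSectionVars false

namespace Pool.Agent.J4.H1.VN

open Pool.Agent.K4H1.VN Pool.Agent.Y276.Rig Filter Topology
open Pool.Agent.J4.H1.Ray
open scoped ComplexConjugate InnerProductSpace

variable {Δ Λ Γ : Type} [Group Δ] [Group Λ] [Group Γ]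

/-- the dominating coefficient is unique -/
theorem coeff_unique {f : L2 Λ} (hf : ‖f‖ = 1) {a b : Λ} {c s : ℝ} (hs0 : 0 ≤ s)
    (hc0 : 0 ≤ c) (hcs : 1 < c ^ 2 + s ^ 2) (ha : c ≤ ‖f a‖) (hb : s ≤ ‖f b‖) : a = b := by
  classical
  by_contra hab
  have h1 := gram_aux (norm_delta a) hf
  rw [inner_delta] at h1
  have h2 : ‖f b‖ ≤ ‖f - f a • (delta a : L2 Λ)‖ := by
    have h3 := norm_apply_le (f - f a • (delta a : L2 Λ)) b
    have h4 : (f - f a • (delta a : L2 Λ)) b = f b := by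
      rw [lp.coeFn_sub, Pi.sub_apply, lp.coeFn_smul, Pi.smul_apply, delta_apply,
        if_neg (Ne.symm hab), smul_zero, sub_zero]
    rwa [h4] at h3
  have h3 := pow_le_pow_left₀ (norm_nonneg _) h2 2
  have h4 := pow_le_pow_left₀ hc0 ha 2
  have h5 := pow_le_pow_left₀ hs0 hb 2
  rw [h1] at h3
  linarith

variable {v : Δ →* (L2 Λ ≃ₗᵢ[ℂ] L2 Λ)}

/-- the coefficients of a product -/
theorem coeff_mul (hv : ∀ g, InVN (v g)) {c : ℝ} (hc0 : 0 ≤ c) {g g' : Δ} {a b : Λ}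
    (ha : c ≤ ‖v g (delta 1) a‖) (hb : c ≤ ‖v g' (delta 1) b‖) :
    2 * c ^ 2 - 1 ≤ ‖v (g * g') (delta 1) (a * b)‖ := by
  have h1 : v (g * g') (delta 1) (a * b) = ⟪(v g).symm (delta (a * b)), v g' (delta 1)⟫_ℂ := by
    rw [← LinearIsometryEquiv.inner_map_map (v g) ((v g).symm _) _,
      LinearIsometryEquiv.apply_symm_apply, inner_delta, map_mul]
    rfl
  rw [h1]
  refine angle_sum (e := delta b) (norm_delta b) ?_ ?_ hc0 ?_ ?_
  · rw [LinearIsometryEquiv.norm_map, norm_delta]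
  · rw [LinearIsometryEquiv.norm_map, norm_delta]
  · have h2 : v g (delta b) (a * b) = v g (delta 1) a := by
      have h3 : (delta b : L2 Λ) = rho b⁻¹ (delta 1) := by
        rw [rho_delta, inv_inv, one_mul]
      rw [h3, hv g, rho_apply, mul_inv_cancel_right]
    rw [← LinearIsometryEquiv.inner_map_map (v g), LinearIsometryEquiv.apply_symm_apply,
      norm_inner_symm, inner_delta, h2]
    exact ha
  · rw [inner_delta]
    exact hb

/-- **The homomorphism.** -/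
theorem exists_pi (hv : ∀ g, InVN (v g)) {c : ℝ} (hc0 : 0 ≤ c) (hc : 3 < 4 * c ^ 2)
    (h : ∀ g, ∃ k, c ≤ ‖v g (delta 1) k‖) : ∃ π : Δ →* Λ, ∀ g, c ≤ ‖v g (delta 1) (π g)‖ := by
  choose p hp using h
  have hn : ∀ g, ‖v g (delta 1)‖ = 1 := fun g => by
    rw [LinearIsometryEquiv.norm_map, norm_delta]
  have hmul : ∀ g g', p (g * g') = p g * p g' := by
    intro g g'
    have h1 := coeff_mul hv hc0 (hp g) (hp g')
    refine coeff_unique (hn (g * g')) (s := 2 * c ^ 2 - 1) (by nlinarith) hc0 ?_ (hp (g * g')) h1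
    nlinarith [mul_pos (show (0 : ℝ) < c ^ 2 by nlinarith) (show (0 : ℝ) < 4 * c ^ 2 - 3 by linarith)]
  refine ⟨⟨⟨p, ?_⟩, hmul⟩, hp⟩
  have h1 := hmul 1 1
  rw [mul_one] at h1
  exact mul_eq_left.1 h1.symm

/-- the representation `v g ρ_{π g}` -/
noncomputable def WW (hv : ∀ g, InVN (v g)) (π : Δ →* Λ) : Δ →* (L2 Λ ≃ₗᵢ[ℂ] L2 Λ) where
  toFun g := (rho (π g)).trans (v g)
  map_one' := by
    apply LinearIsometryEquiv.ext
    intro f
    show v 1 (rho (π 1) f) = f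
    rw [map_one, map_one, rho_one]
    rfl
  map_mul' g h := by
    apply LinearIsometryEquiv.ext
    intro f
    show v (g * h) (rho (π (g * h)) f) = v g (rho (π g) (v h (rho (π h) f)))
    rw [map_mul π, rho_mul, map_mul v, ← hv h]
    rfl

theorem WW_apply (hv : ∀ g, InVN (v g)) (π : Δ →* Λ) (g : Δ) (f : L2 Λ) :
    WW hv π g f = v g (rho (π g) f) := rfl

/-- **The intertwiner.** -/
theorem exists_eta (hv : ∀ g, InVN (v g)) {c : ℝ} (hc0 : 0 ≤ c) (hc : 3 < 4 * c ^ 2)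
    (h : ∀ g, ∃ k, c ≤ ‖v g (delta 1) k‖) :
    ∃ (π : Δ →* Λ) (χ : Δ →* Circle) (η : L2 Λ), ‖η‖ = 1 ∧ c ≤ ‖η 1‖ ∧
      ∀ g, v g (rho (π g) η) = (χ g : ℂ) • η := by
  obtain ⟨π, hπ⟩ := exists_pi hv hc0 hc h
  obtain ⟨η, χ, hη, hc', hχ⟩ := fixed_line (WW hv π) (norm_delta (1 : Λ)) hc0 (by linarith)
    (fun g => by
      rw [norm_inner_symm, inner_delta, WW_apply, rho_delta, one_mul]
      have h3 : (delta (π g)⁻¹ : L2 Λ) = rho (π g) (delta 1) := by
        rw [rho_delta, one_mul]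
      rw [h3, hv g, rho_apply, one_mul]
      exact hπ g)
  rw [inner_delta] at hc'
  exact ⟨π, χ, η, hη, hc', hχ⟩

/-- **Unitary intertwiners.** -/
theorem exists_w (hv : ∀ g, InVN (v g)) {π : Δ →* Λ} {χ : Δ →* Circle} {η : L2 Λ}
    (hη1 : ‖η‖ = 1) (hη : ∀ k, v k (rho (π k) η) = (χ k : ℂ) • η) (hicc : RelIcc π) :
    ∃ w : L2 Λ ≃ₗᵢ[ℂ] L2 Λ, InVN w ∧ w (delta 1) = η ∧
      ∀ k f, v k (w f) = (χ k : ℂ) • w (lam (π k) f) := by
  classical
  have hr : ∀ k, rho (π k)⁻¹ η = ((χ k)⁻¹ : ℂ) • v k η := by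
    intro k
    have h1 := hη k
    have h2 : v k η = rho (π k)⁻¹ (v k (rho (π k) η)) := by
      rw [← hv k, rho_inv_rho]
    rw [h2, h1, map_smul, smul_smul, inv_mul_cancel₀ (Circle.coe_ne_zero _), one_smul]
  have hr' : ∀ k, rho (π k) η = (χ k : ℂ) • (v k).symm η := by
    intro k
    apply (v k).injective
    rw [hη, map_smul, LinearIsometryEquiv.apply_symm_apply]
  have hF : ∀ (g : Λ) (k : Δ), ⟪η, rho (π k * g * (π k)⁻¹) η⟫_ℂ = ⟪η, rho g η⟫_ℂ := by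
    intro g k
    have h1 : ⟪η, rho (π k * g * (π k)⁻¹) η⟫_ℂ = ⟪rho (π k)⁻¹ η, rho g (rho (π k)⁻¹ η)⟫_ℂ := by
      rw [rho_mul, rho_mul, ← LinearIsometryEquiv.inner_map_map (rho (π k)⁻¹), rho_inv_rho]
    rw [h1, hr, map_smul, inner_smul_left, inner_smul_right, ← hv k,
      LinearIsometryEquiv.inner_map_map, ← mul_assoc]
    have h5 : conj ((χ k : ℂ))⁻¹ * ((χ k : ℂ))⁻¹ = 1 := by
      rw [← Complex.normSq_eq_conj_mul_self, Complex.normSq_eq_norm_sq, norm_inv, Circle.norm_coe]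
      simp
    rw [h5, one_mul]
  have horth : ∀ a : Λ, Orthonormal ℂ fun g : Λ => (rho g : L2 Λ ≃ₗᵢ[ℂ] L2 Λ) (delta a) := by
    intro a
    refine ⟨fun g => by rw [LinearIsometryEquiv.norm_map, norm_delta], fun g h hgh => ?_⟩
    show ⟪rho g (delta a), rho h (delta a)⟫_ℂ = 0
    rw [rho_delta, rho_delta, inner_delta, delta_apply, if_neg]
    exact fun h1 => hgh (inv_injective (mul_left_cancel h1))
  have hort : ∀ k : Λ, k ≠ 1 → ⟪η, rho k η⟫_ℂ = 0 := fun k hk =>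
    icc_zero_rel hicc (F := fun g => ⟪η, rho g η⟫_ℂ) hF (c0 horth η η) hk
  have hb : Orthonormal ℂ fun k : Λ => rho k⁻¹ η := by
    refine ⟨fun k => by rw [LinearIsometryEquiv.norm_map, hη1], fun k l hkl => ?_⟩
    show ⟪rho k⁻¹ η, rho l⁻¹ η⟫_ℂ = 0
    have h1 : rho l⁻¹ η = rho k⁻¹ (rho (k * l⁻¹) η) := by
      rw [← rho_mul, inv_mul_cancel_left]
    rw [h1, LinearIsometryEquiv.inner_map_map]
    exact hort _ fun h => hkl (mul_inv_eq_one.1 h)
  have hvη : ∀ k, v k η = (χ k : ℂ) • rho (π k)⁻¹ η := by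
    intro k
    rw [hr, smul_smul, mul_inv_cancel₀ (Circle.coe_ne_zero _), one_smul]
  let S₀ : L2 Λ →ₗᵢ[ℂ] L2 Λ := hb.orthogonalFamily.linearIsometry
  have hS₀ : ∀ g, S₀ (delta g) = rho g⁻¹ η := by
    intro g
    have h1 := hb.orthogonalFamily.linearIsometry_apply_single (i := g) (1 : ℂ)
    rw [LinearIsometry.toSpanSingleton_apply, one_smul] at h1
    rw [← h1, delta]
  have hS₀' : InVN S₀.toContinuousLinearMap := by
    intro l f
    have h1 := ext_delta (T := S₀.toContinuousLinearMap.comp (clm (rho l)))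
      (S := (clm (rho l)).comp S₀.toContinuousLinearMap) (fun a => ?_) f
    · exact h1
    · show S₀ (rho l (delta a)) = rho l (S₀ (delta a))
      rw [rho_delta, hS₀, hS₀, ← rho_mul, mul_inv_rev, inv_inv]
  have hsurj : Function.Surjective S₀ := fun y =>
    ⟨_, isometry_surj_left hS₀' (fun x => S₀.norm_map x) y⟩
  let w : L2 Λ ≃ₗᵢ[ℂ] L2 Λ := LinearIsometryEquiv.ofSurjective S₀ hsurj
  have hwk : ∀ k, w (delta k) = rho k⁻¹ η := hS₀
  refine ⟨w, hS₀', ?_, fun k f => ?_⟩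
  · rw [hwk, inv_one, rho_one]
  · have h1 := ext_delta (T := (clm (v k)).comp (clm w))
      (S := (χ k : ℂ) • (clm w).comp (clm (lam (π k)))) (fun a => ?_) f
    · exact h1
    · show v k (w (delta a)) = (χ k : ℂ) • w (lam (π k) (delta a))
      rw [lam_delta, hwk, hwk, hv k, hvη, map_smul, ← rho_mul, mul_inv_rev]

/-! ### Bounded generation -/

theorem mul_close' (hv : ∀ g, InVN (v g)) {g h : Δ} {x y : Λ} {a b : Circle} {r s : ℝ}
    (hg : ‖v g (delta 1) - (a : ℂ) • delta x‖ ≤ r) (hh : ‖v h (delta 1) - (b : ℂ) • delta y‖ ≤ s) :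
    ‖v (g * h) (delta 1) - ((a * b : Circle) : ℂ) • delta (x * y)‖ ≤ r + s := by
  have h1 : v (g * h) (delta 1) - ((a * b : Circle) : ℂ) • delta (x * y) =
      v g (v h (delta 1) - (b : ℂ) • delta y) +
        (b : ℂ) • rho y⁻¹ (v g (delta 1) - (a : ℂ) • delta x) := by
    have h2 : v (g * h) (delta 1) = v g (v h (delta 1)) := by
      rw [map_mul]
      rfl
    have h3 : (delta y : L2 Λ) = rho y⁻¹ (delta 1) := by
      rw [rho_delta, inv_inv, one_mul]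
    rw [h2, map_sub, map_sub, map_smul, map_smul, rho_delta, inv_inv, h3, hv g, smul_sub, smul_smul,
      Circle.coe_mul, mul_comm (a : ℂ)]
    abel
  rw [h1]
  refine (norm_add_le _ _).trans ?_
  rw [LinearIsometryEquiv.norm_map, norm_smul, Circle.norm_coe, one_mul,
    LinearIsometryEquiv.norm_map]
  linarith

theorem list_close (hv : ∀ g, InVN (v g)) {S : Set Δ} {r : ℝ}
    (hS : ∀ g ∈ S, ∃ (a : Circle) (x : Λ), ‖v g (delta 1) - (a : ℂ) • delta x‖ ≤ r) (l : List Δ)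
    (hl : ∀ g ∈ l, g ∈ S) :
    ∃ (a : Circle) (x : Λ), ‖v l.prod (delta 1) - (a : ℂ) • delta x‖ ≤ l.length * r := by
  induction l with
  | nil =>
    refine ⟨1, 1, ?_⟩
    have h1 : v 1 (delta 1) = (delta 1 : L2 Λ) := by
      rw [map_one]
      rfl
    rw [List.prod_nil, h1, Circle.coe_one, one_smul, sub_self, norm_zero, List.length_nil,
      Nat.cast_zero, zero_mul]
  | cons g l ih =>
    obtain ⟨a, x, hx⟩ := hS g (hl g List.mem_cons_self)
    obtain ⟨b, y, hy⟩ := ih fun h hh => hl h (List.mem_cons_of_mem _ hh)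
    refine ⟨a * b, x * y, ?_⟩
    rw [List.prod_cons, List.length_cons]
    refine (mul_close' hv hx hy).trans (le_of_eq ?_)
    push_cast
    ring

theorem coeff_of_close {f : L2 Λ} (hf : ‖f‖ = 1) {a : Circle} {x : Λ} {s : ℝ}
    (h : ‖f - (a : ℂ) • delta x‖ ≤ s) : 1 - s ^ 2 / 2 ≤ ‖f x‖ := by
  have h1 := pow_le_pow_left₀ (norm_nonneg _) h 2
  rw [norm_sub_sq (𝕜 := ℂ), hf, norm_smul, norm_delta, inner_smul_right, ← inner_conj_symm,
    inner_delta, Circle.norm_coe] at h1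
  have h2 : RCLike.re ((a : ℂ) * conj (f x)) ≤ ‖f x‖ := by
    refine (RCLike.re_le_norm _).trans ?_
    rw [norm_mul, Circle.norm_coe, one_mul, RCLike.norm_conj]
  linarith

/-- **All coefficients.** -/
theorem height_all (hv : ∀ g, InVN (v g)) {S : Set Δ} {m : ℕ} (hm : 1 ≤ m)
    (hS : IsBoundedlyGenerated S m) {c : ℝ} (hc0 : 0 < c) (hc1 : c ≤ 1)
    (h : LargeOn S m c v) (g : Δ) : ∃ k, c ≤ ‖v g (delta 1) k‖ := by
  have hm0 : (0 : ℝ) < m := by exact_mod_cast hm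
  have hm1 : (1 : ℝ) ≤ (m : ℝ) ^ 2 := by
    have h1 : (1 : ℝ) ≤ m := by exact_mod_cast hm
    nlinarith
  obtain ⟨ε, hε⟩ : ∃ ε, ε = (1 - c) / (m : ℝ) ^ 2 := ⟨_, rfl⟩
  have hε1 : ε < 1 := by
    rw [hε, div_lt_one (by positivity)]
    linarith
  have hε0 : 0 ≤ ε := by
    rw [hε]
    exact div_nonneg (by linarith) (by positivity)
  have hn : ∀ g, ‖v g (delta 1)‖ = 1 := fun g => by
    rw [LinearIsometryEquiv.norm_map, norm_delta]
  have h1 : ∀ g ∈ S, ∃ (a : Circle) (x : Λ), ‖v g (delta 1) - (a : ℂ) • delta x‖ ≤ √(2 * ε) := by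
    intro g hg
    obtain ⟨k, hk⟩ := h g hg
    rw [← hε] at hk
    obtain ⟨a, ha⟩ := near_delta (hn g) hε1 hk
    exact ⟨a, k, Real.le_sqrt_of_sq_le ha⟩
  obtain ⟨l, hlm, hlS, rfl⟩ := hS g
  obtain ⟨a, x, hx⟩ := list_close hv h1 l hlS
  refine ⟨x, le_trans ?_ (coeff_of_close (hn _) hx)⟩
  rw [mul_pow, Real.sq_sqrt (by positivity)]
  have h2 : ((l.length : ℝ)) ^ 2 ≤ (m : ℝ) ^ 2 := by
    have h3 : (l.length : ℝ) ≤ m := by exact_mod_cast hlm
    exact pow_le_pow_left₀ (by positivity) h3 2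
  have h3 : (l.length : ℝ) ^ 2 * ε ≤ 1 - c := by
    refine (mul_le_mul_of_nonneg_right h2 hε0).trans (le_of_eq ?_)
    rw [hε]
    field_simp
  linarith

end Pool.Agent.J4.H1.VN
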