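import Pool.Agent.J4.H1.VN.Hgt
import Pool.Agent.K4H1.VN.RelMx

/-!
# Uniform height: isomorphisms
-/

set_option autoImplicit false

namespace Pool.Agent.J4.H1.VN

open Pool.Agent.K4H1.VN Pool.Agent.Y276.Rig
open scoped ComplexConjugate InnerProductSpace

theorem three_lt {c : ℝ} (hc : √3 / 2 < c) : 3 < 4 * c ^ 2 := by
  have h1 : 0 ≤ √3 / 2 := by positivity
  have h2 : (√3 / 2) ^ 2 < c ^ 2 := pow_lt_pow_left₀ hc h1 two_ne_zero
  rw [div_pow, Real.sq_sqrt (by norm_num)] at h2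
  linarith

theorem zero_lt {c : ℝ} (hc : √3 / 2 < c) : 0 < c := lt_of_le_of_lt (by positivity) hc

theorem relIcc_of_range {Δ Γ : Type} [Group Δ] [Group Γ] {j : Δ →* Γ}
    (h : RelativelyIcc (Set.range j)) : RelIcc j := by
  intro x hx
  refine (h x hx).mono ?_
  rintro y ⟨_, ⟨k, rfl⟩, rfl⟩
  exact ⟨k, rfl⟩

/-- **(A)** -/
theorem height_hom {Δ Λ : Type} [Group Δ] [Group Λ] {v : Δ →* Uni Λ} {S : Set Δ} {m : ℕ} {c : ℝ}
    (hv : InUL v) (hm : 1 ≤ m) (hS : IsBoundedlyGenerated S m) (hc : √3 / 2 < c) (hc1 : c ≤ 1)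
    (h : LargeOn S m c v) : IsIntertwined c v := by
  obtain ⟨π, χ, η, hη1, hηc, hη⟩ := exists_eta hv (zero_lt hc).le (three_lt hc)
    (height_all hv hm hS (zero_lt hc) hc1 h)
  refine ⟨π, χ, η, hη1, hηc, hη, fun hπ => ?_⟩
  obtain ⟨w, hw, h1, h2⟩ := exists_w hv hη1 hη (relIcc_of_range hπ)
  exact ⟨w, h1, hw, h2⟩

section Abs

variable {Γ Λ Δ : Type} [Group Γ] [Group Λ] [Group Δ]

/-- the relative case -/
theorem height_std {U : L2 Γ ≃ₗᵢ[ℂ] L2 Λ} (hU : IsSpatialIso U) {j : Δ →* Γ} (hj : RelIcc j)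
    {S : Set Δ} {m : ℕ} (hm : 1 ≤ m) (hS : IsBoundedlyGenerated S m) {c : ℝ} (hc : √3 / 2 < c)
    (hc1 : c ≤ 1) (h : LargeOn S m c ((cv U).comp j)) :
    ∃ (π : Δ →* Λ) (χ : Δ →* Circle) (w T : Uni Λ), InVN w ∧ InVN' T ∧
      T (delta 1) = w (delta 1) ∧
        ∀ d f, cv U (j d) (w f) = (χ d : ℂ) • w (lam (π d) f) := by
  have hv : ∀ d, InVN (((cv U).comp j) d) := fun d => cv_inVN hU (j d)
  obtain ⟨π, χ, η, hη1, hηc, hη⟩ := exists_eta hv (zero_lt hc).le (three_lt hc)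
    (height_all hv hm hS (zero_lt hc) hc1 h)
  obtain ⟨w, T, hw, hT, h1, h2⟩ := iso_case_rel hj (cv_inVN hU) (cv_U U) hU hη1 hη
  exact ⟨π, χ, w, T, hw, hT, h1, h2⟩

/-- **(B)** -/
theorem height_iso {θ : VNIso Γ Λ} {j : Δ →* Γ} (hj : RelIcc j) {S : Set Δ} {m : ℕ} (hm : 1 ≤ m)
    (hS : IsBoundedlyGenerated S m) {c : ℝ} (hc : √3 / 2 < c) (hc1 : c ≤ 1)
    (h : LargeOnImage S m c θ j) : IsGroupLikeOnImage θ j := by
  obtain ⟨π, χ, w, T, hw, -, -, h2⟩ := height_std θ.isIso hj hm hS hc hc1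
    (fun d hd => h d hd)
  exact ⟨π, χ, w, hw, h2⟩

end Abs

section Mat

variable {R : Type} [CommRing R] {I : Type} [Fintype I] [DecidableEq I]
  {Γ : Subgroup (Matrix.SpecialLinearGroup I R)} {Δ Λ : Type} [Group Δ] [Group Λ]

/-- **(C)** -/
theorem height_mat [IsDomain R] [CharZero R] (hI : 3 ≤ Fintype.card I) (hΓ : Rich Γ)
    {θ : VNIso Γ Λ} {j : Δ →* Γ} (hj : HasElems j) {S : Set Δ} {m : ℕ} (hm : 1 ≤ m)
    (hS : IsBoundedlyGenerated S m) {c : ℝ} (hc : √3 / 2 < c) (hc1 : c ≤ 1)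
    (h : LargeOnImage S m c θ j) : IsGroupIsoUpToConj θ := by
  have hicc : RelIcc j := relIcc_of_elems hI hj
  obtain ⟨U₀, hU₀, h₀⟩ := exists_std hicc.isIcc θ.isIso
  obtain ⟨π₀, χ₀, w, T, hw, hT', h1, h2⟩ := height_std hU₀.2 hicc hm hS hc hc1 fun d hd => by
    obtain ⟨k, hk⟩ := h d hd
    refine ⟨k, ?_⟩
    show _ < ‖cv U₀ (j d) (delta 1) k‖
    rw [h₀]
    exact hk
  have hU₁ := stdIso_twist hU₀ hw hT' h1
  have hgl : ∀ d, GroupLikeAt ((U₀.trans T).trans w.symm) (j d) := fun d =>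
    ⟨χ₀ d, π₀ d, twist_apply hU₀.2 hT' (h2 d)⟩
  obtain ⟨π, χ, hπ⟩ := exists_equiv hU₁ (gl_of_elems hI hΓ hj hU₁ hgl)
  refine ⟨π, χ, w, hw, fun g f => ?_⟩
  have h3 := twist_back hU₀.2 hT' (hπ g) f
  have h4 := h₀ g (w f)
  rw [cv_apply, cv_apply] at h4
  show θ.U (lam g (θ.U.symm (w f))) = _
  rw [← h4, h3]

end Mat

end Pool.Agent.J4.H1.VN
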