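import Mathlib

/-!
# Inverse systems of finite sets
-/

set_option autoImplicit false

namespace Pool.Agent.J4.H1.VN

open CategoryTheory

theorem finite_inverse {ι : Type} (r : ι → ι → Prop) (hrefl : ∀ i, r i i)
    (htrans : ∀ i j k, r i j → r j k → r i k) (hdir : ∀ i j, ∃ k, r k i ∧ r k j)
    (X : ι → Type) [∀ i, Finite (X i)] [∀ i, Nonempty (X i)] (f : ∀ i j, r i j → X i → X j)
    (fid : ∀ i h x, f i i h x = x)
    (fcomp : ∀ i j k h h' h'' x, f j k h' (f i j h x) = f i k h'' x) :
    ∃ x : ∀ i, X i, ∀ i j h, f i j h (x i) = x j := by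
  let _ : Preorder ι :=
    { le := fun i j => r j i
      le_refl := fun i => hrefl i
      le_trans := fun i j k h h' => htrans k j i h' h }
  have : IsDirectedOrder ι := ⟨fun i j => by
    obtain ⟨k, h, h'⟩ := hdir i j
    exact ⟨k, h, h'⟩⟩
  let F : ιᵒᵖ ⥤ Type :=
    { obj := fun i => X i.unop
      map := fun {i j} g => ↾(f i.unop j.unop (leOfHom g.unop))
      map_id := fun i => by
        ext x
        exact fid _ _ x
      map_comp := fun {i j k} g g' => by
        ext x
        exact (fcomp _ _ _ _ _ _ x).symm }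
  have h1 : ∀ i : ιᵒᵖ, Finite (F.obj i) := fun i => inferInstanceAs (Finite (X i.unop))
  have h2 : ∀ i : ιᵒᵖ, Nonempty (F.obj i) := fun i => inferInstanceAs (Nonempty (X i.unop))
  obtain ⟨u, hu⟩ := nonempty_sections_of_finite_inverse_system F
  refine ⟨fun i => u (Opposite.op i), fun i j h => ?_⟩
  have h3 : (j : ι) ≤ i := h
  exact hu (Quiver.Hom.op (homOfLE h3))

end Pool.Agent.J4.H1.VN
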