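import Pool.Agent.K4H1.VN.RelAbs

/-!
# The lattice of the subgroups whose algebras are mapped onto algebras of subgroups
-/

set_option autoImplicit false

namespace Pool.Agent.J4.H1.VN

open Pool.Agent.K4H1.VN Pool.Agent.Y276.Rig
open scoped ComplexConjugate InnerProductSpace

variable {Γ Λ : Type} [Group Γ] [Group Λ]

/-- the conjugation by `U`, for any unitary operator which implements an isomorphism, is the
conjugation by a unitary operator which implements it in the standard form -/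
theorem exists_std_conj (hicc : IsIcc Γ) {U : L2 Γ ≃ₗᵢ[ℂ] L2 Λ} (hU : IsSpatialIso U) :
    ∃ U₀ : L2 Γ ≃ₗᵢ[ℂ] L2 Λ, IsStdIso U₀ ∧
      ∀ T : L2 Γ →L[ℂ] L2 Γ, InVN T → ∀ f, U₀ (T (U₀.symm f)) = U (T (U.symm f)) := by
  obtain ⟨T, hT₀, hT⟩ := exists_unitary (v := cv U) (cv_U U) hU (norm_delta (1 : Λ))
    (fun g hg => by
      rw [inner_delta]
      exact trace_zero hicc (cv_inVN hU) (cv_U U) hg)
  have hT' : InVN' T := hT
  refine ⟨U.trans T, ⟨?_, ?_⟩, fun S hS f => ?_⟩
  · show T (U (delta 1)) = delta 1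
    rw [hT₀, map_one]
    rfl
  · exact spatial_twist (w := LinearIsometryEquiv.refl ℂ (L2 Λ)) hU (fun g f => rfl) hT'
  · show T (U (S (U.symm (T.symm f)))) = U (S (U.symm f))
    have h1 : InVN (conjU U S) := (hU S).1 hS
    have h2 : InVN' (clm T) := hT'
    have h3 : conjU U S (T (T.symm f)) = T (conjU U S (T.symm f)) := commutation h1 h2 _
    rw [T.apply_symm_apply] at h3
    exact h3.symm

/-- `U` maps the vectors supported on `H` onto those supported on `K` -/
theorem Compat.supp {U : L2 Γ ≃ₗᵢ[ℂ] L2 Λ} {H : Set Γ} {K : Subgroup Λ} (h : Compat U H K)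
    {f : L2 Γ} (hf : ∀ x, f x ≠ 0 → x ∈ H) (y : Λ) (hy : U f y ≠ 0) : y ∈ K := by
  by_contra hyK
  apply hy
  have h1 : HasSum (fun x => f x • U (delta x)) (U f) := by
    have := (clm U).hasSum (hasSum_delta f)
    simpa [clm_apply] using this
  have h2 := (innerSL ℂ (delta y : L2 Λ)).hasSum h1
  simp only [innerSL_apply_apply, inner_delta] at h2
  refine h2.unique ?_
  convert hasSum_zero using 1
  funext x
  rw [lp.coeFn_smul, Pi.smul_apply, smul_eq_mul]
  by_cases hx : f x = 0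
  · rw [hx, zero_mul]
  · have h3 : U (delta x) y = 0 := by
      by_contra h4
      exact hyK (h.1 x (hf x hx) y h4)
    rw [h3, mul_zero]

/-- the inverse -/
theorem Compat.symm_subgroup {U : L2 Γ ≃ₗᵢ[ℂ] L2 Λ} {H : Subgroup Γ} {K : Subgroup Λ}
    (h : Compat U (H : Set Γ) K) : Compat U.symm (K : Set Λ) H :=
  ⟨fun k hk x hx => h.2 k hk x hx, fun g hg y hy => h.1 g hg y (by simpa using hy)⟩

/-- the coefficients of a product -/
theorem mul_supp {U : L2 Γ ≃ₗᵢ[ℂ] L2 Λ} (hU : IsStdIso U) {g : Γ} {K : Subgroup Λ}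
    (hg : ∀ y, U (delta g) y ≠ 0 → y ∈ K) {f : L2 Γ} (hf : ∀ y, U f y ≠ 0 → y ∈ K) (y : Λ)
    (hy : U (lam g f) y ≠ 0) : y ∈ K := by
  by_contra hyK
  apply hy
  have h4 := apply_hasSum (th U (tl (lam g))) (U f) y
  rw [th_lam_apply] at h4
  refine h4.unique ?_
  convert hasSum_zero using 1
  funext c
  rw [(inVN_th hU g).delta_apply', th_lam_delta hU]
  by_contra hne
  have h5 := hf c (left_ne_zero_of_mul hne)
  have h6 := hg _ (right_ne_zero_of_mul hne)
  apply hyK
  have := K.mul_mem h6 h5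
  rwa [inv_mul_cancel_right] at this

/-- the subgroups `H` such that `θ(L(H))` is the algebra of a subgroup -/
def Pres (U : L2 Γ ≃ₗᵢ[ℂ] L2 Λ) (H : Subgroup Γ) : Prop :=
  ∃ K : Subgroup Λ, Compat U (H : Set Γ) K

/-- intersections -/
theorem pres_sInf {U : L2 Γ ≃ₗᵢ[ℂ] L2 Λ} (S : Set (Subgroup Γ)) (hS : ∀ H ∈ S, Pres U H) :
    Pres U (sInf S) := by
  choose! K hK using hS
  refine ⟨⨅ H ∈ S, K H, fun h hh y hy => ?_, fun k hk x hx => ?_⟩
  · rw [Subgroup.mem_iInf]
    intro H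
    rw [Subgroup.mem_iInf]
    intro hH
    exact (hK H hH).1 h (Subgroup.mem_sInf.1 hh H hH) y hy
  · rw [SetLike.mem_coe, Subgroup.mem_sInf]
    intro H hH
    refine (hK H hH).2 k ?_ x hx
    rw [Subgroup.mem_iInf] at hk
    have h1 := hk H
    rw [Subgroup.mem_iInf] at h1
    exact h1 hH

theorem sup_aux {U : L2 Γ ≃ₗᵢ[ℂ] L2 Λ} (hU : IsStdIso U) {S : Set Γ} {K : Subgroup Λ}
    (h : ∀ g ∈ S, ∀ y, U (delta g) y ≠ 0 → y ∈ K) {g : Γ} (hg : g ∈ Subgroup.closure S)
    (hinv : ∀ g ∈ S, g⁻¹ ∈ S) (y : Λ) (hy : U (delta g) y ≠ 0) : y ∈ K := by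
  classical
  have key : ∀ g ∈ Submonoid.closure S, ∀ y, U (delta g) y ≠ 0 → y ∈ K := by
    intro g hg
    induction hg using Submonoid.closure_induction with
    | mem x hx => exact h x hx
    | one =>
      intro y hy
      rw [hU.1, delta_apply] at hy
      by_cases h1 : y = 1
      · rw [h1]; exact K.one_mem
      · rw [if_neg h1] at hy
        exact absurd rfl hy
    | mul a b _ _ ha hb =>
      intro y hy
      rw [← lam_delta] at hy
      exact mul_supp hU ha hb y hy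
  refine key g ?_ y hy
  have h1 : S⁻¹ = S := by
    ext x
    rw [Set.mem_inv]
    exact ⟨fun hx => by simpa using hinv _ hx, fun hx => hinv x hx⟩
  have h2 : (Subgroup.closure S).toSubmonoid = Submonoid.closure S := by
    rw [Subgroup.closure_toSubmonoid, h1, Set.union_self]
  rw [← h2]
  exact hg

/-- joins -/
theorem pres_sSup {U : L2 Γ ≃ₗᵢ[ℂ] L2 Λ} (hU : IsStdIso U) (S : Set (Subgroup Γ))
    (hS : ∀ H ∈ S, Pres U H) : Pres U (sSup S) := by
  choose! K hK using hS
  refine ⟨⨆ H ∈ S, K H, fun h hh y hy => ?_, fun k hk x hx => ?_⟩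
  · have h1 : sSup S = Subgroup.closure (⋃ H ∈ S, (H : Set Γ)) := by
      rw [sSup_eq_iSup, Subgroup.closure_iUnion]
      refine iSup_congr fun H => ?_
      rw [Subgroup.closure_iUnion]
      refine iSup_congr fun hH => ?_
      rw [Subgroup.closure_eq]
    rw [SetLike.mem_coe, h1] at hh
    refine sup_aux hU ?_ hh ?_ y hy
    · intro g hg y hy
      simp only [Set.mem_iUnion] at hg
      obtain ⟨H, hH, hg⟩ := hg
      exact (le_iSup₂ (f := fun H (_ : H ∈ S) => K H) H hH) ((hK H hH).1 g hg y hy)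
    · intro g hg
      simp only [Set.mem_iUnion] at hg ⊢
      obtain ⟨H, hH, hg⟩ := hg
      exact ⟨H, hH, H.inv_mem hg⟩
  · have h1 : (⨆ H ∈ S, K H) = Subgroup.closure (⋃ H ∈ S, (K H : Set Λ)) := by
      rw [Subgroup.closure_iUnion]
      refine iSup_congr fun H => ?_
      rw [Subgroup.closure_iUnion]
      refine iSup_congr fun hH => ?_
      rw [Subgroup.closure_eq]
    rw [h1] at hk
    refine sup_aux hU.symm ?_ hk ?_ x hx
    · intro g hg y hy
      simp only [Set.mem_iUnion] at hg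
      obtain ⟨H, hH, hg⟩ := hg
      exact (le_sSup hH) ((hK H hH).2 g hg y hy)
    · intro g hg
      simp only [Set.mem_iUnion] at hg ⊢
      obtain ⟨H, hH, hg⟩ := hg
      exact ⟨H, hH, (K H).inv_mem hg⟩

theorem Pres.sup {U : L2 Γ ≃ₗᵢ[ℂ] L2 Λ} (hU : IsStdIso U) {H H' : Subgroup Γ} (h : Pres U H)
    (h' : Pres U H') : Pres U (H ⊔ H') := by
  rw [← sSup_pair]
  refine pres_sSup hU _ ?_
  rintro _ (rfl | rfl)
  · exact h
  · exact h'

end Pool.Agent.J4.H1.VN
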