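import Pool.Agent.J4.H1.VN.SDefs

/-!
# Families of preserved subgroups: the definitions of the statement
-/

set_option autoImplicit false

namespace Pool.Agent.J4.H1.VN

open Pool.Agent.K4H1.VN Matrix

section Abs

variable {Γ Λ : Type} [Group Γ] [Group Λ]

/-- every element other than `1` has infinitely many conjugates by elements of `H` -/
def RelativelyIcc (H : Set Γ) : Prop :=
  ∀ x : Γ, x ≠ 1 → {y : Γ | ∃ h ∈ H, y = h * x * h⁻¹}.Infinite

/-- `θ(L(H)) = L(K)` -/
def MapsAlg (θ : VNIso Γ Λ) (H : Set Γ) (K : Set Λ) : Prop :=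
  ∀ T : L2 Γ →L[ℂ] L2 Γ, InVN T → (SuppOn T H ↔ SuppOn (θ.map T) K)

/-- the conjugate `g S g⁻¹` -/
def conjSet (g : Γ) (S : Set Γ) : Set Γ := {x | g⁻¹ * x * g ∈ S}

end Abs

section Mat

variable {R : Type} [CommRing R] {I : Type} [Fintype I] [DecidableEq I]

/-- the congruence subgroup: the elements of `Γ` which are `≡ 1` modulo `𝔞` -/
def congSet (Γ : Subgroup (SpecialLinearGroup I R)) (𝔞 : Ideal R) : Set Γ :=
  {g | ∀ i j, mat g i j - (1 : Matrix I I R) i j ∈ 𝔞}

end Mat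

end Pool.Agent.J4.H1.VN
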