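import Pool.Agent.J4.H1.VN.Tri
import Pool.Agent.J4.H1.VN.SDefs2
import Pool.Agent.K4H1.VN.RelIso

/-!
# One-sided normalisers of relatively icc preserved subgroups
-/

set_option autoImplicit false
set_option linter.unusedSectionVars false

namespace Pool.Agent.J4.H1.VN

open Pool.Agent.K4H1.VN Pool.Agent.Y276.Rig Filter Topology
open scoped ComplexConjugate InnerProductSpace

variable {Γ Λ : Type} [Group Γ] [Group Λ]

theorem RelativelyIcc.mono {H H' : Set Γ} (h : RelativelyIcc H) (hH : H ⊆ H') :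
    RelativelyIcc H' := fun x hx => (h x hx).mono (by
  rintro y ⟨k, hk, rfl⟩
  exact ⟨k, hH hk, rfl⟩)

theorem RelativelyIcc.isIcc {H : Set Γ} (h : RelativelyIcc H) : IsIcc Γ := fun x hx =>
  (h x hx).mono (by
  rintro y ⟨k, _, rfl⟩
  exact ⟨k, rfl⟩)

/-- the vectors invariant under the conjugation by the elements of `H` -/
def CInv (H : Set Γ) (z : L2 Γ) : Prop := ∀ h ∈ H, lam h (rho h z) = z

theorem CInv.apply {H : Set Γ} {z : L2 Γ} (h : CInv H z) {k : Γ} (hk : k ∈ H) (x : Γ) :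
    z (k * x * k⁻¹) = z x := by
  have h1 := congrArg (fun f : L2 Γ => f (k * x * k⁻¹)) (h k hk)
  simp only [lam_apply, rho_apply] at h1
  have h2 : k⁻¹ * (k * x * k⁻¹) * k = x := by group
  rw [h2] at h1
  exact h1.symm

theorem tendsto_L2 (z : L2 Γ) : Tendsto (fun x => z x) cofinite (𝓝 0) := by
  classical
  have h1 : Orthonormal ℂ (fun x : Γ => (delta x : L2 Γ)) :=
    ⟨fun x => norm_delta x, fun i j hij => by
      show ⟪(delta i : L2 Γ), delta j⟫_ℂ = 0
      rw [inner_delta, delta_apply, if_neg hij]⟩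
  have h2 := c0_of_orthonormal h1 z
  rw [tendsto_zero_iff_norm_tendsto_zero] at h2 ⊢
  refine h2.congr fun x => ?_
  rw [norm_inner_symm, inner_delta]

theorem cinv_zero {H : Set Γ} (hH : RelativelyIcc H) {z : L2 Γ} (hz : CInv H z) :
    z = z 1 • (delta 1 : L2 Γ) := by
  classical
  apply L2ext
  intro x
  rw [lp.coeFn_smul, Pi.smul_apply, delta_apply, smul_eq_mul]
  by_cases hx : x = 1
  · rw [if_pos hx, hx, mul_one]
  · rw [if_neg hx, mul_zero]
    by_contra hne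
    have h1 : ∀ᶠ y in cofinite, ‖z y‖ < ‖z x‖ := by
      have h2 := (tendsto_L2 z).norm
      rw [norm_zero] at h2
      exact h2.eventually_lt_const (norm_pos_iff.2 hne)
    rw [Filter.eventually_cofinite] at h1
    refine hH x hx (h1.subset ?_)
    rintro y ⟨k, hk, rfl⟩
    show ¬ ‖z (k * x * k⁻¹)‖ < ‖z x‖
    rw [hz.apply hk]
    exact lt_irrefl _

variable {U : L2 Γ ≃ₗᵢ[ℂ] L2 Λ}

/-- `U ρ_b U⁻¹` commutes with the left translations -/
theorem inVN'_rho (hU : IsStdIso U) (b : Γ) :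
    InVN' ((tl U).comp ((tl (rho b)).comp (tl U.symm))) := by
  intro x f
  show U (rho b (U.symm (lam x f))) = lam x (U (rho b (U.symm f)))
  have h1 : InVN (th U.symm (tl (lam x))) := inVN_th hU.symm x
  have h2 := h1 b (U.symm f)
  rw [th_apply, th_apply, U.symm_symm, U.apply_symm_apply] at h2
  have h3 := congrArg U h2
  rw [U.apply_symm_apply] at h3
  exact h3.symm

theorem cinv_transfer (hU : IsStdIso U) {H : Set Γ} {K : Subgroup Λ} (h : Compat U H K)
    {z : L2 Λ} (hz : CInv (K : Set Λ) z) : CInv H (U.symm z) := by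
  intro g hg
  have key : U (lam g (U.symm z)) = U (rho g⁻¹ (U.symm z)) := by
    apply L2ext
    intro b
    have h1 := apply_hasSum (th U (tl (lam g))) z b
    have h2 := apply_hasSum ((tl U).comp ((tl (rho g⁻¹)).comp (tl U.symm))) z b
    let e : Λ ≃ Λ := ⟨fun c => b * c * b⁻¹, fun c => b⁻¹ * c * b, fun c => by group,
      fun c => by group⟩
    rw [← e.hasSum_iff] at h2
    have h2' : HasSum ((fun c => z c * ((tl U).comp ((tl (rho g⁻¹)).comp (tl U.symm)))
        (delta c) b) ∘ e) (U (rho g⁻¹ (U.symm z)) b) := h2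
    refine h1.unique ?_
    convert h2' using 1
    funext c
    show z c * th U (tl (lam g)) (delta c) b =
      z (b * c * b⁻¹) * ((tl U).comp ((tl (rho g⁻¹)).comp (tl U.symm))) (delta (b * c * b⁻¹)) b
    rw [(inVN_th hU g).delta_apply', (inVN'_rho hU g⁻¹).delta_apply', th_lam_delta hU]
    have h3 : ((tl U).comp ((tl (rho g⁻¹)).comp (tl U.symm))) (delta 1) = U (delta g) := by
      show U (rho g⁻¹ (U.symm (delta 1))) = U (delta g)
      rw [hU.symm_one, rho_delta, one_mul, inv_inv]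
    rw [h3]
    have h4 : (b * c * b⁻¹)⁻¹ * b = b * c⁻¹ := by group
    rw [h4]
    by_cases h5 : U (delta g) (b * c⁻¹) = 0
    · rw [h5, mul_zero, mul_zero]
    · have h6 : b * c⁻¹ ∈ K := h.1 g hg _ h5
      have h7 := hz.apply h6 c
      have h8 : b * c⁻¹ * c * (b * c⁻¹)⁻¹ = b * c * b⁻¹ := by group
      rw [h8] at h7
      rw [h7]
  have h1 := U.injective key
  show lam g (rho g (U.symm z)) = U.symm z
  rw [← rho_lam, h1, rho_rho_inv]

theorem finsum_delta_apply (s : Finset Λ) (x : Λ) [Decidable (x ∈ s)] :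
    (∑ y ∈ s, (delta y : L2 Λ)) x = if x ∈ s then 1 else 0 := by
  classical
  have h1 : (∑ y ∈ s, (delta y : L2 Λ)) x = ∑ y ∈ s, (delta y : L2 Λ) x := by
    rw [lp.coeFn_sum, Finset.sum_apply]
  rw [h1]
  simp only [delta_apply]
  rw [Finset.sum_ite_eq]
  by_cases h : x ∈ s <;> simp [h]

theorem relicc_transfer (hU : IsStdIso U) {H : Set Γ} {K : Subgroup Λ} (h : Compat U H K)
    (hH : RelativelyIcc H) : RelativelyIcc (K : Set Λ) := by
  classical
  intro y hy hfin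
  obtain ⟨O, hO⟩ : ∃ O : Finset Λ, ∀ x, x ∈ O ↔ ∃ k ∈ (K : Set Λ), x = k * y * k⁻¹ :=
    ⟨hfin.toFinset, fun x => by rw [Set.Finite.mem_toFinset]; rfl⟩
  obtain ⟨z, hz⟩ : ∃ z : L2 Λ, ∀ x, z x = if x ∈ O then 1 else 0 :=
    ⟨∑ y ∈ O, (delta y : L2 Λ), fun x => finsum_delta_apply O x⟩
  have h1 : CInv (K : Set Λ) z := by
    intro k hk
    apply L2ext
    intro x
    rw [lam_apply, rho_apply, hz, hz]
    have h2 : k⁻¹ * x * k ∈ O ↔ x ∈ O := by
      rw [hO, hO]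
      constructor
      · rintro ⟨l, hl, he⟩
        refine ⟨k * l, K.mul_mem hk hl, ?_⟩
        have h3 : x = k * (k⁻¹ * x * k) * k⁻¹ := by group
        rw [h3, he]
        group
      · rintro ⟨l, hl, rfl⟩
        exact ⟨k⁻¹ * l, K.mul_mem (K.inv_mem hk) hl, by group⟩
    simp only [h2]
  have h2 := cinv_zero hH (cinv_transfer hU h h1)
  have h3 := congrArg U h2
  rw [U.apply_symm_apply, map_smul, hU.1] at h3
  have h4 := congrArg (fun f : L2 Λ => f y) h3
  simp only [lp.coeFn_smul, Pi.smul_apply, delta_apply, if_neg hy, smul_zero] at h4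
  rw [hz, if_pos] at h4
  · exact one_ne_zero h4
  · rw [hO]
    exact ⟨1, K.one_mem, by group⟩

section prj

open Classical in
/-- the restriction of a vector to a set -/
noncomputable def prj (D : Set Λ) (f : L2 Λ) : L2 Λ :=
  ⟨fun x => if x ∈ D then f x else 0, by
    have h1 : Memℓp (fun x => (f : Λ → ℂ) x) 2 := f.2
    rw [memℓp_gen_iff (by norm_num)] at h1
    show Memℓp (fun x => if x ∈ D then f x else 0) 2
    rw [memℓp_gen_iff (by norm_num)]
    refine Summable.of_nonneg_of_le (fun x => by positivity) (fun x => ?_) h1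
    by_cases h : x ∈ D
    · rw [if_pos h]
    · rw [if_neg h, norm_zero, Real.zero_rpow (by norm_num)]
      positivity⟩

open Classical in
theorem prj_apply (D : Set Λ) (f : L2 Λ) (x : Λ) : prj D f x = if x ∈ D then f x else 0 := rfl

theorem prj_comm {T : L2 Λ →L[ℂ] L2 Λ} (hT : InVN T) {K : Subgroup Λ}
    (hK : ∀ y, T (delta 1) y ≠ 0 → y ∈ K) {D : Set Λ} (hD : ∀ k ∈ K, ∀ y ∈ D, k * y ∈ D)
    (f : L2 Λ) : T (prj D f) = prj D (T f) := by
  apply L2ext
  intro b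
  have h1 := apply_hasSum T (prj D f) b
  refine h1.unique ?_
  rw [prj_apply]
  by_cases hb : b ∈ D
  · rw [if_pos hb]
    convert apply_hasSum T f b using 1
    funext c
    rw [hT.delta_apply', prj_apply]
    by_cases h2 : T (delta 1) (b * c⁻¹) = 0
    · rw [h2, mul_zero, mul_zero]
    · have h3 : c ∈ D := by
        have := hD _ (K.inv_mem (hK _ h2)) b hb
        have h4 : (b * c⁻¹)⁻¹ * b = c := by group
        rwa [h4] at this
      rw [if_pos h3]
  · rw [if_neg hb]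
    convert hasSum_zero using 1
    funext c
    rw [hT.delta_apply', prj_apply]
    by_contra hne
    have h2 := hK _ (right_ne_zero_of_mul hne)
    have h3 : c ∈ D := by
      by_contra h
      rw [if_neg h, zero_mul] at hne
      exact hne rfl
    have := hD _ h2 c h3
    rw [inv_mul_cancel_right] at this
    exact hb this

theorem rho_prj (D : Set Λ) (t : Λ) (f : L2 Λ) :
    rho t (prj D f) = prj {y | y * t ∈ D} (rho t f) := by
  apply L2ext
  intro b
  rw [rho_apply, prj_apply, prj_apply, rho_apply]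
  rfl

theorem norm_prj_sq (D : Set Λ) (f : L2 Λ) :
    ‖prj D f‖ ^ 2 = ∑' y : D, ‖f y‖ ^ 2 := by
  have h1 := lp.norm_rpow_eq_tsum (p := 2) (by norm_num) (prj D f)
  have h2 : ∀ r : ℝ, r ^ (2 : ENNReal).toReal = r ^ 2 := fun r => by norm_num
  simp only [h2] at h1
  rw [h1, tsum_subtype D (fun y => ‖f y‖ ^ 2)]
  refine tsum_congr fun y => ?_
  rw [prj_apply]
  by_cases h : y ∈ D
  · rw [if_pos h, Set.indicator_of_mem h]
  · rw [if_neg h, Set.indicator_of_notMem h, norm_zero, zero_pow two_ne_zero]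

/-- only finitely many fibres carry a given amount of mass -/
theorem finite_fibres {C : Type} (r : Λ → C) (f : L2 Λ) {ε : ℝ} (hε : 0 < ε) :
    {c : C | ε ≤ ‖prj {y | r y = c} f‖ ^ 2}.Finite := by
  have h1 : Summable fun y => ‖f y‖ ^ 2 := by
    have h2 := (memℓp_gen_iff (p := 2) (by norm_num)).1 f.2
    have h3 : ∀ r : ℝ, r ^ (2 : ENNReal).toReal = r ^ 2 := fun r => by norm_num
    simpa only [h3] using h2
  have h2 : Summable fun p : (Σ c : C, {y // r y = c}) => ‖f p.2‖ ^ 2 :=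
    (Equiv.sigmaFiberEquiv r).summable_iff.2 h1
  have h3 := h2.sigma.tendsto_cofinite_zero
  have h4 : ∀ᶠ c in cofinite, (∑' y : {y // r y = c}, ‖f y‖ ^ 2) < ε :=
    h3.eventually_lt_const hε
  rw [Filter.eventually_cofinite] at h4
  refine h4.subset fun c hc => ?_
  change ε ≤ ‖prj {y | r y = c} f‖ ^ 2 at hc
  rw [norm_prj_sq] at hc
  exact not_lt.2 hc

end prj

/-- the invariance of the restriction -/
theorem supp_in (hU : IsStdIso U) {g : Γ} {K' : Subgroup Λ} {L : Set Λ} (hL : RelativelyIcc L)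
    (hF : ∀ t ∈ L, ∀ b, FF U g t b ≠ 0 → b ∈ K') {D : Set Λ}
    (hD : ∀ k ∈ K', ∀ y ∈ D, k * y ∈ D) (hD' : ∀ t ∈ L, ∀ y, y * t⁻¹ ∈ D ↔ y ∈ D) {b b' : Λ}
    (hb : U (delta g) b ≠ 0) (hbD : b ∈ D) (hb' : U (delta g) b' ≠ 0) : b' ∈ D := by
  obtain ⟨z, hz⟩ : ∃ z, z = (cv U g).symm (prj D (U (delta g))) := ⟨_, rfl⟩
  have hz' : cv U g z = prj D (U (delta g)) := by
    rw [hz, LinearIsometryEquiv.apply_symm_apply]
  have h1 : CInv L z := by
    intro t ht
    have h2 : YY U g t (prj D (U (delta g))) = rho t⁻¹ (prj D (U (delta g))) := by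
      rw [prj_comm (YY_inVN hU g t) (K := K') (fun y hy => ?_) hD, YY_x hU, rho_prj]
      · congr 1
        ext y
        exact (hD' t ht y).symm
      · rw [YY_one hU] at hy
        exact hF t ht y hy
    rw [YY_apply, ← hz', LinearIsometryEquiv.symm_apply_apply, ← cv_inVN hU.2 g] at h2
    have h3 := (cv U g).injective h2
    show lam t (rho t z) = z
    rw [← rho_lam, h3, rho_rho_inv]
  have h2 := cinv_zero hL h1
  rw [h2, map_smul, cv_one hU] at hz'
  have h3 := congrArg (fun f : L2 Λ => f b) hz'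
  have h4 := congrArg (fun f : L2 Λ => f b') hz'
  simp only [lp.coeFn_smul, Pi.smul_apply, prj_apply, if_pos hbD, smul_eq_mul] at h3 h4
  have h5 : z 1 = 1 := mul_right_cancel₀ hb (by rw [h3, one_mul])
  by_contra hne
  rw [if_neg hne, h5, one_mul] at h4
  exact hb' h4

/-- the mass of a coset -/
theorem norm_coset (hU : IsStdIso U) {g : Γ} {K' : Subgroup Λ} {t : Λ}
    (hF : ∀ b, FF U g t b ≠ 0 → b ∈ K') (b : Λ) :
    ‖prj {y | y * (b * t)⁻¹ ∈ K'} (U (delta g))‖ = ‖prj {y | y * b⁻¹ ∈ K'} (U (delta g))‖ := by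
  have h1 : YY U g t (prj {y | y * (b * t)⁻¹ ∈ K'} (U (delta g))) =
      rho t⁻¹ (prj {y | y * b⁻¹ ∈ K'} (U (delta g))) := by
    rw [prj_comm (YY_inVN hU g t) (K := K') (fun y hy => ?_) (fun k hk y hy => ?_), YY_x hU,
      rho_prj]
    · congr 1
      ext y
      show y * (b * t)⁻¹ ∈ K' ↔ y * t⁻¹ * b⁻¹ ∈ K'
      rw [mul_inv_rev, mul_assoc]
    · rw [YY_one hU] at hy
      exact hF y hy
    · show k * y * (b * t)⁻¹ ∈ K'
      rw [mul_assoc]
      exact K'.mul_mem hk hy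
  have h2 : ∀ f, ‖YY U g t f‖ = ‖f‖ := by
    intro f
    rw [YY_apply, LinearIsometryEquiv.norm_map, LinearIsometryEquiv.norm_map,
      LinearIsometryEquiv.norm_map]
  have h3 := congrArg norm h1
  rw [h2, LinearIsometryEquiv.norm_map] at h3
  exact h3

/-- **The normalisation lemma**: `θ(u_g)` is supported on one coset `K' b`. -/
theorem supp_coset (hU : IsStdIso U) {g : Γ} {K K' : Subgroup Λ}
    (hK : RelativelyIcc (K : Set Λ)) (hF : ∀ t ∈ K, ∀ b, FF U g t b ≠ 0 → b ∈ K') {b b' : Λ}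
    (hb : U (delta g) b ≠ 0) (hb' : U (delta g) b' ≠ 0) : b' * b⁻¹ ∈ K' := by
  classical
  -- finitely many cosets
  let r : Λ → Quotient (QuotientGroup.rightRel K') := fun y => Quotient.mk _ y
  have hr : ∀ y c, r y = r c ↔ y * c⁻¹ ∈ K' := by
    intro y c
    show (Quotient.mk _ y : Quotient (QuotientGroup.rightRel K')) = Quotient.mk _ c ↔ _
    rw [eq_comm, Quotient.eq, QuotientGroup.rightRel_apply]
  have hrset : ∀ c, {y | r y = r c} = {y | y * c⁻¹ ∈ K'} := fun c => Set.ext fun y => hr y c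
  have hpos : 0 < ‖prj {y | y * b⁻¹ ∈ K'} (U (delta g))‖ ^ 2 := by
    apply pow_pos
    rw [norm_pos_iff]
    intro h0
    have h1 := congrArg (fun f : L2 Λ => f b) h0
    simp only [prj_apply] at h1
    rw [if_pos (by show b * b⁻¹ ∈ K'; rw [mul_inv_cancel]; exact K'.one_mem)] at h1
    exact hb h1
  have hfin := finite_fibres r (U (delta g)) hpos
  have hmem : ∀ t ∈ K, r (b * t) ∈ {c | ‖prj {y | y * b⁻¹ ∈ K'} (U (delta g))‖ ^ 2 ≤
      ‖prj {y | r y = c} (U (delta g))‖ ^ 2} := by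
    intro t ht
    show ‖prj {y | y * b⁻¹ ∈ K'} (U (delta g))‖ ^ 2 ≤
      ‖prj {y | r y = r (b * t)} (U (delta g))‖ ^ 2
    rw [hrset, norm_coset hU (hF t ht)]
  -- the stabiliser of the coset
  let L : Set Λ := {t | t ∈ K ∧ b * t * b⁻¹ ∈ K'}
  have hL : RelativelyIcc L := by
    intro y hy hO
    have h1 : {x : Λ | ∃ t ∈ (K : Set Λ), x = t * y * t⁻¹}.Infinite := hK y hy
    apply h1
    let C : Set (Quotient (QuotientGroup.rightRel K')) := {c | ∃ t ∈ K, r (b * t) = c}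
    have hC : C.Finite := hfin.subset (by rintro c ⟨t, ht, rfl⟩; exact hmem t ht)
    have h2 : ∀ c : Quotient (QuotientGroup.rightRel K'), ∃ s : Λ, c ∈ C → s ∈ K ∧ r (b * s) = c := by
      intro c
      by_cases hc : c ∈ C
      · obtain ⟨t, ht, h⟩ := hc
        exact ⟨t, fun _ => ⟨ht, h⟩⟩
      · exact ⟨1, fun h => absurd h hc⟩
    choose s hs using h2
    refine (hC.biUnion (t := fun c => (fun x => (s c)⁻¹ * x * s c) ''
      {x : Λ | ∃ t ∈ L, x = t * y * t⁻¹}) (fun c _ => hO.image _)).subset ?_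
    rintro x ⟨t, ht, rfl⟩
    have ht' : t⁻¹ ∈ K := K.inv_mem ht
    have hc : r (b * t⁻¹) ∈ C := ⟨t⁻¹, ht', rfl⟩
    obtain ⟨hsK, hsr⟩ := hs _ hc
    rw [Set.mem_iUnion₂]
    refine ⟨r (b * t⁻¹), hc, ?_⟩
    obtain ⟨s₀, hs₀⟩ : ∃ s₀, s₀ = s (r (b * t⁻¹)) := ⟨_, rfl⟩
    rw [← hs₀] at hsK hsr ⊢
    have h3 : b * t⁻¹ * (b * s₀)⁻¹ ∈ K' := (hr _ _).1 hsr.symm
    refine ⟨s₀ * t * y * (s₀ * t)⁻¹, ⟨s₀ * t, ⟨K.mul_mem hsK ht, ?_⟩, rfl⟩, ?_⟩
    · have h4 := K'.inv_mem h3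
      have h5 : (b * t⁻¹ * (b * s₀)⁻¹)⁻¹ = b * (s₀ * t) * b⁻¹ := by group
      rwa [h5] at h4
    · show s₀⁻¹ * (s₀ * t * y * (s₀ * t)⁻¹) * s₀ = t * y * t⁻¹
      group
  refine supp_in hU hL (fun t ht => hF t ht.1) (D := {y | y * b⁻¹ ∈ K'}) ?_ ?_ hb ?_ hb'
  · intro k hk y hy
    show k * y * b⁻¹ ∈ K'
    rw [mul_assoc]
    exact K'.mul_mem hk hy
  · intro t ht y
    show y * t⁻¹ * b⁻¹ ∈ K' ↔ y * b⁻¹ ∈ K'
    have h1 : y * t⁻¹ * b⁻¹ = y * b⁻¹ * (b * t * b⁻¹)⁻¹ := by group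
    rw [h1]
    exact K'.mul_mem_cancel_right (K'.inv_mem ht.2)
  · show b * b⁻¹ ∈ K'
    rw [mul_inv_cancel]
    exact K'.one_mem

/-- `b` conjugates `K` into `K'` -/
theorem conj_mem (hU : IsStdIso U) {g : Γ} {K K' : Subgroup Λ}
    (hK : RelativelyIcc (K : Set Λ)) (hF : ∀ t ∈ K, ∀ b, FF U g t b ≠ 0 → b ∈ K') {b t : Λ}
    (hb : U (delta g) b ≠ 0) (ht : t ∈ K) : b * t * b⁻¹ ∈ K' := by
  have h1 : YY U g t (prj {y | y * b⁻¹ ∈ K'} (U (delta g))) =
      prj {y | y * b⁻¹ ∈ K'} (rho t⁻¹ (U (delta g))) := by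
    rw [prj_comm (YY_inVN hU g t) (K := K') (fun y hy => ?_) (fun k hk y hy => ?_), YY_x hU]
    · rw [YY_one hU] at hy
      exact hF t ht y hy
    · show k * y * b⁻¹ ∈ K'
      rw [mul_assoc]
      exact K'.mul_mem hk hy
  have h2 : prj {y | y * b⁻¹ ∈ K'} (U (delta g)) = U (delta g) := by
    apply L2ext
    intro y
    rw [prj_apply]
    by_cases hy : U (delta g) y = 0
    · rw [hy]
      split_ifs <;> rfl
    · have h3 : y ∈ {y | y * b⁻¹ ∈ K'} := supp_coset hU hK hF hb hy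
      rw [if_pos h3]
  rw [h2, YY_x hU] at h1
  have h3 := congrArg (fun f : L2 Λ => f (b * t)) h1
  simp only [prj_apply, rho_apply] at h3
  rw [mul_inv_cancel_right] at h3
  by_contra hne
  have hne' : b * t ∉ {y | y * b⁻¹ ∈ K'} := hne
  rw [if_neg hne'] at h3
  exact hb h3

theorem FF_supp' {H H' : Set Γ} {K K' : Subgroup Λ} (hH : Compat U H K)
    (hH' : Compat U H' K') {a : Γ} (ha : ∀ n ∈ H, a * n * a⁻¹ ∈ H') {t : Λ}
    (ht : t ∈ K) (b : Λ) (hb : FF U a t b ≠ 0) : b ∈ K' := by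
  refine Compat.supp hH' (fun x hx => ?_) b hb
  rw [lam_apply, rho_apply] at hx
  have h1 := ha _ (hH.2 t ht _ hx)
  have h2 : a * (a⁻¹ * x * a) * a⁻¹ = x := by group
  rwa [h2] at h1

/-- **One coset.** -/
theorem one_coset (hU : IsStdIso U) {H H' : Set Γ} {K K' : Subgroup Λ} (hH : Compat U H K)
    (hH' : Compat U H' K') (hicc : RelativelyIcc H) {g : Γ} (hg : ∀ n ∈ H, g * n * g⁻¹ ∈ H') :
    ∃ b : Λ, (∀ t ∈ K, b * t * b⁻¹ ∈ K') ∧ ∀ y, U (delta g) y ≠ 0 → y * b⁻¹ ∈ K' := by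
  obtain ⟨b, hb⟩ := exists_supp (U := U) g
  have hK := relicc_transfer hU hH hicc
  have hF : ∀ t ∈ K, ∀ b, FF U g t b ≠ 0 → b ∈ K' := fun t ht b hb => FF_supp' hH hH' hg ht b hb
  exact ⟨b, fun t ht => conj_mem hU hK hF hb ht, fun y hy => supp_coset hU hK hF hb hy⟩

/-- **Group-like elements from a family with trivial intersection.** -/
theorem gl_of_family (hU : IsStdIso U) {g : Γ} {F : Set (Subgroup Γ)}
    (hF : ∀ H' ∈ F, Pres U H' ∧ ∃ H : Subgroup Γ, Pres U H ∧ RelativelyIcc (H : Set Γ) ∧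
      ∀ n ∈ H, g * n * g⁻¹ ∈ H') (h1 : ∀ x : Γ, (∀ H' ∈ F, x ∈ H') → x = 1) :
    ∃ c k, Glk U g c k := by
  apply gl_of_single
  intro y y' hy hy'
  have h2 : ∀ H' ∈ F, ∃ K' : Subgroup Λ, Compat U (H' : Set Γ) K' ∧ y * y'⁻¹ ∈ K' := by
    intro H' hH'
    obtain ⟨⟨K', hK'⟩, H, ⟨K, hK⟩, hicc, hg⟩ := hF H' hH'
    exact ⟨K', hK', supp_coset hU (relicc_transfer hU hK hicc)
      (fun t ht b hb => FF_supp' hK hK' hg ht b hb) hy' hy⟩
  refine mul_inv_eq_one.1 (eq_one_of_supp hU fun x hx => h1 x fun H' hH' => ?_)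
  obtain ⟨K', hK', hmem⟩ := h2 H' hH'
  exact hK'.2 _ hmem x hx

end Pool.Agent.J4.H1.VN
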