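import Pool.Agent.J4.H1.VN.SDefs2
import Pool.Agent.K4H1.VN.Stm

/-!
# Subalgebras preserved up to unitary conjugacy: the definitions of the statement
-/

set_option autoImplicit false

namespace Pool.Agent.J4.H1.VN

open Pool.Agent.K4H1.VN

variable {Γ Λ : Type} [Group Γ] [Group Λ]

/-- the operator `w⁻¹ θ(T) w` -/
noncomputable def VNIso.mapConj (θ : VNIso Γ Λ) (w : Uni Λ) (T : L2 Γ → L2 Γ) : L2 Λ → L2 Λ :=
  fun f => w.symm (θ.map T (w f))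

/-- `θ(L(H)) = w L(K) w⁻¹` -/
def MapsConj (θ : VNIso Γ Λ) (w : Uni Λ) (H : Set Γ) (K : Set Λ) : Prop :=
  ∀ T : L2 Γ →L[ℂ] L2 Γ, InVN T → (SuppOn T H ↔ SuppOn (θ.mapConj w T) K)

/-- `θ(L(H)) = w L(K) w⁻¹` for a unitary `w` of `L(Λ)` -/
def ConjAlg (θ : VNIso Γ Λ) (H : Set Γ) (K : Set Λ) : Prop :=
  ∃ w : Uni Λ, InVN w ∧ MapsConj θ w H K

/-- `θ(L(H))` is unitarily conjugate to the algebra of a subgroup of `Λ` -/
def PreservedUpToConj (θ : VNIso Γ Λ) (H : Set Γ) : Prop :=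
  ∃ K : Subgroup Λ, ConjAlg θ H (K : Set Λ)

/-- `w⁻¹ θ(u_g) w` is supported on the set `{y | φ(y) = g N}`, for all `g` in `Γ` -/
def FollowsCosets (θ : VNIso Γ Λ) (w : Uni Λ) (N : Subgroup Γ) [N.Normal] (φ : Λ →* Γ ⧸ N) :
    Prop :=
  ∀ g : Γ, SuppOn (θ.mapConj w (lam g)) {y | φ y = (g : Γ ⧸ N)}

end Pool.Agent.J4.H1.VN
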