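import Pool.Agent.J4.H1.VN.Fam
import Pool.Agent.J4.H1.VN.SDefs4

/-!
# Normal subgroups whose algebras are preserved up to unitary conjugacy
-/

set_option autoImplicit false
set_option linter.unusedSectionVars false

namespace Pool.Agent.J4.H1.VN

open Pool.Agent.K4H1.VN Pool.Agent.Y276.Rig Filter Topology
open scoped ComplexConjugate InnerProductSpace

variable {Γ Λ : Type} [Group Γ] [Group Λ]

section Std

variable {U : L2 Γ ≃ₗᵢ[ℂ] L2 Λ}

/-- the coefficients of `U δ_g` and of `U⁻¹ δ_y` -/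
theorem coeff_symm (g : Γ) (y : Λ) : U (delta g) y ≠ 0 ↔ U.symm (delta y) g ≠ 0 := by
  have h1 : ⟪(delta y : L2 Λ), U (delta g)⟫_ℂ = ⟪U.symm (delta y), (delta g : L2 Γ)⟫_ℂ := by
    rw [← U.inner_map_map, U.apply_symm_apply]
  rw [inner_delta] at h1
  have h2 : ⟪U.symm (delta y), (delta g : L2 Γ)⟫_ℂ = conj (U.symm (delta y) g) := by
    rw [← inner_conj_symm, inner_delta]
  rw [h2] at h1
  rw [h1, ne_eq, ne_eq, map_eq_zero]

/-- the support of a product -/
theorem supp_mul (hU : IsStdIso U) {a b : Γ} {x : Λ} (hx : U (delta (a * b)) x ≠ 0) :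
    ∃ c, U (delta b) c ≠ 0 ∧ U (delta a) (x * c⁻¹) ≠ 0 := by
  by_contra hcon
  push Not at hcon
  apply hx
  have h1 := apply_hasSum (th U (tl (lam a))) (U (delta b)) x
  rw [th_lam_apply, lam_delta] at h1
  refine h1.unique ?_
  convert hasSum_zero using 1
  funext c
  rw [(inVN_th hU a).delta_apply', th_lam_delta hU]
  by_cases h2 : U (delta b) c = 0
  · rw [h2, zero_mul]
  · rw [hcon c h2, mul_zero]

/-- **Normal subgroups.** -/
theorem normal_step (hU : IsStdIso U) {N : Subgroup Γ} [hN : N.Normal] {K : Subgroup Λ}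
    (hicc : RelativelyIcc (N : Set Γ)) (h : Compat U (N : Set Γ) K) :
    K.Normal ∧ ∃ φ : Λ →* Γ ⧸ N, Function.Surjective φ ∧ φ.ker = K ∧
      ∀ g y, U (delta g) y ≠ 0 → φ y = (g : Γ ⧸ N) := by
  classical
  have hK : K.Normal := by
    refine ⟨fun t ht c => ?_⟩
    obtain ⟨g, hg⟩ := exists_supp (U := U.symm) c
    obtain ⟨b, hb, hb'⟩ := one_coset hU h h hicc (g := g) fun n hn => hN.conj_mem n hn g
    have h1 := hb' c ((coeff_symm g c).2 hg)
    have h2 := K.mul_mem (K.mul_mem h1 (hb t ht)) (K.inv_mem h1)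
    have h3 : c * b⁻¹ * (b * t * b⁻¹) * (c * b⁻¹)⁻¹ = c * t * c⁻¹ := by group
    rwa [h3] at h2
  refine ⟨hK, ?_⟩
  have hKicc := relicc_transfer hU h hicc
  have hs := Compat.symm_subgroup h
  have key : ∀ y : Λ, ∃ q : Γ ⧸ N, ∀ x, U.symm (delta y) x ≠ 0 → (x : Γ ⧸ N) = q := by
    intro y
    obtain ⟨b, -, hb⟩ := one_coset hU.symm hs hs hKicc (g := y) fun n hn => hK.conj_mem n hn y
    refine ⟨(b : Γ ⧸ N), fun x hx => ?_⟩
    have h1 := hb x hx
    rw [eq_comm, QuotientGroup.eq]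
    have h2 := hN.conj_mem _ h1 b⁻¹
    have h3 : b⁻¹ * (x * b⁻¹) * b⁻¹⁻¹ = b⁻¹ * x := by group
    rwa [h3] at h2
  choose q hq using key
  have hmul : ∀ y y', q (y * y') = q y * q y' := by
    intro y y'
    obtain ⟨x, hx⟩ := exists_supp (U := U.symm) (y * y')
    obtain ⟨c, hc, hc'⟩ := supp_mul hU.symm hx
    rw [← hq _ x hx, ← hq _ _ hc', ← hq _ c hc, ← QuotientGroup.mk_mul, inv_mul_cancel_right]
  have hone : q 1 = 1 := by
    have := hmul 1 1
    rw [mul_one] at this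
    exact (mul_eq_left.1 this.symm)
  refine ⟨⟨⟨q, hone⟩, hmul⟩, ?_, ?_, ?_⟩
  · intro c
    induction c using QuotientGroup.induction_on with
    | H g =>
      obtain ⟨y, hy⟩ := exists_supp (U := U) g
      exact ⟨y, (hq y g ((coeff_symm g y).1 hy)).symm⟩
  · ext y
    rw [MonoidHom.mem_ker]
    show q y = 1 ↔ y ∈ K
    constructor
    · intro hy
      have h1 : ∀ x, U.symm (delta y) x ≠ 0 → x ∈ (N : Set Γ) := by
        intro x hx
        have := hq y x hx
        rw [hy] at this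
        exact (QuotientGroup.eq_one_iff x).1 this
      refine Compat.supp h h1 y ?_
      rw [U.apply_symm_apply, delta_apply, if_pos rfl]
      exact one_ne_zero
    · intro hy
      obtain ⟨x, hx⟩ := exists_supp (U := U.symm) y
      rw [← hq y x hx]
      exact (QuotientGroup.eq_one_iff x).2 (h.2 y hy x hx)
  · intro g y hy
    exact (hq y g ((coeff_symm g y).1 hy)).symm

/-- an operator shifts a decomposition -/
theorem prj_shift {T : L2 Λ →L[ℂ] L2 Λ} (hT : InVN T) {E D D' : Set Λ}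
    (hE : ∀ y, T (delta 1) y ≠ 0 → y ∈ E) (hD : ∀ e ∈ E, ∀ y, e * y ∈ D' ↔ y ∈ D) (f : L2 Λ) :
    T (prj D f) = prj D' (T f) := by
  apply L2ext
  intro b
  have h1 := apply_hasSum T (prj D f) b
  refine h1.unique ?_
  rw [prj_apply]
  by_cases hb : b ∈ D'
  · rw [if_pos hb]
    convert apply_hasSum T f b using 1
    funext c
    rw [hT.delta_apply', prj_apply]
    by_cases h2 : T (delta 1) (b * c⁻¹) = 0
    · rw [h2, mul_zero, mul_zero]
    · have h3 : c ∈ D := by
        rw [← hD _ (hE _ h2) c, inv_mul_cancel_right]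
        exact hb
      rw [if_pos h3]
  · rw [if_neg hb]
    convert hasSum_zero using 1
    funext c
    rw [hT.delta_apply', prj_apply]
    by_contra hne
    have h2 := hE _ (right_ne_zero_of_mul hne)
    have h3 : c ∈ D := by
      by_contra h
      rw [if_neg h, zero_mul] at hne
      exact hne rfl
    rw [← hD _ h2 c, inv_mul_cancel_right] at h3
    exact hb h3

end Std

section Uniq

variable {Q : Type} [Group Q]

/-- **Uniqueness of the unitary.** A unitary `v` with `v u_s v⁻¹` supported on `{ψ = β(s)}` for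
all `s` is supported on one set `{ψ = c}`, and `β(s) = c ψ(s) c⁻¹`. -/
theorem one_fibre (hicc : IsIcc Λ) {v : Uni Λ} (hv : InVN v) {ψ β : Λ →* Q}
    (h : ∀ s y, v (lam s (v.symm (delta 1))) y ≠ 0 → ψ y = β s) :
    ∃ c : Q, (∀ y, v (delta 1) y ≠ 0 → ψ y = c) ∧ ∀ s, β s = c * ψ s * c⁻¹ := by
  classical
  obtain ⟨η, hη⟩ : ∃ η, η = v (delta 1) := ⟨_, rfl⟩
  have hη0 : η ≠ 0 := by
    intro h0
    have h1 : ‖η‖ = 1 := by rw [hη, LinearIsometryEquiv.norm_map, norm_delta]
    rw [h0, norm_zero] at h1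
    exact zero_ne_one h1
  obtain ⟨b, hb⟩ : ∃ b, η b ≠ 0 := by
    by_contra hcon
    push Not at hcon
    exact hη0 (L2ext hcon)
  -- the operators `v u_s v⁻¹`
  let Y : Λ → L2 Λ →L[ℂ] L2 Λ := fun s => tl ((v.symm.trans (lam s)).trans v)
  have hYa : ∀ s f, Y s f = v (lam s (v.symm f)) := fun s f => rfl
  have hY : ∀ s, InVN (Y s) := by
    intro s k f
    rw [hYa, hYa, symm_inVN hv, ← rho_lam, hv]
  have hYη : ∀ s, Y s η = rho s⁻¹ η := by
    intro s
    have h2 : (delta s : L2 Λ) = rho s⁻¹ (delta 1) := by rw [rho_delta, inv_inv, one_mul]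
    rw [hYa, hη, v.symm_apply_apply, lam_delta, mul_one, h2, hv]
  let D : Q → Set Λ := fun q => {y | ψ y = q}
  have hshift : ∀ s q, Y s (prj (D q) η) = rho s⁻¹ (prj (D (β s * q * (ψ s)⁻¹)) η) := by
    intro s q
    rw [prj_shift (hY s) (E := {y | ψ y = β s}) (D' := D (β s * q)) (fun y hy => h s y hy)
      (fun e he y => ?_), hYη, rho_prj]
    · congr 1
      ext y
      show ψ y = β s * q ↔ ψ (y * s⁻¹) = β s * q * (ψ s)⁻¹
      rw [map_mul, map_inv, mul_left_inj]
    · show ψ (e * y) = β s * q ↔ ψ y = q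
      rw [map_mul, show ψ e = β s from he, mul_right_inj]
  have hnorm : ∀ s q, ‖prj (D (β s * q * (ψ s)⁻¹)) η‖ = ‖prj (D q) η‖ := by
    intro s q
    have h1 := congrArg norm (hshift s q)
    rw [LinearIsometryEquiv.norm_map, hYa, LinearIsometryEquiv.norm_map,
      LinearIsometryEquiv.norm_map, LinearIsometryEquiv.norm_map] at h1
    exact h1.symm
  obtain ⟨q₀, hq₀⟩ : ∃ q₀, q₀ = ψ b := ⟨_, rfl⟩
  have hbD : b ∈ D q₀ := hq₀.symm
  have hpos : 0 < ‖prj (D q₀) η‖ ^ 2 := by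
    apply pow_pos
    rw [norm_pos_iff]
    intro h0
    have h1 := congrArg (fun f : L2 Λ => f b) h0
    simp only [prj_apply] at h1
    rw [if_pos hbD] at h1
    exact hb h1
  have hfin := finite_fibres (ψ : Λ → Q) η hpos
  -- the stabiliser
  let L : Subgroup Λ := {
    carrier := {s | β s * q₀ * (ψ s)⁻¹ = q₀}
    one_mem' := by
      show β 1 * q₀ * (ψ 1)⁻¹ = q₀
      rw [map_one, map_one, one_mul, inv_one, mul_one]
    mul_mem' := by
      intro s t (hs : β s * q₀ * (ψ s)⁻¹ = q₀) (ht : β t * q₀ * (ψ t)⁻¹ = q₀)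
      show β (s * t) * q₀ * (ψ (s * t))⁻¹ = q₀
      have h1 : β (s * t) * q₀ * (ψ (s * t))⁻¹ = β s * (β t * q₀ * (ψ t)⁻¹) * (ψ s)⁻¹ := by
        rw [map_mul, map_mul]
        group
      rw [h1, ht, hs]
    inv_mem' := by
      intro s (hs : β s * q₀ * (ψ s)⁻¹ = q₀)
      show β s⁻¹ * q₀ * (ψ s⁻¹)⁻¹ = q₀
      rw [map_inv, map_inv, inv_inv]
      have h1 : q₀ = (β s)⁻¹ * (β s * q₀ * (ψ s)⁻¹) * ψ s := by group
      rw [hs] at h1
      exact h1.symm }
  have hL : L.FiniteIndex := by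
    have h1 : Finite (Λ ⧸ L) := by
      let f : Λ ⧸ L → {c : Q | ‖prj (D q₀) η‖ ^ 2 ≤ ‖prj {y | ψ y = c} η‖ ^ 2} :=
        Quotient.lift (fun s => ⟨β s * q₀ * (ψ s)⁻¹, by
          show ‖prj (D q₀) η‖ ^ 2 ≤ ‖prj (D (β s * q₀ * (ψ s)⁻¹)) η‖ ^ 2
          rw [hnorm]⟩) (by
          intro s t hst
          have hst' : s⁻¹ * t ∈ L := QuotientGroup.leftRel_apply.1 hst
          have h2 : β (s⁻¹ * t) * q₀ * (ψ (s⁻¹ * t))⁻¹ = q₀ := hst'
          apply Subtype.ext
          show β s * q₀ * (ψ s)⁻¹ = β t * q₀ * (ψ t)⁻¹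
          conv_lhs => rw [← h2]
          rw [map_mul, map_mul, map_inv, map_inv]
          group)
      have hf : Function.Injective f := by
        intro x y
        induction x using QuotientGroup.induction_on with
        | H s =>
        induction y using QuotientGroup.induction_on with
        | H t =>
          intro hst
          have h2 : β s * q₀ * (ψ s)⁻¹ = β t * q₀ * (ψ t)⁻¹ := congrArg Subtype.val hst
          rw [QuotientGroup.eq]
          show β (s⁻¹ * t) * q₀ * (ψ (s⁻¹ * t))⁻¹ = q₀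
          have h3 : β (s⁻¹ * t) * q₀ * (ψ (s⁻¹ * t))⁻¹ =
              (β s)⁻¹ * (β t * q₀ * (ψ t)⁻¹) * ψ s := by
            rw [map_mul, map_mul, map_inv, map_inv]
            group
          rw [h3, ← h2]
          group
      have := hfin.to_subtype
      exact Finite.of_injective f hf
    exact Subgroup.finiteIndex_of_finite_quotient
  have hLicc := relicc_of_finiteIndex hicc hL
  obtain ⟨z, hz⟩ : ∃ z, z = v.symm (prj (D q₀) η) := ⟨_, rfl⟩
  have hz' : v z = prj (D q₀) η := by rw [hz, v.apply_symm_apply]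
  have hzinv : CInv (L : Set Λ) z := by
    intro s hs
    have hs' : β s * q₀ * (ψ s)⁻¹ = q₀ := hs
    have h1 := hshift s q₀
    rw [hs', ← hz', hYa, v.symm_apply_apply, ← hv] at h1
    have h2 := v.injective h1
    rw [← rho_lam, h2, rho_rho_inv]
  have h2 := cinv_zero hLicc hzinv
  rw [h2, map_smul, ← hη] at hz'
  have h3 := congrArg (fun f : L2 Λ => f b) hz'
  simp only [lp.coeFn_smul, Pi.smul_apply, prj_apply, if_pos hbD, smul_eq_mul] at h3
  have h5 : z 1 = 1 := mul_right_cancel₀ hb (by rw [h3, one_mul])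
  rw [h5, one_smul] at hz'
  have hone : ∀ y, η y ≠ 0 → ψ y = q₀ := by
    intro y hy
    by_contra hne
    rw [hz', prj_apply, if_neg (show y ∉ D q₀ from hne)] at hy
    exact hy rfl
  refine ⟨q₀, fun y hy => hone y (by rw [hη]; exact hy), fun s => ?_⟩
  have h6 : 0 < ‖prj (D (β s * q₀ * (ψ s)⁻¹)) η‖ ^ 2 := by rw [hnorm]; exact hpos
  have h7 : ∃ y, y ∈ D (β s * q₀ * (ψ s)⁻¹) ∧ η y ≠ 0 := by
    by_contra hcon
    push Not at hcon
    have h8 : prj (D (β s * q₀ * (ψ s)⁻¹)) η = 0 := by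
      apply L2ext
      intro y
      rw [prj_apply]
      by_cases hy : y ∈ D (β s * q₀ * (ψ s)⁻¹)
      · rw [if_pos hy, hcon y hy]
        rfl
      · rw [if_neg hy]
        rfl
    rw [h8, norm_zero] at h6
    norm_num at h6
  obtain ⟨y, hy, hy'⟩ := h7
  have h9 : ψ y = β s * q₀ * (ψ s)⁻¹ := hy
  rw [hone y hy'] at h9
  have h10 : β s = β s * q₀ * (ψ s)⁻¹ * ψ s * q₀⁻¹ := by group
  rw [← h9] at h10
  exact h10

end Uniq

end Pool.Agent.J4.H1.VN
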