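import Pool.Agent.J4.H1.VN.Prof

/-!
# Compatibility of the isomorphisms of the quotients
-/

set_option autoImplicit false
set_option linter.unusedSectionVars false

namespace Pool.Agent.J4.H1.VN

open Pool.Agent.K4H1.VN Pool.Agent.Y276.Rig Filter Topology
open scoped ComplexConjugate InnerProductSpace

variable {Γ Λ : Type} [Group Γ] [Group Λ] {θ : VNIso Γ Λ}

/-- `U` implements `w⁻¹ θ w` in the standard form -/
def StdFor (θ : VNIso Γ Λ) (w : Uni Λ) (U : L2 Γ ≃ₗᵢ[ℂ] L2 Λ) : Prop :=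
  IsStdIso U ∧ ∀ T : L2 Γ →L[ℂ] L2 Γ, InVN T → ∀ f, U (T (U.symm f)) = θ.mapConj w T f

theorem exists_stdFor (hicc : IsIcc Γ) (θ : VNIso Γ Λ) {w : Uni Λ} (hw : InVN w) :
    ∃ U, StdFor θ w U := by
  have h1 : InVN' (LinearIsometryEquiv.refl ℂ (L2 Λ)) := fun g f => rfl
  exact exists_std_conj hicc (spatial_twist θ.isIso hw h1)

theorem StdFor.compat {w : Uni Λ} {U : L2 Γ ≃ₗᵢ[ℂ] L2 Λ} (h : StdFor θ w U) {H : Subgroup Γ}
    {K : Subgroup Λ} (hH : MapsConj θ w (H : Set Γ) (K : Set Λ)) : Compat U (H : Set Γ) K := by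
  have h1 : MapsSub U (H : Set Γ) K := by
    intro T hT
    rw [h.2 T hT]
    exact hH T hT
  exact h1.compat h.1

theorem StdFor.mapsConj {w : Uni Λ} {U : L2 Γ ≃ₗᵢ[ℂ] L2 Λ} (h : StdFor θ w U) {H : Subgroup Γ}
    {K : Subgroup Λ} (hH : Compat U (H : Set Γ) K) : MapsConj θ w (H : Set Γ) (K : Set Λ) := by
  intro T hT
  have h1 : ∀ y, θ.mapConj w T (delta 1) y = U (T (delta 1)) y := by
    intro y
    rw [← h.2 T hT, h.1.symm_one]
  constructor
  · intro h2 y hy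
    rw [h1]
    by_contra hne
    exact hy (Compat.supp hH (f := T (delta 1)) (fun x hx => by
      by_contra h3
      exact hx (h2 x h3)) y hne)
  · intro h2 x hx
    by_contra hne
    refine hx (Compat.supp (Compat.symm_subgroup hH) (f := U (T (delta 1))) (fun y hy => ?_) x ?_)
    · by_contra h3
      rw [← h1] at hy
      exact hy (h2 y h3)
    · rw [U.symm_apply_apply]
      exact hne

theorem StdFor.follows {w : Uni Λ} {U : L2 Γ ≃ₗᵢ[ℂ] L2 Λ} (h : StdFor θ w U) {N : Subgroup Γ}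
    [N.Normal] {φ : Λ →* Γ ⧸ N} : FollowsCosets θ w N φ ↔
      ∀ g y, U (delta g) y ≠ 0 → φ y = (g : Γ ⧸ N) := by
  have h1 : ∀ g y, θ.mapConj w (lam g) (delta 1) y = U (delta g) y := by
    intro g y
    have h2 := h.2 (tl (lam g)) (inVN_lam g) (delta 1)
    have h3 : U (lam g (U.symm (delta 1))) = θ.mapConj w (lam g) (delta 1) := h2
    rw [← h3, h.1.symm_one, lam_delta, mul_one]
  constructor
  · intro h2 g y hy
    by_contra hne
    have h3 := h2 g y hne
    rw [h1] at h3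
    exact hy h3
  · intro h2 g y hy
    rw [h1]
    by_contra hne
    exact hy (h2 g y hne)

/-- linear expansion -/
theorem exists_coeff {U : L2 Γ ≃ₗᵢ[ℂ] L2 Λ} {f : L2 Γ} {y : Λ} (hy : U f y ≠ 0) :
    ∃ g, f g ≠ 0 ∧ U (delta g) y ≠ 0 := by
  by_contra hcon
  push Not at hcon
  apply hy
  have h1 : HasSum (fun x => f x • U (delta x)) (U f) := by
    have := (clm U).hasSum (hasSum_delta f)
    simpa [clm_apply] using this
  have h2 := (innerSL ℂ (delta y : L2 Λ)).hasSum h1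
  simp only [innerSL_apply_apply, inner_delta] at h2
  refine h2.unique ?_
  convert hasSum_zero using 1
  funext x
  rw [lp.coeFn_smul, Pi.smul_apply, smul_eq_mul]
  by_cases hx : f x = 0
  · rw [hx, zero_mul]
  · rw [hcon x hx, mul_zero]

/-- **(A)** -/
theorem quot_iso {N : Subgroup Γ} [N.Normal] (hN : RelativelyIcc (N : Set Γ)) {w : Uni Λ}
    (hw : InVN w) {K : Subgroup Λ} (h : MapsConj θ w (N : Set Γ) (K : Set Λ)) :
    K.Normal ∧ ∃ φ : Λ →* Γ ⧸ N, Function.Surjective φ ∧ φ.ker = K ∧ FollowsCosets θ w N φ := by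
  obtain ⟨U, hU⟩ := exists_stdFor hN.isIcc θ hw
  obtain ⟨h1, φ, h2, h3, h4⟩ := normal_step hU.1 hN (hU.compat h)
  exact ⟨h1, φ, h2, h3, hU.follows.2 h4⟩

/-- the algebras of the intermediate subgroups -/
theorem intermediate {N : Subgroup Γ} [N.Normal] (hicc : IsIcc Γ) {w : Uni Λ}
    (hw : InVN w) {φ : Λ →* Γ ⧸ N} (h : FollowsCosets θ w N φ) {H : Subgroup Γ} (hH : N ≤ H) :
    MapsConj θ w (H : Set Γ) ((H.map (QuotientGroup.mk' N)).comap φ : Set Λ) := by
  obtain ⟨U, hU⟩ := exists_stdFor hicc θ hw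
  have h1 := hU.follows.1 h
  refine hU.mapsConj ⟨fun g hg y hy => ?_, fun k hk x hx => ?_⟩
  · rw [Subgroup.mem_comap, h1 g y hy]
    exact ⟨g, hg, rfl⟩
  · rw [← coeff_symm] at hx
    rw [Subgroup.mem_comap, h1 x k hx] at hk
    obtain ⟨g, hg, hgx⟩ := hk
    have h2 : (g : Γ ⧸ N) = (x : Γ ⧸ N) := hgx
    have h3 := H.mul_mem hg (hH (QuotientGroup.eq.1 h2))
    rwa [mul_inv_cancel_left] at h3

/-- **(B)** -/
theorem two_steps (hicc : IsIcc Γ) {N N' : Subgroup Γ} [N.Normal] [N'.Normal] (hNN : N ≤ N')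
    {w w' : Uni Λ} (hw : InVN w) (hw' : InVN w') {φ : Λ →* Γ ⧸ N} {φ' : Λ →* Γ ⧸ N'}
    (h : FollowsCosets θ w N φ) (h' : FollowsCosets θ w' N' φ') :
    ∃ c : Γ ⧸ N', (∀ y, w'.symm (w (delta 1)) y ≠ 0 → φ' y = c) ∧
      ∀ s, QuotientGroup.map N N' (MonoidHom.id Γ) hNN (φ s) = c * φ' s * c⁻¹ := by
  obtain ⟨U, hU⟩ := exists_stdFor hicc θ hw
  obtain ⟨U', hU'⟩ := exists_stdFor hicc θ hw'
  have h1 := hU.follows.1 h
  have h1' := hU'.follows.1 h'
  have hiccΛ : IsIcc Λ := by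
    have h2 : Compat U ((⊤ : Subgroup Γ) : Set Γ) (⊤ : Subgroup Λ) :=
      ⟨fun _ _ _ _ => trivial, fun _ _ _ _ => trivial⟩
    have h3 : RelativelyIcc ((⊤ : Subgroup Γ) : Set Γ) := by
      intro x hx
      refine (hicc x hx).mono ?_
      rintro y ⟨k, rfl⟩
      exact ⟨k, trivial, rfl⟩
    exact (relicc_transfer hU.1 h2 h3).isIcc
  obtain ⟨v, hv⟩ : ∃ v : Uni Λ, v = w.trans w'.symm := ⟨_, rfl⟩
  have hvf : ∀ f, v f = w'.symm (w f) := fun f => by rw [hv]; rfl
  have hvs : ∀ f, v.symm f = w.symm (w' f) := fun f => by rw [hv]; rfl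
  have hvN : InVN v := by
    intro g f
    rw [hvf, hvf, hw, symm_inVN hw']
  have key : ∀ s y, v (lam s (v.symm (delta 1))) y ≠ 0 →
      φ' y = ((QuotientGroup.map N N' (MonoidHom.id Γ) hNN).comp φ) s := by
    intro s y hy
    obtain ⟨T, hT⟩ : ∃ T : L2 Γ →L[ℂ] L2 Γ, T = th U.symm (tl (lam s)) := ⟨_, rfl⟩
    have h2 : InVN T := by rw [hT]; exact inVN_th hU.1.symm s
    have hTa : ∀ f, T f = U.symm (lam s (U f)) := fun f => by rw [hT]; rfl
    have h3 := hU'.2 T h2 (delta 1)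
    have h4 : ∀ f, θ.mapConj w T f = lam s f := by
      intro f
      rw [← hU.2 T h2 f, hTa, U.apply_symm_apply, U.apply_symm_apply]
    have h5 : θ.mapConj w' T (delta 1) = v (lam s (v.symm (delta 1))) := by
      rw [hvf, hvs, ← h4]
      show w'.symm (θ.map T (w' (delta 1))) =
        w'.symm (w (w.symm (θ.map T (w (w.symm (w' (delta 1)))))))
      rw [w.apply_symm_apply, w.apply_symm_apply]
    rw [← h5, ← h3, hU'.1.symm_one, hTa, hU.1.1, lam_delta, mul_one] at hy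
    obtain ⟨g, hg, hg'⟩ := exists_coeff hy
    rw [h1' g y hg', MonoidHom.comp_apply, h1 g s ((coeff_symm g s).2 hg)]
    rfl
  obtain ⟨c, hc, hc'⟩ := one_fibre hiccΛ hvN key
  exact ⟨c, fun y hy => hc y (by rwa [hvf]), hc'⟩

/-- changing `w` by a group element -/
theorem follows_conj {N : Subgroup Γ} [N.Normal] {w : Uni Λ} (hw : InVN w) {φ : Λ →* Γ ⧸ N}
    (h : FollowsCosets θ w N φ) (t : Λ) :
    InVN ((lam t).trans w) ∧
      FollowsCosets θ ((lam t).trans w) N ((MulAut.conj (φ t)).toMonoidHom.comp φ) := by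
  refine ⟨fun g f => ?_, fun g y hy => ?_⟩
  · show w (lam t (rho g f)) = rho g (w (lam t f))
    rw [← rho_lam, hw]
  · show (lam t).symm (w.symm (θ.map (lam g) (w (lam t (delta 1))))) y = 0
    have h1 : (lam t (delta 1) : L2 Λ) = rho t⁻¹ (delta 1) := by
      rw [lam_delta, rho_delta, inv_inv, one_mul, mul_one]
    have h2 : ∀ f : L2 Λ, (lam t).symm f y = f (t * y) := by
      intro f
      have h3 : (lam t).symm f = lam t⁻¹ f := by
        apply (lam t).injective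
        rw [LinearIsometryEquiv.apply_symm_apply]
        apply L2ext
        intro x
        rw [lam_apply, lam_apply, inv_inv, mul_inv_cancel_left]
      rw [h3, lam_apply, inv_inv]
    have h3 : θ.map (lam g) (rho t⁻¹ (w (delta 1))) = rho t⁻¹ (θ.map (lam g) (w (delta 1))) :=
      (θ.isIso (tl (lam g))).1 (inVN_lam g) t⁻¹ (w (delta 1))
    rw [h2, h1, hw, h3, symm_inVN hw, rho_apply]
    refine h g _ fun h4 => hy ?_
    have h5 : φ (t * y * t⁻¹) = (g : Γ ⧸ N) := h4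
    show φ t * φ y * (φ t)⁻¹ = (g : Γ ⧸ N)
    rw [← h5, map_mul, map_mul, map_inv]

end Pool.Agent.J4.H1.VN
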