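import Pool.Agent.J4.H1.VN.Prof2
import Pool.Agent.J4.H1.VN.InvL

/-!
# The inverse limit, and profinite completions
-/

set_option autoImplicit false
set_option linter.unusedSectionVars false

namespace Pool.Agent.J4.H1.VN

open Pool.Agent.K4H1.VN Pool.Agent.Y276.Rig

variable {Γ Λ : Type} [Group Γ] [Group Λ] {θ : VNIso Γ Λ}

/-- the surjective homomorphisms which are followed by `θ` up to a unitary -/
def Good (θ : VNIso Γ Λ) (N : Subgroup Γ) [N.Normal] (φ : Λ →* Γ ⧸ N) : Prop :=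
  Function.Surjective φ ∧ ∃ w : Uni Λ, InVN w ∧ FollowsCosets θ w N φ

theorem Good.mapsConj (hicc : IsIcc Γ) {N : Subgroup Γ} [N.Normal] {φ : Λ →* Γ ⧸ N} {w : Uni Λ}
    (hw : InVN w) (h : FollowsCosets θ w N φ) : MapsConj θ w (N : Set Γ) (φ.ker : Set Λ) := by
  have h1 := intermediate hicc hw h (le_refl N)
  have h2 : (N.map (QuotientGroup.mk' N)).comap φ = φ.ker := by
    have h3 : N.map (QuotientGroup.mk' N) = ⊥ := by
      rw [Subgroup.map_eq_bot_iff, QuotientGroup.ker_mk']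
    rw [h3]
    rfl
  rwa [h2] at h1

theorem good_of {N : Subgroup Γ} [N.Normal] (hN : RelativelyIcc (N : Set Γ))
    {K : Subgroup Λ} (h : ConjAlg θ (N : Set Γ) (K : Set Λ)) :
    ∃ φ : Λ →* Γ ⧸ N, Good θ N φ ∧ φ.ker = K := by
  obtain ⟨w, hw, h⟩ := h
  obtain ⟨-, φ, h1, h2, h3⟩ := quot_iso hN hw h
  exact ⟨φ, ⟨h1, w, hw, h3⟩, h2⟩

theorem good_two (hicc : IsIcc Γ) {N N' : Subgroup Γ} [N.Normal] [N'.Normal] (hNN : N ≤ N')
    {φ : Λ →* Γ ⧸ N} {φ' : Λ →* Γ ⧸ N'} (h : Good θ N φ) (h' : Good θ N' φ') :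
    ∃ t : Λ, ∀ s, QuotientGroup.map N N' (MonoidHom.id Γ) hNN (φ s) = φ' t * φ' s * (φ' t)⁻¹ := by
  obtain ⟨-, w, hw, h⟩ := h
  obtain ⟨hs, w', hw', h'⟩ := h'
  obtain ⟨c, -, hc⟩ := two_steps hicc hNN hw hw' h h'
  obtain ⟨t, rfl⟩ := hs c
  exact ⟨t, hc⟩

theorem good_conj {N : Subgroup Γ} [N.Normal] {φ : Λ →* Γ ⧸ N} (h : Good θ N φ) (t : Λ) :
    Good θ N ((MulAut.conj (φ t)).toMonoidHom.comp φ) := by
  obtain ⟨hs, w, hw, h⟩ := h
  obtain ⟨h1, h2⟩ := follows_conj hw h t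
  exact ⟨(MulAut.conj (φ t)).surjective.comp hs, _, h1, h2⟩

theorem good_push (hicc : IsIcc Γ) {N N' : Subgroup Γ} [N.Normal] [N'.Normal] (hNN : N ≤ N')
    {φ : Λ →* Γ ⧸ N} {φ' : Λ →* Γ ⧸ N'} (h : Good θ N φ) (h' : Good θ N' φ') :
    Good θ N' ((QuotientGroup.map N N' (MonoidHom.id Γ) hNN).comp φ) := by
  obtain ⟨t, ht⟩ := good_two hicc hNN h h'
  have h1 : (QuotientGroup.map N N' (MonoidHom.id Γ) hNN).comp φ =
      (MulAut.conj (φ' t)).toMonoidHom.comp φ' := by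
    ext s
    exact ht s
  rw [h1]
  exact good_conj h' t

theorem map_id_quot (N : Subgroup Γ) [N.Normal] (h : N ≤ N) (x : Γ ⧸ N) :
    QuotientGroup.map N N (MonoidHom.id Γ) h x = x := by
  induction x using QuotientGroup.induction_on with
  | H g => rfl

theorem good_ker (hicc : IsIcc Γ) {N : Subgroup Γ} [N.Normal] {φ φ' : Λ →* Γ ⧸ N}
    (h : Good θ N φ) (h' : Good θ N φ') : φ.ker = φ'.ker := by
  obtain ⟨t, ht⟩ := good_two hicc (le_refl N) h h'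
  ext s
  rw [MonoidHom.mem_ker, MonoidHom.mem_ker, ← map_id_quot N (le_refl N) (φ s), ht]
  constructor
  · intro h1
    have h2 : φ' s = (φ' t)⁻¹ * (φ' t * φ' s * (φ' t)⁻¹) * φ' t := by group
    rw [h2, h1]
    group
  · intro h1
    rw [h1]
    group

theorem good_finite (hicc : IsIcc Γ) {N : Subgroup Γ} [N.Normal] [N.FiniteIndex] :
    Finite {φ : Λ →* Γ ⧸ N // Good θ N φ} := by
  have hfin : Finite (Γ ⧸ N) := Subgroup.finite_quotient_of_finiteIndex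
  by_cases hne : ∃ φ₀ : Λ →* Γ ⧸ N, Good θ N φ₀
  · obtain ⟨φ₀, h₀⟩ := hne
    have h1 : {φ : Λ →* Γ ⧸ N | Good θ N φ} ⊆
        Set.range fun c : Γ ⧸ N => (MulAut.conj c).toMonoidHom.comp φ₀ := by
      intro φ hφ
      obtain ⟨t, ht⟩ := good_two hicc (le_refl N) hφ h₀
      refine ⟨φ₀ t, ?_⟩
      ext s
      rw [← map_id_quot N (le_refl N) (φ s), ht]
      rfl
    exact ((Set.finite_range _).subset h1).to_subtype
  · have : IsEmpty {φ : Λ →* Γ ⧸ N // Good θ N φ} := ⟨fun φ => hne ⟨φ.1, φ.2⟩⟩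
    infer_instance

/-- **(C)** -/
theorem inverse_limit (hicc : IsIcc Γ) {ι : Type} (N : ι → Subgroup Γ) [∀ i, (N i).Normal]
    [∀ i, (N i).FiniteIndex] (hdir : ∀ i j, ∃ k, N k ≤ N i ∧ N k ≤ N j)
    (hF : ∀ i, PreservedUpToConj θ (N i : Set Γ)) :
    ∃ φ : ∀ i, Λ →* Γ ⧸ N i, (∀ i, Good θ (N i) (φ i)) ∧
      ∀ i j (h : N i ≤ N j) s, QuotientGroup.map (N i) (N j) (MonoidHom.id Γ) h (φ i s) = φ j s := by
  have h1 : ∀ i, Nonempty {φ : Λ →* Γ ⧸ N i // Good θ (N i) φ} := by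
    intro i
    obtain ⟨K, hK⟩ := hF i
    obtain ⟨φ, h2, -⟩ := good_of (relicc_of_finiteIndex hicc inferInstance) hK
    exact ⟨⟨φ, h2⟩⟩
  have h2 : ∀ i, Finite {φ : Λ →* Γ ⧸ N i // Good θ (N i) φ} := fun i => good_finite hicc
  obtain ⟨x, hx⟩ := finite_inverse (fun i j => N i ≤ N j) (fun i => le_refl _)
    (fun i j k h h' => h.trans h') hdir (fun i => {φ : Λ →* Γ ⧸ N i // Good θ (N i) φ})
    (fun i j h φ => ⟨(QuotientGroup.map (N i) (N j) (MonoidHom.id Γ) h).comp φ.1, by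
      obtain ⟨φ'⟩ := h1 j
      exact good_push hicc h φ.2 φ'.2⟩) (fun i h φ => by
        apply Subtype.ext
        ext s
        exact map_id_quot (N i) h (φ.1 s)) (fun i j k h h' h'' φ => by
        apply Subtype.ext
        ext s
        show QuotientGroup.map (N j) (N k) (MonoidHom.id Γ) h'
          (QuotientGroup.map (N i) (N j) (MonoidHom.id Γ) h (φ.1 s)) =
          QuotientGroup.map (N i) (N k) (MonoidHom.id Γ) h'' (φ.1 s)
        generalize φ.1 s = q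
        induction q using QuotientGroup.induction_on with
        | H g => rfl)
  refine ⟨fun i => (x i).1, fun i => (x i).2, fun i j h s => ?_⟩
  have h3 := congrArg (fun φ : {φ : Λ →* Γ ⧸ N j // Good θ (N j) φ} => φ.1 s) (hx i j h)
  exact h3

end Pool.Agent.J4.H1.VN
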