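import Pool.Agent.J4.H1.VN.Prof3
import Pool.Agent.J4.H1.VN.Compl

/-!
# Profinite and congruence completions
-/

set_option autoImplicit false
set_option linter.unusedSectionVars false

namespace Pool.Agent.J4.H1.VN

open Pool.Agent.K4H1.VN Pool.Agent.Y276.Rig Matrix

section Abs

variable {Γ Λ : Type} [Group Γ] [Group Λ] {θ : VNIso Γ Λ}

theorem icc_target (hicc : IsIcc Γ) (θ : VNIso Γ Λ) : IsIcc Λ := by
  obtain ⟨U, hU, -⟩ := exists_std_iso hicc θ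
  have h2 : Compat U ((⊤ : Subgroup Γ) : Set Γ) (⊤ : Subgroup Λ) :=
    ⟨fun _ _ _ _ => trivial, fun _ _ _ _ => trivial⟩
  have h3 : RelativelyIcc ((⊤ : Subgroup Γ) : Set Γ) := by
    intro x hx
    refine (hicc x hx).mono ?_
    rintro y ⟨k, rfl⟩
    exact ⟨k, trivial, rfl⟩
  exact (relicc_transfer hU h2 h3).isIcc

/-- the converse of (A) for finite index -/
theorem source_normal (hicc : IsIcc Γ) {H : Subgroup Γ} {K : Subgroup Λ} (hK : K.Normal)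
    (hK' : K.FiniteIndex) (h : ConjAlg θ (H : Set Γ) (K : Set Λ)) : H.Normal ∧ H.FiniteIndex := by
  obtain ⟨w, hw, h⟩ := h
  obtain ⟨U, hU⟩ := exists_stdFor hicc θ hw
  obtain ⟨h1, φ, h2, h3, -⟩ := normal_step hU.1.symm
    (relicc_of_finiteIndex (icc_target hicc θ) hK') (Compat.symm_subgroup (hU.compat h))
  refine ⟨h1, ?_⟩
  have h4 : Finite (Λ ⧸ K) := Subgroup.finite_quotient_of_finiteIndex
  have h5 : Finite (Γ ⧸ φ.ker) := Finite.of_injective _ (QuotientGroup.kerLift_injective φ)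
  rw [← h3]
  exact Subgroup.finiteIndex_of_finite_quotient

open ProfiniteGrp.ProfiniteCompletion in
/-- **(D)** -/
theorem profinite (hicc : IsIcc Γ)
    (h1 : ∀ N : Subgroup Γ, N.Normal → N.FiniteIndex → PreservedUpToConj θ (N : Set Γ))
    (h2 : ∀ K : Subgroup Λ, K.Normal → K.FiniteIndex →
      ∃ H : Subgroup Γ, ConjAlg θ (H : Set Γ) (K : Set Λ)) :
    Nonempty (completion (GrpCat.of Γ) ≃ₜ* completion (GrpCat.of Λ)) := by
  obtain ⟨φ, hφ, hc⟩ := inverse_limit (θ := θ) hicc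
    (fun N : FiniteIndexNormalSubgroup Γ => N.toSubgroup)
    (fun N N' => ⟨N ⊓ N', inf_le_left, inf_le_right⟩) (fun N => h1 _ inferInstance inferInstance)
  refine completion_equiv φ (fun N => (hφ N).1) (fun N N' h s => hc N N' h s) fun K => ?_
  obtain ⟨H, hH⟩ := h2 K.toSubgroup inferInstance inferInstance
  obtain ⟨h3, h4⟩ := source_normal hicc inferInstance inferInstance hH
  let N : FiniteIndexNormalSubgroup Γ := { toSubgroup := H, isNormal' := h3, isFiniteIndex' := h4 }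
  refine ⟨N, ?_⟩
  obtain ⟨ψ, h5, h6⟩ := good_of (relicc_of_finiteIndex hicc h4) hH
  rw [← h6]
  exact good_ker hicc (hφ N) h5

end Abs

section Mat

variable {R : Type} [CommRing R] {I : Type} [Fintype I] [DecidableEq I]
  {Γ : Subgroup (SpecialLinearGroup I R)} {Λ : Type} [Group Λ] {θ : VNIso Γ Λ}

/-- the reduction modulo an ideal -/
def redHom (Γ : Subgroup (SpecialLinearGroup I R)) (𝔞 : Ideal R) :
    Γ →* SpecialLinearGroup I (R ⧸ 𝔞) :=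
  (SpecialLinearGroup.map (Ideal.Quotient.mk 𝔞)).comp Γ.subtype

theorem redHom_ker (𝔞 : Ideal R) : (redHom Γ 𝔞).ker = congSub Γ 𝔞 := by
  ext g
  rw [MonoidHom.mem_ker]
  constructor
  · intro h i j
    have h1 := congrArg (fun M : SpecialLinearGroup I (R ⧸ 𝔞) => (M : Matrix I I (R ⧸ 𝔞)) i j) h
    have h2 : Ideal.Quotient.mk 𝔞 (mat g i j) = (1 : Matrix I I (R ⧸ 𝔞)) i j := h1
    have h3 : Ideal.Quotient.mk 𝔞 ((1 : Matrix I I R) i j) = (1 : Matrix I I (R ⧸ 𝔞)) i j := by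
      rw [Matrix.one_apply, Matrix.one_apply]
      split_ifs
      · exact map_one _
      · exact map_zero _
    rw [← Ideal.Quotient.eq, h2, h3]
  · intro h
    ext i j
    have h1 := h i j
    rw [← Ideal.Quotient.eq] at h1
    have h3 : Ideal.Quotient.mk 𝔞 ((1 : Matrix I I R) i j) = (1 : Matrix I I (R ⧸ 𝔞)) i j := by
      rw [Matrix.one_apply, Matrix.one_apply]
      split_ifs
      · exact map_one _
      · exact map_zero _
    rw [h3] at h1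
    exact h1

instance congSub_normal (𝔞 : Ideal R) : (congSub Γ 𝔞).Normal := by
  rw [← redHom_ker]
  infer_instance

theorem icc_mat [IsDomain R] [CharZero R] (hI : 3 ≤ Fintype.card I) (hΓ : Rich Γ)
    (hS : NoScalar Γ) : IsIcc Γ :=
  (relicc_cong hI hΓ hS (𝔞 := ⊤) top_ne_bot).isIcc

/-- **(E)** -/
theorem congruence [IsDomain R] [CharZero R] (hI : 3 ≤ Fintype.card I) (hΓ : Rich Γ)
    (hS : NoScalar Γ) (A : Set (Ideal R))
    (hdir : ∀ 𝔞 ∈ A, ∀ 𝔟 ∈ A, ∃ 𝔠 ∈ A, 𝔠 ≤ 𝔞 ∧ 𝔠 ≤ 𝔟)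
    (hA : ∀ 𝔞 ∈ A, Finite (R ⧸ 𝔞) ∧ PreservedUpToConj θ (congSet Γ 𝔞)) :
    ∃ ψ : ∀ 𝔞 : A, Λ →* SpecialLinearGroup I (R ⧸ (𝔞 : Ideal R)),
      (∀ 𝔞 : A, (ψ 𝔞).range = Γ.map (SpecialLinearGroup.map (Ideal.Quotient.mk (𝔞 : Ideal R))) ∧
        ConjAlg θ (congSet Γ 𝔞) ((ψ 𝔞).ker : Set Λ)) ∧
      ∀ (𝔞 𝔟 : A) (h : (𝔞 : Ideal R) ≤ 𝔟) (s : Λ),
        SpecialLinearGroup.map (Ideal.Quotient.factor h) (ψ 𝔞 s) = ψ 𝔟 s := by
  have hicc := icc_mat hI hΓ hS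
  have hfin : ∀ 𝔞 : A, (congSub Γ (𝔞 : Ideal R)).FiniteIndex := by
    intro 𝔞
    have h1 : Finite (R ⧸ (𝔞 : Ideal R)) := (hA 𝔞 𝔞.2).1
    have h2 : Finite (SpecialLinearGroup I (R ⧸ (𝔞 : Ideal R))) :=
      Finite.of_injective (fun M => (M : Matrix I I (R ⧸ (𝔞 : Ideal R)))) Subtype.val_injective
    have h3 : Finite (Γ ⧸ (redHom Γ (𝔞 : Ideal R)).ker) :=
      Finite.of_injective _ (QuotientGroup.kerLift_injective (redHom Γ (𝔞 : Ideal R)))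
    rw [← redHom_ker]
    exact Subgroup.finiteIndex_of_finite_quotient
  obtain ⟨φ, hφ, hc⟩ := inverse_limit (θ := θ) hicc (fun 𝔞 : A => congSub Γ (𝔞 : Ideal R))
    (fun 𝔞 𝔟 => by
      obtain ⟨𝔠, h1, h2, h3⟩ := hdir 𝔞 𝔞.2 𝔟 𝔟.2
      exact ⟨⟨𝔠, h1⟩, fun g hg i j => h2 (hg i j), fun g hg i j => h3 (hg i j)⟩)
    (fun 𝔞 => (hA 𝔞 𝔞.2).2)
  have hle : ∀ 𝔞 : A, ∀ g ∈ congSub Γ (𝔞 : Ideal R), redHom Γ (𝔞 : Ideal R) g = 1 := by
    intro 𝔞 g hg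
    rw [← redHom_ker] at hg
    exact hg
  let l : ∀ 𝔞 : A, Γ ⧸ congSub Γ (𝔞 : Ideal R) →* SpecialLinearGroup I (R ⧸ (𝔞 : Ideal R)) :=
    fun 𝔞 => QuotientGroup.lift _ (redHom Γ (𝔞 : Ideal R)) (hle 𝔞)
  have hl : ∀ (𝔞 : A) (g : Γ), l 𝔞 (g : Γ ⧸ congSub Γ (𝔞 : Ideal R)) = redHom Γ (𝔞 : Ideal R) g :=
    fun 𝔞 g => rfl
  have hinj : ∀ 𝔞 : A, ∀ q, l 𝔞 q = 1 → q = 1 := by
    intro 𝔞 q hq
    induction q using QuotientGroup.induction_on with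
    | H g =>
      rw [hl] at hq
      refine (QuotientGroup.eq_one_iff g).2 ?_
      rw [← redHom_ker]
      exact hq
  refine ⟨fun 𝔞 => (l 𝔞).comp (φ 𝔞), fun 𝔞 => ⟨?_, ?_⟩, fun 𝔞 𝔟 h s => ?_⟩
  · ext M
    constructor
    · rintro ⟨s, rfl⟩
      obtain ⟨g, hg⟩ := QuotientGroup.mk_surjective (φ 𝔞 s)
      refine ⟨g, g.2, ?_⟩
      show redHom Γ (𝔞 : Ideal R) g = l 𝔞 (φ 𝔞 s)
      rw [← hg]
      rfl
    · rintro ⟨g, hg, rfl⟩
      obtain ⟨s, hs⟩ := (hφ 𝔞).1 ((⟨g, hg⟩ : Γ) : Γ ⧸ congSub Γ (𝔞 : Ideal R))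
      refine ⟨s, ?_⟩
      show l 𝔞 (φ 𝔞 s) = _
      rw [hs]
      rfl
  · obtain ⟨-, w, hw, h1⟩ := hφ 𝔞
    have h2 : ((l 𝔞).comp (φ 𝔞)).ker = (φ 𝔞).ker := by
      ext s
      rw [MonoidHom.mem_ker, MonoidHom.mem_ker, MonoidHom.comp_apply]
      constructor
      · exact fun h => hinj 𝔞 _ h
      · intro h
        rw [h, map_one]
    rw [h2]
    exact ⟨w, hw, Good.mapsConj hicc hw h1⟩
  · have hNN : congSub Γ (𝔞 : Ideal R) ≤ congSub Γ (𝔟 : Ideal R) := fun g hg i j => h (hg i j)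
    have h1 := hc 𝔞 𝔟 hNN s
    show SpecialLinearGroup.map (Ideal.Quotient.factor h) (l 𝔞 (φ 𝔞 s)) = l 𝔟 (φ 𝔟 s)
    rw [← h1]
    generalize φ 𝔞 s = q
    induction q using QuotientGroup.induction_on with
    | H g =>
      ext i j
      rfl

end Mat

end Pool.Agent.J4.H1.VN
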