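import Mathlib

/-!
# Unitary representations with a vector all of whose translates are close to its line
-/

set_option autoImplicit false

namespace Pool.Agent.J4.H1.Ray

open scoped ComplexConjugate InnerProductSpace
open Filter Topology

variable {H : Type} [NormedAddCommGroup H] [InnerProductSpace ℂ H]

theorem gram_aux {u x : H} (hu : ‖u‖ = 1) (hx : ‖x‖ = 1) :
    ‖x - ⟪u, x⟫_ℂ • u‖ ^ 2 = 1 - ‖⟪u, x⟫_ℂ‖ ^ 2 := by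
  rw [norm_sub_sq (𝕜 := ℂ), hx, norm_smul, hu, inner_smul_right, ← inner_conj_symm x u,
    Complex.mul_conj, Complex.normSq_eq_norm_sq]
  have h1 : RCLike.re ((‖⟪u, x⟫_ℂ‖ ^ 2 : ℝ) : ℂ) = ‖⟪u, x⟫_ℂ‖ ^ 2 := Complex.ofReal_re _
  rw [h1]
  ring

/-- the Gram determinant -/
theorem gram {u x y : H} (hu : ‖u‖ = 1) (hx : ‖x‖ = 1) (hy : ‖y‖ = 1) :
    ‖⟪x, y⟫_ℂ - ⟪x, u⟫_ℂ * ⟪u, y⟫_ℂ‖ ^ 2 ≤ (1 - ‖⟪u, x⟫_ℂ‖ ^ 2) * (1 - ‖⟪u, y⟫_ℂ‖ ^ 2) := by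
  have h1 : ⟪x - ⟪u, x⟫_ℂ • u, y - ⟪u, y⟫_ℂ • u⟫_ℂ = ⟪x, y⟫_ℂ - ⟪x, u⟫_ℂ * ⟪u, y⟫_ℂ := by
    have h2 : ⟪u, u⟫_ℂ = 1 := by
      rw [inner_self_eq_norm_sq_to_K, hu]
      norm_num
    rw [inner_sub_left, inner_sub_right, inner_sub_right, inner_smul_left, inner_smul_right,
      inner_smul_left, inner_smul_right, h2, inner_conj_symm]
    ring
  rw [← h1, ← gram_aux hu hx, ← gram_aux hu hy, ← mul_pow]
  exact pow_le_pow_left₀ (norm_nonneg _) (norm_inner_le_norm _ _) 2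

theorem norm_inner_le_one {x y : H} (hx : ‖x‖ = 1) (hy : ‖y‖ = 1) : ‖⟪x, y⟫_ℂ‖ ≤ 1 := by
  have := norm_inner_le_norm (𝕜 := ℂ) x y
  rwa [hx, hy, one_mul] at this

/-- two vectors close to a third one -/
theorem angle_sum {e p q : H} (he : ‖e‖ = 1) (hp : ‖p‖ = 1) (hq : ‖q‖ = 1) {c : ℝ} (hc : 0 ≤ c)
    (h1 : c ≤ ‖⟪e, p⟫_ℂ‖) (h2 : c ≤ ‖⟪e, q⟫_ℂ‖) : 2 * c ^ 2 - 1 ≤ ‖⟪p, q⟫_ℂ‖ := by
  have h3 := gram he hp hq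
  have h4 : ‖⟪p, q⟫_ℂ - ⟪p, e⟫_ℂ * ⟪e, q⟫_ℂ‖ ≤ 1 - c ^ 2 := by
    have h5 : c ^ 2 ≤ ‖⟪e, p⟫_ℂ‖ ^ 2 := pow_le_pow_left₀ hc h1 2
    have h6 : c ^ 2 ≤ ‖⟪e, q⟫_ℂ‖ ^ 2 := pow_le_pow_left₀ hc h2 2
    have h7 : ‖⟪e, p⟫_ℂ‖ ≤ 1 := norm_inner_le_one he hp
    have h8 : ‖⟪e, q⟫_ℂ‖ ≤ 1 := norm_inner_le_one he hq
    have h9 : 0 ≤ 1 - ‖⟪e, p⟫_ℂ‖ ^ 2 := by
      have := pow_le_one₀ (norm_nonneg _) h7 (n := 2)
      linarith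
    have h10 : 0 ≤ 1 - ‖⟪e, q⟫_ℂ‖ ^ 2 := by
      have := pow_le_one₀ (norm_nonneg _) h8 (n := 2)
      linarith
    have h11 : 0 ≤ 1 - c ^ 2 := by linarith
    refine abs_le_of_sq_le_sq' (h3.trans ?_) h11 |>.2
    rw [sq (1 - c ^ 2)]
    exact mul_le_mul (by linarith) (by linarith) h10 h11
  have h5 : c ^ 2 ≤ ‖⟪p, e⟫_ℂ * ⟪e, q⟫_ℂ‖ := by
    rw [norm_mul, norm_inner_symm p e, sq]
    exact mul_le_mul h1 h2 hc (norm_nonneg _)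
  have h6 : ‖⟪p, e⟫_ℂ * ⟪e, q⟫_ℂ‖ ≤ ‖⟪p, q⟫_ℂ‖ + ‖⟪p, q⟫_ℂ - ⟪p, e⟫_ℂ * ⟪e, q⟫_ℂ‖ := by
    have h7 : ⟪p, e⟫_ℂ * ⟪e, q⟫_ℂ = ⟪p, q⟫_ℂ - (⟪p, q⟫_ℂ - ⟪p, e⟫_ℂ * ⟪e, q⟫_ℂ) := by ring
    conv_lhs => rw [h7]
    exact norm_sub_le _ _
  linarith

/-- the expansion of the Gram determinant if `⟪x, y⟫` is real -/
theorem gram_real {u x y : H} (hu : ‖u‖ = 1) (hx : ‖x‖ = 1) (hy : ‖y‖ = 1) {t : ℝ}
    (ht : ⟪x, y⟫_ℂ = t) : t ^ 2 + ‖⟪u, x⟫_ℂ‖ ^ 2 + ‖⟪u, y⟫_ℂ‖ ^ 2 - 1 ≤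
      2 * t * (⟪x, u⟫_ℂ * ⟪u, y⟫_ℂ).re := by
  have h1 := gram hu hx hy
  rw [ht] at h1
  obtain ⟨z, hz⟩ : ∃ z, z = ⟪x, u⟫_ℂ * ⟪u, y⟫_ℂ := ⟨_, rfl⟩
  have h2 : ‖z‖ ^ 2 = ‖⟪u, x⟫_ℂ‖ ^ 2 * ‖⟪u, y⟫_ℂ‖ ^ 2 := by
    rw [hz, norm_mul, mul_pow, norm_inner_symm x u]
  rw [← hz] at h1 ⊢
  have h3 : ‖(t : ℂ) - z‖ ^ 2 = t ^ 2 - 2 * t * z.re + ‖z‖ ^ 2 := by
    rw [← Complex.normSq_eq_norm_sq, ← Complex.normSq_eq_norm_sq, Complex.normSq_apply,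
      Complex.normSq_apply, Complex.sub_re, Complex.sub_im, Complex.ofReal_re, Complex.ofReal_im]
    ring
  rw [h3, h2] at h1
  nlinarith

/-- the midpoint -/
theorem midpoint_le {u x y : H} (hu : ‖u‖ = 1) (hx : ‖x‖ = 1) (hy : ‖y‖ = 1) {t s : ℝ}
    (ht : ⟪x, y⟫_ℂ = t) (ht0 : 0 < t) (hs : 0 ≤ s) (h1 : s ≤ ‖⟪u, x⟫_ℂ‖) (h2 : s ≤ ‖⟪u, y⟫_ℂ‖) :
    (1 + t) * (2 * s ^ 2 - 1 + t) ≤ t * ‖⟪u, x + y⟫_ℂ‖ ^ 2 := by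
  have h3 := gram_real hu hx hy ht
  have h4 : ‖⟪u, x + y⟫_ℂ‖ ^ 2 =
      ‖⟪u, x⟫_ℂ‖ ^ 2 + ‖⟪u, y⟫_ℂ‖ ^ 2 + 2 * (⟪x, u⟫_ℂ * ⟪u, y⟫_ℂ).re := by
    rw [inner_add_right, ← inner_conj_symm x u, ← Complex.normSq_eq_norm_sq,
      ← Complex.normSq_eq_norm_sq, ← Complex.normSq_eq_norm_sq, Complex.normSq_apply,
      Complex.normSq_apply, Complex.normSq_apply, Complex.mul_re, Complex.conj_re,
      Complex.conj_im, Complex.add_re, Complex.add_im]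
    ring
  have h5 : s ^ 2 ≤ ‖⟪u, x⟫_ℂ‖ ^ 2 := pow_le_pow_left₀ hs h1 2
  have h6 : s ^ 2 ≤ ‖⟪u, y⟫_ℂ‖ ^ 2 := pow_le_pow_left₀ hs h2 2
  rw [h4]
  nlinarith

theorem norm_add_sq_real' {x y : H} (hx : ‖x‖ = 1) (hy : ‖y‖ = 1) {t : ℝ}
    (ht : ⟪x, y⟫_ℂ = t) : ‖x + y‖ ^ 2 = 2 * (1 + t) := by
  rw [norm_add_sq (𝕜 := ℂ), hx, hy, ht]
  have h1 : RCLike.re (t : ℂ) = t := Complex.ofReal_re _
  rw [h1]
  ring

/-- two unit vectors which have positive inner products with a third one -/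
theorem phase_le {e x y : H} (he : ‖e‖ = 1) (hx : ‖x‖ = 1) (hy : ‖y‖ = 1) {a b : ℝ}
    (ha : ⟪e, x⟫_ℂ = a) (hb : ⟪e, y⟫_ℂ = b) (ha0 : 0 < a) (hb0 : 0 < b) :
    a * b * ‖x - y‖ ^ 2 ≤ 1 - ‖⟪x, y⟫_ℂ‖ ^ 2 := by
  have h1 := gram he hx hy
  obtain ⟨z, hz⟩ : ∃ z, z = ⟪x, y⟫_ℂ := ⟨_, rfl⟩
  have h2 : ⟪x, e⟫_ℂ * ⟪e, y⟫_ℂ = ((a * b : ℝ) : ℂ) := by
    rw [← inner_conj_symm x e, ha, hb, Complex.conj_ofReal, Complex.ofReal_mul]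
  rw [h2, ← hz, ha, hb, Complex.norm_real, Complex.norm_real, Real.norm_eq_abs, Real.norm_eq_abs,
    abs_of_pos ha0, abs_of_pos hb0] at h1
  have h3 : ‖z - ((a * b : ℝ) : ℂ)‖ ^ 2 = ‖z‖ ^ 2 - 2 * (a * b) * z.re + (a * b) ^ 2 := by
    rw [← Complex.normSq_eq_norm_sq, ← Complex.normSq_eq_norm_sq, Complex.normSq_apply,
      Complex.normSq_apply, Complex.sub_re, Complex.sub_im, Complex.ofReal_re, Complex.ofReal_im]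
    ring
  have h4 : ‖x - y‖ ^ 2 = 2 - 2 * z.re := by
    rw [norm_sub_sq (𝕜 := ℂ), hx, hy, ← hz]
    have h5 : RCLike.re z = z.re := rfl
    rw [h5]
    ring
  rw [h3] at h1
  rw [← hz, h4]
  nlinarith [sq_nonneg (a - b)]

theorem eq_smul_of_norm_inner {x y : H} (hx : ‖x‖ = 1) (hy : ‖y‖ = 1)
    (h : 1 ≤ ‖⟪x, y⟫_ℂ‖) : ∃ z : Circle, y = (z : ℂ) • x := by
  have h1 : ‖⟪x, y⟫_ℂ‖ = 1 := le_antisymm (norm_inner_le_one hx hy) h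
  have h2 := gram_aux hx hy
  rw [h1, one_pow, sub_self, sq_eq_zero_iff, norm_eq_zero, sub_eq_zero] at h2
  exact ⟨⟨⟪x, y⟫_ℂ, mem_sphere_zero_iff_norm.2 h1⟩, h2⟩

/-- a multiple with positive inner product -/
theorem exists_phase (e x : H) : ∃ z : Circle, ⟪e, (z : ℂ) • x⟫_ℂ = (‖⟪e, x⟫_ℂ‖ : ℝ) := by
  by_cases h : ⟪e, x⟫_ℂ = 0
  · exact ⟨1, by rw [Circle.coe_one, one_smul, h, norm_zero, Complex.ofReal_zero]⟩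
  · have hn : (‖⟪e, x⟫_ℂ‖ : ℂ) ≠ 0 := Complex.ofReal_ne_zero.2 (norm_ne_zero_iff.2 h)
    refine ⟨⟨conj ⟪e, x⟫_ℂ / ‖⟪e, x⟫_ℂ‖, mem_sphere_zero_iff_norm.2 ?_⟩, ?_⟩
    · rw [norm_div, RCLike.norm_conj, Complex.norm_real, norm_norm,
        div_self (norm_ne_zero_iff.2 h)]
    · show ⟪e, (conj ⟪e, x⟫_ℂ / ‖⟪e, x⟫_ℂ‖) • x⟫_ℂ = _
      rw [inner_smul_right, div_mul_eq_mul_div, mul_comm, Complex.mul_conj,
        Complex.normSq_eq_norm_sq, Complex.ofReal_pow, sq, mul_div_assoc, div_self hn, mul_one]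

section center

variable {ι : Type} {u : ι → H}

/-- the number `s` is admissible -/
def Adm (u : ι → H) (s : ℝ) : Prop := ∃ x : H, ‖x‖ = 1 ∧ ∀ i, s ≤ ‖⟪u i, x⟫_ℂ‖

theorem key [Nonempty ι] (hu : ∀ i, ‖u i‖ = 1) {R s : ℝ} (hR : ∀ s, Adm u s → s ≤ R)
    (hs0 : 0 ≤ s) (hs : 1 < 2 * s ^ 2) {x y : H} (hx : ‖x‖ = 1) (hy : ‖y‖ = 1)
    (h1 : ∀ i, s ≤ ‖⟪u i, x⟫_ℂ‖) (h2 : ∀ i, s ≤ ‖⟪u i, y⟫_ℂ‖) :
    2 * s ^ 2 - 1 ≤ ‖⟪x, y⟫_ℂ‖ * (2 * R ^ 2 - 1) := by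
  obtain ⟨i₀⟩ := ‹Nonempty ι›
  obtain ⟨τ, hτ⟩ : ∃ τ, τ = ‖⟪x, y⟫_ℂ‖ := ⟨_, rfl⟩
  have hτ0 : 0 < τ := by
    have := angle_sum (hu i₀) hx hy hs0 (h1 i₀) (h2 i₀)
    rw [hτ]
    linarith
  obtain ⟨z, hz⟩ := exists_phase x y
  have hy' : ‖(z : ℂ) • y‖ = 1 := by rw [norm_smul, Circle.norm_coe, one_mul, hy]
  have h2' : ∀ i, s ≤ ‖⟪u i, (z : ℂ) • y⟫_ℂ‖ := fun i => by
    rw [inner_smul_right, norm_mul, Circle.norm_coe, one_mul]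
    exact h2 i
  rw [← hτ] at hz ⊢
  obtain ⟨m, hm⟩ : ∃ m, m = x + (z : ℂ) • y := ⟨_, rfl⟩
  have hmn : ‖m‖ ^ 2 = 2 * (1 + τ) := by
    rw [hm]
    exact norm_add_sq_real' hx hy' hz
  have hm0 : 0 < ‖m‖ := by
    by_contra hcon
    have h0 : ‖m‖ = 0 := le_antisymm (not_lt.1 hcon) (norm_nonneg _)
    rw [h0] at hmn
    nlinarith
  have hadm : Adm u (√((2 * s ^ 2 - 1 + τ) / (2 * τ))) := by
    refine ⟨((‖m‖⁻¹ : ℝ) : ℂ) • m, ?_, fun i => ?_⟩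
    · rw [norm_smul, Complex.norm_real, norm_inv, norm_norm, inv_mul_cancel₀ hm0.ne']
    · have h3 := midpoint_le (hu i) hx hy' hz hτ0 hs0 (h1 i) (h2' i)
      rw [← hm] at h3
      rw [inner_smul_right, norm_mul, Complex.norm_real, norm_inv, norm_norm]
      refine Real.sqrt_le_iff.2 ⟨by positivity, ?_⟩
      rw [mul_pow, inv_pow, hmn, div_le_iff₀ (by positivity), mul_comm ((2 * (1 + τ))⁻¹),
        mul_assoc, mul_comm ((2 * (1 + τ))⁻¹), ← mul_assoc, ← div_eq_mul_inv,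
        le_div_iff₀ (by positivity)]
      nlinarith
  have h3 := hR _ hadm
  have h4 : 0 ≤ (2 * s ^ 2 - 1 + τ) / (2 * τ) := div_nonneg (by linarith) (by linarith)
  have h5 : (2 * s ^ 2 - 1 + τ) / (2 * τ) ≤ R ^ 2 := by
    have := pow_le_pow_left₀ (Real.sqrt_nonneg _) h3 2
    rwa [Real.sq_sqrt h4] at this
  rw [div_le_iff₀ (by positivity)] at h5
  nlinarith

/-- **The centre.** -/
theorem exists_center [CompleteSpace H] [Nonempty ι] (hu : ∀ i, ‖u i‖ = 1) {c : ℝ} (hc0 : 0 ≤ c)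
    (hc : 1 < 2 * c ^ 2) (h : Adm u c) : ∃ (x : H) (R : ℝ), ‖x‖ = 1 ∧ c ≤ R ∧
      (∀ i, R ≤ ‖⟪u i, x⟫_ℂ‖) ∧
      ∀ y : H, ‖y‖ = 1 → (∀ i, R ≤ ‖⟪u i, y⟫_ℂ‖) → ∃ z : Circle, y = (z : ℂ) • x := by
  obtain ⟨i₀⟩ := ‹Nonempty ι›
  have : Nonempty ι := ⟨i₀⟩
  have hbdd : BddAbove {s | Adm u s} := by
    refine ⟨1, ?_⟩
    rintro s ⟨x, hx, hs⟩
    exact (hs i₀).trans (norm_inner_le_one (hu i₀) hx)
  obtain ⟨R, hRdef⟩ : ∃ R, R = sSup {s | Adm u s} := ⟨_, rfl⟩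
  have hR : ∀ s, Adm u s → s ≤ R := fun s hs => by
    rw [hRdef]
    exact le_csSup hbdd hs
  have hcR : c ≤ R := hR c h
  obtain ⟨c₁, hc₁, hc₁0⟩ : ∃ c₁ : ℝ, 2 * c₁ ^ 2 = 1 ∧ 0 < c₁ :=
    ⟨√(1 / 2), by rw [Real.sq_sqrt (by norm_num)]; norm_num, Real.sqrt_pos.2 (by norm_num)⟩
  have hc₁c : c₁ < c := by
    by_contra hcon
    have := pow_le_pow_left₀ hc0 (not_lt.1 hcon) 2
    linarith
  have hR1 : 1 < 2 * R ^ 2 := by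
    have := pow_le_pow_left₀ hc0 hcR 2
    linarith
  -- the sequence
  obtain ⟨σ, hσ⟩ : ∃ σ : ℕ → ℝ, ∀ n, σ n = R - (R - c₁) * (1 / ((n : ℝ) + 1)) := ⟨_, fun _ => rfl⟩
  have hσR : ∀ n, σ n < R := fun n => by
    rw [hσ]
    have : 0 < (R - c₁) * (1 / ((n : ℝ) + 1)) := mul_pos (by linarith) (by positivity)
    linarith
  have hσc : ∀ n, c₁ ≤ σ n := fun n => by
    rw [hσ]
    have h1 : (1 : ℝ) / ((n : ℝ) + 1) ≤ 1 := by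
      rw [div_le_one (by positivity)]
      have : (0 : ℝ) ≤ n := Nat.cast_nonneg n
      linarith
    have h2 : (R - c₁) * (1 / ((n : ℝ) + 1)) ≤ (R - c₁) * 1 :=
      mul_le_mul_of_nonneg_left h1 (by linarith)
    linarith
  have hσm : ∀ n m, n ≤ m → σ n ≤ σ m := fun n m hnm => by
    rw [hσ, hσ]
    have h1 : (1 : ℝ) / ((m : ℝ) + 1) ≤ 1 / ((n : ℝ) + 1) :=
      one_div_le_one_div_of_le (by positivity) (by exact_mod_cast Nat.succ_le_succ hnm)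
    have h2 : (R - c₁) * (1 / ((m : ℝ) + 1)) ≤ (R - c₁) * (1 / ((n : ℝ) + 1)) :=
      mul_le_mul_of_nonneg_left h1 (by linarith)
    linarith
  have hσt : Tendsto σ atTop (𝓝 R) := by
    have h1 : Tendsto (fun n : ℕ => R - (R - c₁) * (1 / ((n : ℝ) + 1))) atTop
        (𝓝 (R - (R - c₁) * 0)) :=
      tendsto_const_nhds.sub (tendsto_const_nhds.mul tendsto_one_div_add_atTop_nhds_zero_nat)
    rw [mul_zero, sub_zero] at h1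
    exact h1.congr fun n => (hσ n).symm
  have hex : ∀ n, ∃ x : H, ‖x‖ = 1 ∧ (∀ i, σ n < ‖⟪u i, x⟫_ℂ‖) ∧
      ⟪u i₀, x⟫_ℂ = (‖⟪u i₀, x⟫_ℂ‖ : ℝ) := by
    intro n
    obtain ⟨s, ⟨x, hx, hxs⟩, hs⟩ := exists_lt_of_lt_csSup (s := {s | Adm u s}) ⟨c, h⟩
      (hRdef ▸ hσR n)
    obtain ⟨z, hz⟩ := exists_phase (u i₀) x
    have h1 : ∀ i, ‖⟪u i, (z : ℂ) • x⟫_ℂ‖ = ‖⟪u i, x⟫_ℂ‖ := fun i => by
      rw [inner_smul_right, norm_mul, Circle.norm_coe, one_mul]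
    refine ⟨(z : ℂ) • x, by rw [norm_smul, Circle.norm_coe, one_mul, hx], fun i => ?_, ?_⟩
    · rw [h1]
      exact lt_of_lt_of_le hs (hxs i)
    · rw [h1]
      exact hz
  choose x hx hxs hxp using hex
  have hdist : ∀ N n m, N ≤ n → N ≤ m →
      dist (x n) (x m) ≤ √(2 * (1 - ((2 * (σ N) ^ 2 - 1) / (2 * R ^ 2 - 1)) ^ 2)) := by
    intro N n m hn hm
    obtain ⟨s, hs⟩ : ∃ s, s = σ N := ⟨_, rfl⟩
    rw [← hs]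
    have hs0 : c₁ ≤ s := by rw [hs]; exact hσc N
    have hsn : ∀ i, s ≤ ‖⟪u i, x n⟫_ℂ‖ := fun i => by
      rw [hs]
      exact (hσm N n hn).trans (hxs n i).le
    have hsm : ∀ i, s ≤ ‖⟪u i, x m⟫_ℂ‖ := fun i => by
      rw [hs]
      exact (hσm N m hm).trans (hxs m i).le
    have hsq : 1 ≤ 2 * s ^ 2 := by
      have := pow_le_pow_left₀ hc₁0.le hs0 2
      linarith
    have hκ : (2 * s ^ 2 - 1) / (2 * R ^ 2 - 1) ≤ ‖⟪x n, x m⟫_ℂ‖ := by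
      rw [div_le_iff₀ (by linarith)]
      rcases eq_or_lt_of_le hsq with h0 | h0
      · rw [← h0, sub_self]
        exact mul_nonneg (norm_nonneg _) (by linarith)
      · exact key hu hR (hc₁0.le.trans hs0) h0 (hx n) (hx m) hsn hsm
    have hκ0 : 0 ≤ (2 * s ^ 2 - 1) / (2 * R ^ 2 - 1) := div_nonneg (by linarith) (by linarith)
    have h1 := pow_le_pow_left₀ hκ0 hκ 2
    have h2 := phase_le (hu i₀) (hx n) (hx m) (hxp n) (hxp m)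
      (lt_of_lt_of_le hc₁0 (hs0.trans (hsn i₀))) (lt_of_lt_of_le hc₁0 (hs0.trans (hsm i₀)))
    have h3 : 1 / 2 ≤ ‖⟪u i₀, x n⟫_ℂ‖ * ‖⟪u i₀, x m⟫_ℂ‖ := by
      have h4 := mul_le_mul (hs0.trans (hsn i₀)) (hs0.trans (hsm i₀)) hc₁0.le (norm_nonneg _)
      have h5 : c₁ * c₁ = 1 / 2 := by linarith [sq c₁]
      rwa [h5] at h4
    rw [dist_eq_norm]
    refine Real.le_sqrt_of_sq_le ?_
    have h6 : 1 / 2 * ‖x n - x m‖ ^ 2 ≤ ‖⟪u i₀, x n⟫_ℂ‖ * ‖⟪u i₀, x m⟫_ℂ‖ * ‖x n - x m‖ ^ 2 :=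
      mul_le_mul_of_nonneg_right h3 (sq_nonneg _)
    linarith
  have hcauchy : CauchySeq x := by
    refine cauchySeq_of_le_tendsto_0 (fun N => √(2 * (1 - ((2 * (σ N) ^ 2 - 1) / (2 * R ^ 2 - 1)) ^ 2)))
      (fun n m N hn hm => hdist N n m hn hm) ?_
    have h1 : Tendsto (fun N => √(2 * (1 - ((2 * (σ N) ^ 2 - 1) / (2 * R ^ 2 - 1)) ^ 2))) atTop
        (𝓝 (√(2 * (1 - ((2 * R ^ 2 - 1) / (2 * R ^ 2 - 1)) ^ 2)))) :=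
      (((((((hσt.pow 2).const_mul 2).sub_const 1).div_const _).pow 2).const_sub 1).const_mul
        2).sqrt
    rw [div_self (by linarith), one_pow, sub_self, mul_zero, Real.sqrt_zero] at h1
    exact h1
  obtain ⟨y, hy⟩ := cauchySeq_tendsto_of_complete hcauchy
  have hy1 : ‖y‖ = 1 := by
    refine tendsto_nhds_unique hy.norm ?_
    simp only [hx]
    exact tendsto_const_nhds
  have hyR : ∀ i, R ≤ ‖⟪u i, y⟫_ℂ‖ := fun i => by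
    have h1 : Tendsto (fun n => ‖⟪u i, x n⟫_ℂ‖) atTop (𝓝 ‖⟪u i, y⟫_ℂ‖) :=
      (tendsto_const_nhds.inner hy).norm
    exact le_of_tendsto_of_tendsto' hσt h1 fun n => (hxs n i).le
  refine ⟨y, R, hy1, hcR, hyR, fun y' hy' h' => eq_smul_of_norm_inner hy1 hy' ?_⟩
  have h1 := key hu hR (hc0.trans hcR) hR1 hy1 hy' hyR h'
  by_contra hcon
  have h2 : ‖⟪y, y'⟫_ℂ‖ * (2 * R ^ 2 - 1) < 1 * (2 * R ^ 2 - 1) :=
    mul_lt_mul_of_pos_right (not_le.1 hcon) (by linarith)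
  linarith

end center

/-- **The fixed line.** If all the coefficients `⟪δ, W g δ⟫` of a unitary representation are of
absolute value at least `c > 1/√2`, then there is an invariant line. -/
theorem fixed_line [CompleteSpace H] {G : Type} [Group G] (W : G →* (H ≃ₗᵢ[ℂ] H)) {δ : H}
    (hδ : ‖δ‖ = 1) {c : ℝ} (hc0 : 0 ≤ c) (hc : 1 < 2 * c ^ 2) (h : ∀ g, c ≤ ‖⟪W g δ, δ⟫_ℂ‖) :
    ∃ (η : H) (χ : G →* Circle), ‖η‖ = 1 ∧ c ≤ ‖⟪δ, η⟫_ℂ‖ ∧ ∀ g, W g η = (χ g : ℂ) • η := by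
  obtain ⟨η, R, hη, hcR, hηR, huniq⟩ := exists_center (u := fun g => W g δ)
    (fun g => by rw [LinearIsometryEquiv.norm_map, hδ]) hc0 hc ⟨δ, hδ, h⟩
  have h1 : ∀ g, ∃ z : Circle, W g η = (z : ℂ) • η := by
    intro g
    refine huniq _ (by rw [LinearIsometryEquiv.norm_map, hη]) fun k => ?_
    have h2 : W k δ = W g (W (g⁻¹ * k) δ) := by
      have h3 : W k = W g * W (g⁻¹ * k) := by rw [← map_mul, mul_inv_cancel_left]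
      rw [h3]
      rfl
    show R ≤ ‖⟪W k δ, W g η⟫_ℂ‖
    rw [h2, LinearIsometryEquiv.inner_map_map]
    exact hηR _
  choose z hz using h1
  have hη0 : η ≠ 0 := by
    intro h0
    rw [h0, norm_zero] at hη
    exact zero_ne_one hη
  have hinj : ∀ a b : Circle, (a : ℂ) • η = (b : ℂ) • η → a = b := fun a b hab =>
    Circle.ext (smul_left_injective ℂ hη0 hab)
  refine ⟨η, ⟨⟨z, ?_⟩, ?_⟩, hη, ?_, hz⟩
  · apply hinj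
    rw [← hz, map_one, Circle.coe_one, one_smul]
    rfl
  · intro a b
    apply hinj
    show ((z (a * b) : Circle) : ℂ) • η = ((z a * z b : Circle) : ℂ) • η
    rw [← hz, map_mul, Circle.coe_mul]
    show W a (W b η) = _
    rw [hz b, map_smul, hz a, smul_smul, mul_comm]
  · have h2 := hηR 1
    rw [map_one] at h2
    exact hcR.trans h2

end Pool.Agent.J4.H1.Ray
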