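import Pool.Agent.J4.H1.VN.SDefs4
import Mathlib.Topology.Algebra.Category.ProfiniteGrp.Completion

/-!
# Subalgebras preserved up to unitary conjugacy: the assertions
-/

set_option autoImplicit false

namespace Pool.Agent.J4.H1.VN

open Pool.Agent.K4H1.VN ProfiniteGrp.ProfiniteCompletion
open Pool.Agent.Y276.Rig (IsIcc)

section Abs

variable {Γ Λ : Type} [Group Γ] [Group Λ]

/-- Let `N` be a normal relatively icc subgroup of `Γ` with `θ(L(N)) = w L(K) w⁻¹`, `K` a subgroup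
of `Λ` and `w` a unitary of `L(Λ)`. Then `K` is normal and there is a surjective homomorphism
`φ : Λ → Γ/N` with kernel `K` such that `w⁻¹ θ(u_g) w` is supported on `φ⁻¹(g N)` for all `g`; for
all subgroups `H ≥ N` the algebra `θ(L(H))` is `w L(K') w⁻¹` with `K' = φ⁻¹(H/N)`. -/
def NormalSubgroups (θ : VNIso Γ Λ) : Prop :=
  ∀ (N : Subgroup Γ) [N.Normal] (K : Subgroup Λ) (w : Uni Λ), RelativelyIcc (N : Set Γ) →
    InVN w → MapsConj θ w (N : Set Γ) (K : Set Λ) →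
      K.Normal ∧ ∃ φ : Λ →* Γ ⧸ N, Function.Surjective φ ∧ φ.ker = K ∧
        FollowsCosets θ w N φ ∧ ∀ H : Subgroup Γ, N ≤ H →
          MapsConj θ w (H : Set Γ) ((H.map (QuotientGroup.mk' N)).comap φ : Set Λ)

/-- Let `Γ` be icc, `N ≤ N'` normal subgroups, `w⁻¹ θ(u_g) w` supported on `φ⁻¹(g N)` and
`w'⁻¹ θ(u_g) w'` on `φ'⁻¹(g N')` for all `g`. Then there is `c` in `Γ/N'` such that `w'⁻¹ w` is
supported on `φ'⁻¹(c)`, and the composition of `φ` with `Γ/N → Γ/N'` is `c φ' c⁻¹`. -/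
def UniqueUpToInner (θ : VNIso Γ Λ) : Prop :=
  ∀ (N N' : Subgroup Γ) [N.Normal] [N'.Normal] (h : N ≤ N') (w w' : Uni Λ)
    (φ : Λ →* Γ ⧸ N) (φ' : Λ →* Γ ⧸ N'), IsIcc Γ → InVN w → InVN w' →
      FollowsCosets θ w N φ → FollowsCosets θ w' N' φ' →
        ∃ c : Γ ⧸ N', (∀ y, w'.symm (w (delta 1)) y ≠ 0 → φ' y = c) ∧
          ∀ s, QuotientGroup.map N N' (MonoidHom.id Γ) h (φ s) = c * φ' s * c⁻¹

/-- Let `Γ` be icc and `N_i` a directed family of normal subgroups of finite index of `Γ` such that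
each `θ(L(N_i))` is unitarily conjugate to the algebra of a subgroup of `Λ`. Then there are
surjective homomorphisms `φ_i : Λ → Γ/N_i`, compatible with the maps `Γ/N_i → Γ/N_j`, and unitaries
`w_i` of `L(Λ)` such that `θ(L(N_i)) = w_i L(ker φ_i) w_i⁻¹` and `w_i⁻¹ θ(u_g) w_i` is supported on
`φ_i⁻¹(g N_i)` for all `g`. -/
def CompatibleQuotients (θ : VNIso Γ Λ) : Prop :=
  ∀ (ι : Type) (N : ι → Subgroup Γ) [∀ i, (N i).Normal] [∀ i, (N i).FiniteIndex],
    IsIcc Γ → (∀ i j, ∃ k, N k ≤ N i ∧ N k ≤ N j) →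
    (∀ i, PreservedUpToConj θ (N i : Set Γ)) →
      ∃ φ : ∀ i, Λ →* Γ ⧸ N i,
        (∀ i, Function.Surjective (φ i) ∧ ∃ w : Uni Λ, InVN w ∧
          MapsConj θ w (N i : Set Γ) ((φ i).ker : Set Λ) ∧ FollowsCosets θ w (N i) (φ i)) ∧
        ∀ i j (h : N i ≤ N j) s,
          QuotientGroup.map (N i) (N j) (MonoidHom.id Γ) h (φ i s) = φ j s

/-- Let `Γ` be icc. If `θ` maps the algebra of each normal subgroup of finite index of `Γ` onto a
unitary conjugate of the algebra of a subgroup of `Λ`, and each normal subgroup of finite index of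
`Λ` arises in this way from a subgroup of `Γ`, then the profinite completions of `Γ` and `Λ` are
isomorphic topological groups. -/
def SameProfiniteCompletion (θ : VNIso Γ Λ) : Prop :=
  IsIcc Γ →
    (∀ N : Subgroup Γ, N.Normal → N.FiniteIndex → PreservedUpToConj θ (N : Set Γ)) →
    (∀ K : Subgroup Λ, K.Normal → K.FiniteIndex →
      ∃ H : Subgroup Γ, ConjAlg θ (H : Set Γ) (K : Set Λ)) →
    Nonempty (completion (GrpCat.of Γ) ≃ₜ* completion (GrpCat.of Λ))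

end Abs

section Mat

open Matrix

variable {R : Type} [CommRing R] {I : Type} [Fintype I] [DecidableEq I]

/-- There are homomorphisms `ψ_𝔞 : Λ → SL_n(R/𝔞)`, `𝔞` in `A`, compatible with the maps
`R/𝔞 → R/𝔟`, with the same images as `Γ`, such that `θ(L(Γ(𝔞)))` is unitarily conjugate to
`L(ker ψ_𝔞)`. -/
def CongruenceQuotients {Γ : Subgroup (SpecialLinearGroup I R)} {Λ : Type} [Group Λ]
    (θ : VNIso Γ Λ) (A : Set (Ideal R)) : Prop :=
  ∃ ψ : ∀ 𝔞 : A, Λ →* SpecialLinearGroup I (R ⧸ (𝔞 : Ideal R)),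
    (∀ 𝔞 : A, (ψ 𝔞).range = Γ.map (SpecialLinearGroup.map (Ideal.Quotient.mk (𝔞 : Ideal R))) ∧
      ConjAlg θ (congSet Γ 𝔞) ((ψ 𝔞).ker : Set Λ)) ∧
    ∀ (𝔞 𝔟 : A) (h : (𝔞 : Ideal R) ≤ 𝔟) (s : Λ),
      SpecialLinearGroup.map (Ideal.Quotient.factor h) (ψ 𝔞 s) = ψ 𝔟 s

end Mat

end Pool.Agent.J4.H1.VN
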