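import Pool.Agent.J4.H1.VN.Lat

/-!
# Three preserved subgroups `A`, `B`, `C` with `[A, B] ≤ C`
-/

set_option autoImplicit false

namespace Pool.Agent.J4.H1.VN

open Pool.Agent.K4H1.VN Pool.Agent.Y276.Rig
open scoped ComplexConjugate InnerProductSpace

variable {Γ Λ : Type} [Group Γ] [Group Λ] {U : L2 Γ ≃ₗᵢ[ℂ] L2 Λ}

/-- the vector `U (λ_a ρ_a U⁻¹ δ_t)`, the coefficients of `θ(u_a) u_t θ(u_a)⁻¹` -/
noncomputable def FF (U : L2 Γ ≃ₗᵢ[ℂ] L2 Λ) (a : Γ) (t : Λ) : L2 Λ :=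
  U (lam a (rho a (U.symm (delta t))))

/-- the operator `θ(u_a) u_t θ(u_a)⁻¹` -/
noncomputable def YY (U : L2 Γ ≃ₗᵢ[ℂ] L2 Λ) (a : Γ) (t : Λ) : L2 Λ →L[ℂ] L2 Λ :=
  clm (((cv U a).symm.trans (lam t)).trans (cv U a))

theorem YY_apply (a : Γ) (t : Λ) (f : L2 Λ) :
    YY U a t f = cv U a (lam t ((cv U a).symm f)) := rfl

theorem YY_inVN (hU : IsStdIso U) (a : Γ) (t : Λ) : InVN (YY U a t) := by
  intro g f
  have h1 : InVN (cv U a) := cv_inVN hU.2 a
  rw [YY_apply, YY_apply, symm_inVN h1, ← rho_lam, h1]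

theorem cv_one (hU : IsStdIso U) (a : Γ) : cv U a (delta 1) = U (delta a) := by
  rw [cv_apply, hU.symm_one, lam_delta, mul_one]

theorem YY_one (hU : IsStdIso U) (a : Γ) (t : Λ) : YY U a t (delta 1) = FF U a t := by
  have h1 : (cv U a).symm (delta 1) = U (delta a⁻¹) := by
    apply (cv U a).injective
    rw [LinearIsometryEquiv.apply_symm_apply, cv_U, lam_delta, mul_inv_cancel, hU.1]
  have h2 : InVN (th U.symm (tl (lam t))) := inVN_th hU.symm t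
  have h3 : (delta a⁻¹ : L2 Γ) = rho a (delta 1) := by rw [rho_delta, one_mul]
  have h4 : lam t (U (delta a⁻¹)) = U (rho a (U.symm (delta t))) := by
    apply U.symm.injective
    rw [U.symm_apply_apply]
    have h5 : U.symm (lam t (U (delta a⁻¹))) = th U.symm (tl (lam t)) (delta a⁻¹) := rfl
    rw [h5, h3, h2, th_lam_delta hU.symm]
  rw [YY_apply, h1, h4, cv_U]
  rfl

theorem YY_x (hU : IsStdIso U) (a : Γ) (t : Λ) :
    YY U a t (U (delta a)) = rho t⁻¹ (U (delta a)) := by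
  have h1 : InVN (cv U a) := cv_inVN hU.2 a
  have h2 : (delta t : L2 Λ) = rho t⁻¹ (delta 1) := by rw [rho_delta, inv_inv, one_mul]
  rw [YY_apply, ← cv_one hU, LinearIsometryEquiv.symm_apply_apply, lam_delta, mul_one, h2, h1]

theorem FF_ne (a : Γ) (t : Λ) : ∃ b, FF U a t b ≠ 0 := by
  by_contra hcon
  push Not at hcon
  have h1 : FF U a t = 0 := L2ext hcon
  have h2 : ‖FF U a t‖ = 1 := by
    rw [FF, LinearIsometryEquiv.norm_map, LinearIsometryEquiv.norm_map,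
      LinearIsometryEquiv.norm_map, LinearIsometryEquiv.norm_map, norm_delta]
  rw [h1, norm_zero] at h2
  exact zero_ne_one h2

theorem FF_supp {N : Subgroup Γ} {KN : Subgroup Λ} (hN : Compat U (N : Set Γ) KN) {a : Γ}
    (ha : ∀ n ∈ N, a * n * a⁻¹ ∈ N) {t : Λ} (ht : t ∈ KN) (b : Λ) (hb : FF U a t b ≠ 0) :
    b ∈ KN := by
  refine Compat.supp hN (fun x hx => ?_) b hb
  rw [lam_apply, rho_apply] at hx
  have h1 := ha _ (hN.2 t ht _ hx)
  have h2 : a * (a⁻¹ * x * a) * a⁻¹ = x := by group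
  rwa [h2] at h1

/-- **The normalisation lemma.** -/
theorem FF_single (hU : IsStdIso U) {A N : Subgroup Γ} {KA KN : Subgroup Λ}
    (hA : Compat U (A : Set Γ) KA) (hN : Compat U (N : Set Γ) KN)
    (hAN : ∀ x ∈ A, x ∈ N → x = 1) {a : Γ} (haA : a ∈ A) (ha : ∀ n ∈ N, a * n * a⁻¹ ∈ N)
    {t : Λ} (ht : t ∈ KN) {b b' : Λ} (hb : FF U a t b ≠ 0) (hb' : FF U a t b' ≠ 0) : b = b' := by
  have hK : ∀ k, k ∈ KA → k ∈ KN → k = 1 := fun k h h' => hA.inter_trivial hU hN hAN h h'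
  have key : ∀ b ∈ KN, ∀ s ∈ KA, U (delta a) s * FF U a t b = U (delta a) (b * s * t⁻¹) := by
    intro b hb s hs
    have h1 := apply_hasSum (YY U a t) (U (delta a)) (b * s)
    have h2 : ∀ c, c ≠ s → U (delta a) c * YY U a t (delta c) (b * s) = 0 := by
      intro c hc
      rw [(YY_inVN hU a t).delta_apply', YY_one hU]
      by_contra hne
      have h3 := hA.1 a haA c (left_ne_zero_of_mul hne)
      have h4 := FF_supp hN ha ht _ (right_ne_zero_of_mul hne)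
      have h5 : s * c⁻¹ ∈ KN := by
        have := KN.mul_mem (KN.inv_mem hb) h4
        rwa [mul_assoc, inv_mul_cancel_left] at this
      exact hc (mul_inv_eq_one.1 (hK _ (KA.mul_mem hs (KA.inv_mem h3)) h5)).symm
    have h3 := h1.unique (hasSum_single s h2)
    rw [YY_x hU, rho_apply, (YY_inVN hU a t).delta_apply', YY_one hU, mul_inv_cancel_right] at h3
    exact h3.symm
  obtain ⟨s, hs⟩ := exists_supp (U := U) a
  have hsA := hA.1 a haA s hs
  have hbN := FF_supp hN ha ht b hb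
  have hbN' := FF_supp hN ha ht b' hb'
  have h1 : b * s * t⁻¹ ∈ KA := by
    refine hA.1 a haA _ ?_
    rw [← key b hbN s hsA]
    exact mul_ne_zero hs hb
  have h2 : b' * s * t⁻¹ ∈ KA := by
    refine hA.1 a haA _ ?_
    rw [← key b' hbN' s hsA]
    exact mul_ne_zero hs hb'
  have h3 : b * b'⁻¹ ∈ KA := by
    have := KA.mul_mem h1 (KA.inv_mem h2)
    have h4 : b * s * t⁻¹ * (b' * s * t⁻¹)⁻¹ = b * b'⁻¹ := by group
    rwa [h4] at this
  exact mul_inv_eq_one.1 (hK _ h3 (KN.mul_mem hbN (KN.inv_mem hbN')))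

section BC

variable {B C : Subgroup Γ} {KB KC : Subgroup Λ}

/-- the coefficients of `θ⁻¹(u_s u_r)` -/
theorem symm_mul (hU : IsStdIso U) (hB : Compat U (B : Set Γ) KB) (hC : Compat U (C : Set Γ) KC)
    (hBC : ∀ x ∈ B, x ∈ C → x = 1) {s r : Λ} (hs : s ∈ KB) (hr : r ∈ KC) {b c : Γ}
    (hb : b ∈ B) (hc : c ∈ C) :
    U.symm (delta (s * r)) (b * c) = U.symm (delta s) b * U.symm (delta r) c := by
  have h1 := apply_hasSum (th U.symm (tl (lam s))) (U.symm (delta r)) (b * c)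
  have h2 : ∀ c', c' ≠ c →
      U.symm (delta r) c' * th U.symm (tl (lam s)) (delta c') (b * c) = 0 := by
    intro c' hne
    rw [(inVN_th hU.symm s).delta_apply', th_lam_delta hU.symm]
    by_contra h
    have h3 := hC.2 r hr c' (left_ne_zero_of_mul h)
    have h4 := hB.2 s hs _ (right_ne_zero_of_mul h)
    have h5 : c * c'⁻¹ ∈ B := by
      have := B.mul_mem (B.inv_mem hb) h4
      rwa [mul_assoc, inv_mul_cancel_left] at this
    exact hne (mul_inv_eq_one.1 (hBC _ h5 (C.mul_mem hc (C.inv_mem h3)))).symm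
  have h3 := h1.unique (hasSum_single c h2)
  rw [th_lam_apply, lam_delta, (inVN_th hU.symm s).delta_apply', th_lam_delta hU.symm,
    mul_inv_cancel_right] at h3
  rw [h3, mul_comm]

/-- `θ⁻¹(u_s u_r)` is supported on the product -/
theorem symm_mul_supp (hU : IsStdIso U) (hB : Compat U (B : Set Γ) KB)
    (hC : Compat U (C : Set Γ) KC) {s r : Λ} (hs : s ∈ KB) (hr : r ∈ KC) {x : Γ}
    (hx : U.symm (delta (s * r)) x ≠ 0) : ∃ b ∈ B, ∃ c ∈ C, x = b * c := by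
  by_contra hcon
  apply hx
  have h1 := apply_hasSum (th U.symm (tl (lam s))) (U.symm (delta r)) x
  rw [th_lam_apply, lam_delta] at h1
  refine h1.unique ?_
  convert hasSum_zero using 1
  funext c'
  rw [(inVN_th hU.symm s).delta_apply', th_lam_delta hU.symm]
  by_contra h
  have h3 := hC.2 r hr c' (left_ne_zero_of_mul h)
  have h4 := hB.2 s hs _ (right_ne_zero_of_mul h)
  exact hcon ⟨_, h4, _, h3, by rw [inv_mul_cancel_right]⟩

theorem K_comm (hU : IsStdIso U) (hB : Compat U (B : Set Γ) KB) (hC : Compat U (C : Set Γ) KC)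
    (hBC : ∀ x ∈ B, x ∈ C → x = 1) (hcom : ∀ b ∈ B, ∀ c ∈ C, b * c = c * b) {s r : Λ}
    (hs : s ∈ KB) (hr : r ∈ KC) : s * r = r * s := by
  classical
  have h1 : U.symm (delta (s * r)) = U.symm (delta (r * s)) := by
    apply L2ext
    intro x
    by_cases hx : ∃ b ∈ B, ∃ c ∈ C, x = b * c
    · obtain ⟨b, hb, c, hc, rfl⟩ := hx
      rw [symm_mul hU hB hC hBC hs hr hb hc, hcom b hb c hc,
        symm_mul hU hC hB (fun x h h' => hBC x h' h) hr hs hc hb, mul_comm]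
    · have h2 : U.symm (delta (s * r)) x = 0 := by
        by_contra h
        exact hx (symm_mul_supp hU hB hC hs hr h)
      have h3 : U.symm (delta (r * s)) x = 0 := by
        by_contra h
        obtain ⟨c, hc, b, hb, rfl⟩ := symm_mul_supp hU hC hB hr hs h
        exact hx ⟨b, hb, c, hc, (hcom b hb c hc).symm⟩
      rw [h2, h3]
  have h2 := U.symm.injective h1
  have h3 := congrArg (fun f : L2 Λ => f (s * r)) h2
  simp only [delta_apply, if_pos] at h3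
  by_contra hne
  rw [if_neg hne] at h3
  exact one_ne_zero h3

/-- a group-like inverse -/
theorem gl_of_symm (hU : IsStdIso U) (hB : Compat U (B : Set Γ) KB)
    (h : ∀ t ∈ KB, ∀ x x', U.symm (delta t) x ≠ 0 → U.symm (delta t) x' ≠ 0 → x = x') {b : Γ}
    (hb : b ∈ B) : ∃ c k, Glk U b c k := by
  obtain ⟨t, ht⟩ := exists_supp (U := U) b
  have htK := hB.1 b hb t ht
  obtain ⟨c, x, hx⟩ := gl_of_single (U := U.symm) (h t htK)
  have h1 := hx.symm'
  rw [LinearIsometryEquiv.symm_symm] at h1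
  have h2 : x = b := by
    classical
    by_contra hne
    apply ht
    rw [← inner_delta, ← LinearIsometryEquiv.inner_map_map U.symm, U.symm_apply_apply, hx,
      inner_smul_left, inner_delta, delta_apply, if_neg hne, mul_zero]
  rw [h2] at h1
  exact ⟨_, _, h1⟩

/-- **The commutator lemma.** -/
theorem gl_of_triple (hU : IsStdIso U) {A : Subgroup Γ} {KA : Subgroup Λ}
    (hA : Compat U (A : Set Γ) KA) (hB : Compat U (B : Set Γ) KB) (hC : Compat U (C : Set Γ) KC)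
    {N : Subgroup Γ} {KN : Subgroup Λ} (hN : Compat U (N : Set Γ) KN)
    (hNe : ∀ x, x ∈ N ↔ ∃ b ∈ B, ∃ c ∈ C, x = b * c)
    (hcom : ∀ b ∈ B, ∀ c ∈ C, b * c = c * b) (hBC : ∀ x ∈ B, x ∈ C → x = 1)
    (hABC : ∀ x ∈ A, x ∈ N → x = 1) {a : Γ} (haA : a ∈ A) (haN : ∀ n ∈ N, a * n * a⁻¹ ∈ N)
    (haC : ∀ b ∈ B, a * b * a⁻¹ * b⁻¹ ∈ C) (haB : ∀ b ∈ B, a * b = b * a → b = 1) {b : Γ}
    (hb : b ∈ B) : ∃ c k, Glk U b c k := by
  refine gl_of_symm hU hB (fun t ht b₁ b₂ h₁ h₂ => ?_) hb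
  -- the elements of `K_N` are products
  have hKN : ∀ k ∈ KN, ∃ s ∈ KB, ∃ r ∈ KC, k = s * r := by
    intro k hk
    obtain ⟨x, hx⟩ := exists_supp (U := U.symm) k
    obtain ⟨b, hb, c, hc, rfl⟩ := (hNe x).1 (hN.2 k hk x hx)
    -- `⟨δ_k, U δ_{bc}⟩ ≠ 0`
    have h3 : U (delta (b * c)) k ≠ 0 := by
      intro h4
      apply hx
      rw [← inner_delta, ← LinearIsometryEquiv.inner_map_map U, U.apply_symm_apply,
        ← inner_conj_symm, inner_delta, h4, map_zero]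
    exact symm_mul_supp (U := U.symm) hU.symm (B := KB) (C := KC) (KB := B) (KC := C)
      (Compat.symm_subgroup hB) (Compat.symm_subgroup hC) hb hc h3
  have hBN : ∀ b ∈ B, b ∈ N := fun b hb => (hNe b).2 ⟨b, hb, 1, C.one_mem, (mul_one b).symm⟩
  have htN : t ∈ KN := by
    obtain ⟨x, hx⟩ := exists_supp (U := U.symm) t
    have h3 : U (delta x) t ≠ 0 := by
      intro h4
      apply hx
      rw [← inner_delta, ← LinearIsometryEquiv.inner_map_map U, U.apply_symm_apply,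
        ← inner_conj_symm, inner_delta, h4, map_zero]
    exact hN.1 x (hBN x (hB.2 t ht x hx)) t h3
  -- the point
  obtain ⟨k, hk⟩ := FF_ne (U := U) a t
  have hkN := FF_supp hN haN htN k hk
  obtain ⟨s, hs, r, hr, rfl⟩ := hKN k hkN
  have hF : FF U a t = (FF U a t (s * r)) • (delta (s * r) : L2 Λ) := by
    classical
    apply L2ext
    intro x
    rw [lp.coeFn_smul, Pi.smul_apply, delta_apply]
    by_cases hx : x = s * r
    · rw [if_pos hx, hx, smul_eq_mul, mul_one]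
    · rw [if_neg hx, smul_zero]
      by_contra hne
      exact hx (FF_single hU hA hN hABC haA haN htN hne hk)
  obtain ⟨e, he⟩ : ∃ e : ℂ, e = FF U a t (s * r) := ⟨_, rfl⟩
  have he0 : e ≠ 0 := he ▸ hk
  rw [← he] at hF
  have hw : ∀ x, U.symm (delta t) (a⁻¹ * x * a) = e * U.symm (delta (s * r)) x := by
    intro x
    have h3 := congrArg U.symm hF
    rw [FF, U.symm_apply_apply, map_smul] at h3
    have h4 := congrArg (fun f : L2 Γ => f x) h3
    simp only [lp.coeFn_smul, Pi.smul_apply, smul_eq_mul] at h4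
    rw [lam_apply, rho_apply] at h4
    exact h4
  -- the two formulas
  have hg : ∀ b ∈ B, U.symm (delta t) b ≠ 0 →
      U.symm (delta s) b ≠ 0 ∧ U.symm (delta r) (a * b * a⁻¹ * b⁻¹) ≠ 0 := by
    intro b hb h
    have h3 := hw (b * (a * b * a⁻¹ * b⁻¹))
    rw [symm_mul hU hB hC hBC hs hr hb (haC b hb)] at h3
    have h4 : a⁻¹ * (b * (a * b * a⁻¹ * b⁻¹)) * a = b := by
      rw [hcom b hb _ (haC b hb)]
      group
    rw [h4] at h3
    rw [h3] at h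
    exact ⟨left_ne_zero_of_mul (right_ne_zero_of_mul h),
      right_ne_zero_of_mul (right_ne_zero_of_mul h)⟩
  have hb₁ := hB.2 t ht b₁ h₁
  have hb₂ := hB.2 t ht b₂ h₂
  obtain ⟨h3, -⟩ := hg b₁ hb₁ h₁
  obtain ⟨-, h4⟩ := hg b₂ hb₂ h₂
  have h5 : U.symm (delta t) (a⁻¹ * (b₁ * (a * b₂ * a⁻¹ * b₂⁻¹)) * a) ≠ 0 := by
    rw [hw, symm_mul hU hB hC hBC hs hr hb₁ (haC b₂ hb₂)]
    exact mul_ne_zero he0 (mul_ne_zero h3 h4)
  have hb₃ := hB.2 t ht _ h5
  obtain ⟨b₃, hb₃e⟩ : ∃ b₃, b₃ = a⁻¹ * (b₁ * (a * b₂ * a⁻¹ * b₂⁻¹)) * a := ⟨_, rfl⟩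
  rw [← hb₃e] at hb₃
  have hb₃B : b₃ ∈ B := hb₃
  have h6 : a * b₃ * a⁻¹ = b₁ * (a * b₂ * a⁻¹ * b₂⁻¹) := by
    rw [hb₃e]
    group
  have h7 : b₃⁻¹ * b₁ = (a * b₃ * a⁻¹ * b₃⁻¹) * (a * b₂ * a⁻¹ * b₂⁻¹)⁻¹ := by
    have h8 : a * b₃ * a⁻¹ = b₃ * (a * b₃ * a⁻¹ * b₃⁻¹) := by
      rw [hcom b₃ hb₃B _ (haC b₃ hb₃B)]
      group
    have h9 : b₃ * (a * b₃ * a⁻¹ * b₃⁻¹) = b₁ * (a * b₂ * a⁻¹ * b₂⁻¹) := by rw [← h8, h6]
    have h10 : a * b₃ * a⁻¹ * b₃⁻¹ = b₃⁻¹ * (b₁ * (a * b₂ * a⁻¹ * b₂⁻¹)) := by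
      rw [← h9, inv_mul_cancel_left]
    rw [h10]
    group
  have h8 : b₃⁻¹ * b₁ = 1 := hBC _ (B.mul_mem (B.inv_mem hb₃B) hb₁) (by
    rw [h7]
    exact C.mul_mem (haC b₃ hb₃B) (C.inv_mem (haC b₂ hb₂)))
  have h9 : b₃ = b₁ := inv_mul_eq_one.1 h8
  rw [h9, inv_mul_cancel] at h7
  have h10 : a * b₁ * a⁻¹ * b₁⁻¹ = a * b₂ * a⁻¹ * b₂⁻¹ := (mul_inv_eq_one.1 h7.symm)
  have h11 : b₁⁻¹ * b₂ = 1 := by
    refine haB _ (B.mul_mem (B.inv_mem hb₁) hb₂) ?_
    have e1 : a * b₁ * a⁻¹ = (a * b₁ * a⁻¹ * b₁⁻¹) * b₁ := by group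
    have e2 : a * b₂ * a⁻¹ = (a * b₁ * a⁻¹ * b₁⁻¹) * b₂ := by
      rw [h10]
      group
    have e3 : a * (b₁⁻¹ * b₂) * a⁻¹ = (a * b₁ * a⁻¹)⁻¹ * (a * b₂ * a⁻¹) := by group
    have e4 : a * (b₁⁻¹ * b₂) * a⁻¹ = b₁⁻¹ * b₂ := by
      rw [e3, e1, e2]
      group
    exact mul_inv_eq_iff_eq_mul.1 e4
  exact inv_mul_eq_one.1 h11

end BC

end Pool.Agent.J4.H1.VN
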